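import Pool.Agent.M3.Bin.Defs

/-! # M3/Bin/Flr: cells, positions, windows (no probability) -/

set_option autoImplicit false

namespace Pool.Agent.M3.Bin

open Finset Pool.Agent.PWZ

variable {k : ℕ}

/-- `v` is its floor plus a remainder `< 2^j` -/
theorem flr_add_rem (j : ℕ) (v : V k) : ∃ r : ℕ, r < 2 ^ j ∧ v = flr j v + (r : V k) := by
  refine ⟨v.val % 2 ^ j, Nat.mod_lt _ (by positivity), ?_⟩
  unfold flr
  abel

theorem flr_zero (v : V k) : flr 0 v = v := by
  unfold flr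
  simp [Nat.mod_one]

theorem flr_eq_cast (j : ℕ) (v : V k) : flr j v = ((v.val - v.val % 2 ^ j : ℕ) : V k) := by
  unfold flr
  rw [Nat.cast_sub (Nat.mod_le _ _), ZMod.natCast_zmod_val]

/-- value of the floor -/
theorem flr_val (j : ℕ) (v : V k) : (flr j v).val = v.val - v.val % 2 ^ j := by
  rw [flr_eq_cast, ZMod.val_natCast_of_lt]
  exact lt_of_le_of_lt (Nat.sub_le _ _) (ZMod.val_lt v)

theorem sub_mod_eq (n m : ℕ) : n - n % m = m * (n / m) := by
  have := Nat.div_add_mod n m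
  omega

theorem flr_flr {j j' : ℕ} (hj : j ≤ j') (v : V k) : flr j' (flr j v) = flr j' v := by
  rw [flr_eq_cast j' (flr j v), flr_eq_cast j' v, flr_val, sub_mod_eq, sub_mod_eq, sub_mod_eq]
  congr 2
  obtain ⟨d, rfl⟩ := Nat.exists_eq_add_of_le hj
  rw [pow_add, Nat.mul_div_mul_left _ _ (by positivity), Nat.div_div_eq_div_mul]

theorem val_add_mod {j : ℕ} (hj : j ≤ k) (v : V k) (c : ℕ) :
    (v + (c : V k)).val % 2 ^ j = (v.val + c) % 2 ^ j := by
  rw [ZMod.val_add, ZMod.val_natCast, Nat.mod_mod_of_dvd _ (pow_dvd_pow 2 hj), Nat.add_mod,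
    Nat.mod_mod_of_dvd _ (pow_dvd_pow 2 hj), ← Nat.add_mod]

/-- translation by a multiple of `2^i`, `i ≥ j` -/
theorem flr_add_mul {j i : ℕ} (hj : j ≤ i) (v : V k) (c : ℕ) :
    flr j (v + ((c * 2 ^ i : ℕ) : V k)) = flr j v + ((c * 2 ^ i : ℕ) : V k) := by
  by_cases hjk : j ≤ k
  · unfold flr
    rw [val_add_mod hjk]
    obtain ⟨d, rfl⟩ := Nat.exists_eq_add_of_le hj
    have : (v.val + c * 2 ^ (j + d)) % 2 ^ j = v.val % 2 ^ j := by
      rw [show c * 2 ^ (j + d) = 2 ^ j * (c * 2 ^ d) by ring, Nat.add_mul_mod_self_left]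
    rw [this]
    ring
  · have h0 : ((c * 2 ^ i : ℕ) : V k) = 0 := by
      rw [ZMod.natCast_eq_zero_iff]
      exact Dvd.dvd.mul_left (pow_dvd_pow 2 (by omega)) c
    rw [h0, add_zero, add_zero]

/-- a point of an aligned cell -/
theorem flr_aligned_add {j : ℕ} (hj : j ≤ k) (v : V k) (hv : flr j v = v) (r : ℕ) (hr : r < 2 ^ j) :
    flr j (v + (r : V k)) = v := by
  have h1 : v.val % 2 ^ j = 0 := by
    have h2 := flr_val j v
    rw [hv] at h2
    have h3 := Nat.mod_le v.val (2 ^ j)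
    omega
  unfold flr
  rw [val_add_mod hj, Nat.add_mod, h1, zero_add, Nat.mod_mod, Nat.mod_eq_of_lt hr]
  abel

theorem flr_mono_eq {j j' : ℕ} (hj : j ≤ j') {v v' : V k} (h : flr j v = flr j v') :
    flr j' v = flr j' v' := by
  rw [← flr_flr hj v, h, flr_flr hj v']

/-- a cell has `2^j` points -/
theorem card_cell {j : ℕ} (hj : j ≤ k) (v : V k) :
    (univ.filter fun v' : V k => flr j v' = flr j v).card = 2 ^ j := by
  have h1 : (univ.filter fun v' : V k => flr j v' = flr j v) =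
      (range (2 ^ j)).image (fun r : ℕ => flr j v + (r : V k)) := by
    ext v'
    rw [Finset.mem_filter, Finset.mem_image]
    constructor
    · rintro ⟨_, h⟩
      obtain ⟨r, hr, hv⟩ := flr_add_rem j v'
      exact ⟨r, Finset.mem_range.mpr hr, by rw [← h, ← hv]⟩
    · rintro ⟨r, hr, rfl⟩
      exact ⟨Finset.mem_univ _, flr_aligned_add hj _ (flr_flr le_rfl v) r (Finset.mem_range.mp hr)⟩
  rw [h1, Finset.card_image_of_injOn, card_range]
  intro r hr r' hr' h
  rw [Finset.mem_coe, Finset.mem_range] at hr hr'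
  have h2 : (r : V k) = (r' : V k) := add_left_cancel h
  have h3 : (2 : ℕ) ^ j ≤ 2 ^ k := Nat.pow_le_pow_right (by norm_num) hj
  have h4 := congrArg ZMod.val h2
  rwa [ZMod.val_natCast_of_lt (by omega), ZMod.val_natCast_of_lt (by omega)] at h4

theorem mod_pow_succ (w e : ℕ) : w % 2 ^ (e + 1) = w % 2 ^ e + (w / 2 ^ e) % 2 * 2 ^ e := by
  rw [pow_succ, Nat.mod_mul]
  ring

theorem pos_succ (e : ℕ) (x : V k) (w : ℕ) :
    pos (e + 1) x w = pos e x w + ((bit e w * 2 ^ e : ℕ) : V k) := by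
  unfold pos bit
  rw [mod_pow_succ]
  push_cast
  ring

theorem pos_zero (x : V k) (w : ℕ) : pos 0 x w = x := by
  unfold pos
  simp [Nat.mod_one]

/-- the parent of a rounded node -/
theorem par_G (h e : ℕ) (z : V k) (w : ℕ) : par h e (G h e z w) = G h (e + 1) z w := by
  unfold par G gam
  simp only
  rw [← flr_add_mul (Nat.sub_le e h), flr_flr (by omega), Nat.div_div_eq_div_mul, ← pow_succ]
  rw [pos_succ]
  rfl

theorem G_aligned (h e : ℕ) (z : V k) (w : ℕ) : flr (e - h) (G h e z w).1 = (G h e z w).1 :=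
  flr_flr le_rfl _

/-- a window is the union of its two halves -/
theorem ip_succ (e : ℕ) (y : V k) (f g : V k → ℝ) :
    ip (e + 1) y f g = (ip e y f g + ip e (y - ((2 ^ e : ℕ) : V k)) f g) / 2 := by
  unfold ip
  rw [show (2 : ℕ) ^ (e + 1) = 2 ^ e + 2 ^ e by ring, Finset.sum_range_add, ← mul_add, pow_succ,
    mul_inv]
  have : ∀ n : ℕ, y - ((2 ^ e : ℕ) : V k) - (n : V k) = y - ((2 ^ e + n : ℕ) : V k) := by
    intro n
    push_cast
    ring
  simp only [this]
  ring

theorem ip_zero (y : V k) (f g : V k → ℝ) : ip 0 y f g = f y * g y := by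
  unfold ip
  simp

theorem abs_ip_le (e : ℕ) (y : V k) (f g : V k → ℝ) (B : ℝ) (hB : ∀ d, |f d * g d| ≤ B) :
    |ip e y f g| ≤ B := by
  unfold ip
  rw [abs_mul, abs_of_pos (by positivity : (0 : ℝ) < (2 ^ e)⁻¹)]
  have h1 : |∑ n ∈ range (2 ^ e), f (y - (n : V k)) * g (y - (n : V k))| ≤ 2 ^ e * B := by
    refine (Finset.abs_sum_le_sum_abs _ _).trans ?_
    calc _ ≤ ∑ _n ∈ range (2 ^ e), B := Finset.sum_le_sum fun n _ => hB _
      _ = 2 ^ e * B := by rw [Finset.sum_const, card_range, nsmul_eq_mul]; push_cast; rfl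
  calc _ ≤ ((2 : ℝ) ^ e)⁻¹ * (2 ^ e * B) := mul_le_mul_of_nonneg_left h1 (by positivity)
    _ = B := by field_simp

/-- translation of a window -/
theorem ip_shift (e : ℕ) (y : V k) (f g : V k → ℝ) (B : ℝ) (hB : ∀ d, |f d * g d| ≤ B) (r : ℕ) :
    |ip e (y + (r : V k)) f g - ip e y f g| ≤ 2 * r * B / 2 ^ e := by
  have step : ∀ y : V k, |ip e (y + 1) f g - ip e y f g| ≤ 2 * B / 2 ^ e := by
    intro y
    unfold ip
    rw [← mul_sub]
    have h1 : ∑ n ∈ range (2 ^ e), f (y + 1 - (n : V k)) * g (y + 1 - (n : V k)) -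
        ∑ n ∈ range (2 ^ e), f (y - (n : V k)) * g (y - (n : V k)) =
        f (y + 1) * g (y + 1) -
          f (y + 1 - ((2 ^ e : ℕ) : V k)) * g (y + 1 - ((2 ^ e : ℕ) : V k)) := by
      generalize 2 ^ e = m
      have h2 := Finset.sum_range_succ' (fun n : ℕ => f (y + 1 - (n : V k)) * g (y + 1 - (n : V k))) m
      have h3 := Finset.sum_range_succ (fun n : ℕ => f (y + 1 - (n : V k)) * g (y + 1 - (n : V k))) m
      rw [h3] at h2
      have h4 : ∀ n : ℕ, y + 1 - ((n + 1 : ℕ) : V k) = y - (n : V k) := by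
        intro n
        push_cast
        ring
      simp only [h4, Nat.cast_zero, sub_zero] at h2
      linarith
    rw [h1, abs_mul, abs_of_pos (by positivity : (0 : ℝ) < (2 ^ e)⁻¹), div_eq_mul_inv, mul_comm]
    refine mul_le_mul_of_nonneg_right ?_ (by positivity)
    have a1 := hB (y + 1)
    have a2 := hB (y + 1 - ((2 ^ e : ℕ) : V k))
    rw [abs_le] at a1 a2 ⊢
    constructor <;> linarith [a1.1, a1.2, a2.1, a2.2]
  induction r with
  | zero => simp
  | succ r ih =>
    have h1 := step (y + (r : V k))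
    have h2 : y + ((r + 1 : ℕ) : V k) = y + (r : V k) + 1 := by push_cast; ring
    rw [h2]
    have h3 : ip e (y + (r : V k) + 1) f g - ip e y f g =
        (ip e (y + (r : V k) + 1) f g - ip e (y + (r : V k)) f g) +
          (ip e (y + (r : V k)) f g - ip e y f g) := by ring
    rw [h3]
    refine (abs_add_le _ _).trans ?_
    have h4 : 2 * ((r + 1 : ℕ) : ℝ) * B / 2 ^ e = 2 * B / 2 ^ e + 2 * r * B / 2 ^ e := by
      push_cast
      ring
    linarith

/-- exact window against rounded window -/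
theorem ip_round (h e : ℕ) (y : V k) (f g : V k → ℝ) (B : ℝ) (hB : ∀ d, |f d * g d| ≤ B) :
    |ip e y f g - ip e (flr (e - h) y) f g| ≤ 2 * B * ((2 : ℝ) ^ h)⁻¹ := by
  have hB0 : 0 ≤ B := (abs_nonneg _).trans (hB 0)
  obtain ⟨r, hr, hy⟩ := flr_add_rem (e - h) y
  have h1 := ip_shift e (flr (e - h) y) f g B hB r
  rw [← hy] at h1
  refine h1.trans ?_
  by_cases hhe : h ≤ e
  · have h2 : (r : ℝ) ≤ 2 ^ (e - h) := by exact_mod_cast hr.le
    have h3 : (2 : ℝ) ^ e = 2 ^ (e - h) * 2 ^ h := by rw [← pow_add]; congr 1; omega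
    rw [div_le_iff₀ (by positivity), h3]
    calc 2 * (r : ℝ) * B ≤ 2 * 2 ^ (e - h) * B := by gcongr
      _ = 2 * B * ((2 : ℝ) ^ h)⁻¹ * (2 ^ (e - h) * 2 ^ h) := by field_simp
  · rw [show e - h = 0 by omega, pow_zero] at hr
    have : r = 0 := by omega
    subst this
    simp only [Nat.cast_zero, mul_zero, zero_mul, zero_div]
    positivity

/-- linearity -/
theorem ip_add_left (e : ℕ) (y : V k) (f f' g : V k → ℝ) :
    ip e y (fun d => f d + f' d) g = ip e y f g + ip e y f' g := by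
  unfold ip
  rw [← mul_add, ← Finset.sum_add_distrib]
  congr 1
  exact Finset.sum_congr rfl fun n _ => by ring

theorem ip_sub_left (e : ℕ) (y : V k) (f f' g : V k → ℝ) :
    ip e y (fun d => f d - f' d) g = ip e y f g - ip e y f' g := by
  unfold ip
  rw [← mul_sub, ← Finset.sum_sub_distrib]
  congr 1
  exact Finset.sum_congr rfl fun n _ => by ring

theorem ip_comm (e : ℕ) (y : V k) (f g : V k → ℝ) : ip e y f g = ip e y g f := by
  unfold ip
  congr 1
  exact Finset.sum_congr rfl fun n _ => by ring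

theorem ip_smul_left (e : ℕ) (y : V k) (c : ℝ) (f g : V k → ℝ) :
    ip e y (fun d => c * f d) g = c * ip e y f g := by
  unfold ip
  rw [mul_left_comm]
  congr 1
  rw [Finset.mul_sum]
  exact Finset.sum_congr rfl fun n _ => by ring

theorem ip_mono (e : ℕ) (y : V k) (f g f' g' : V k → ℝ) (h : ∀ d, f d * g d ≤ f' d * g' d) :
    ip e y f g ≤ ip e y f' g' := by
  unfold ip
  exact mul_le_mul_of_nonneg_left (Finset.sum_le_sum fun n _ => h _) (by positivity)

end Pool.Agent.M3.Bin
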