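import Pool.Agent.M3.Bin.InstC

/-!
# M3/Bin/InstF (helper11): given the second vertex and the node, the first vertex is fresh
-/

set_option autoImplicit false
set_option linter.unusedSectionVars false

namespace Pool.Agent.M3.Bin

open Finset Pool.Agent.PWZ Pool.Agent.M3

variable {k N : ℕ} {P Q : Type} [Fintype P] [Fintype Q]

/-- a sum over an interval is at most the sum over the group -/
theorem sum_range_le {e : ℕ} (he : e ≤ k) (z : V k) (F : V k → ℝ) (hF : ∀ v, 0 ≤ F v) :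
    ∑ n ∈ range (2 ^ e), F (z + (n : V k)) ≤ ∑ v : V k, F v := by
  classical
  have hinj : Set.InjOn (fun n : ℕ => z + (n : V k)) (range (2 ^ e) : Finset ℕ) := by
    intro n hn n' hn' hh
    rw [Finset.mem_coe, Finset.mem_range] at hn hn'
    have h1 : (n : V k) = (n' : V k) := add_left_cancel hh
    have h2 : (2 : ℕ) ^ e ≤ 2 ^ k := Nat.pow_le_pow_right (by norm_num) he
    have h3 := congrArg ZMod.val h1
    rwa [ZMod.val_natCast_of_lt (by omega), ZMod.val_natCast_of_lt (by omega)] at h3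
  rw [← Finset.sum_image (f := F) (g := fun n : ℕ => z + (n : V k)) hinj]
  exact Finset.sum_le_univ_sum_of_nonneg hF

/-- covering of an interval by cells -/
theorem cover (s : ℕ) (hs : s ≤ k) (β : V k) (m M : ℕ) (hm : m ≤ M) :
    ∃ j ∈ range ((M + (2 ^ s - 1)) / 2 ^ s + 1), flr s (β - (m : V k)) = flr s β - ((j * 2 ^ s : ℕ) : V k) := by
  obtain ⟨r, hr, hβ⟩ := flr_add_rem s β
  have hpos : 0 < 2 ^ s := Nat.two_pow_pos s
  set T := m + (2 ^ s - 1) - r with hT
  set j := T / 2 ^ s with hj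
  have h1 : j * 2 ^ s ≤ T := Nat.div_mul_le_self _ _
  have h2 : T < (j + 1) * 2 ^ s := by
    have := Nat.lt_div_mul_add (a := T) hpos
    rw [add_mul, one_mul]
    exact this
  refine ⟨j, ?_, ?_⟩
  · rw [Finset.mem_range, Nat.lt_succ_iff]
    exact Nat.div_le_div_right (by omega)
  · have h3 : m ≤ j * 2 ^ s + r := by
      rw [add_mul, one_mul] at h2
      omega
    obtain ⟨r', hr'⟩ := Nat.exists_eq_add_of_le h3
    have h4 : r' < 2 ^ s := by omega
    have h5 : β - (m : V k) = flr s β - ((j * 2 ^ s : ℕ) : V k) + (r' : V k) := by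
      have h6 : ((j * 2 ^ s + r : ℕ) : V k) = ((m + r' : ℕ) : V k) := by rw [hr']
      conv_lhs => rw [hβ]
      rw [Nat.cast_add, Nat.cast_add] at h6
      linear_combination h6
    rw [h5]
    refine flr_aligned_add hs _ ?_ r' h4
    rw [flr_sub_pow le_rfl, flr_flr le_rfl]

/-- number of low digits for a vertex -/
noncomputable def rr (h e : ℕ) (z g1 : V k) : ℝ := ∑ n ∈ range (2 ^ e), ind (flr (e - h) (z + (n : V k)) = g1)

theorem rr_nn (h e : ℕ) (z g1 : V k) : 0 ≤ rr h e z g1 := Finset.sum_nonneg fun _ _ => ind_nonneg _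

theorem rr_le (h e : ℕ) (he : e ≤ k) (z g1 : V k) : rr h e z g1 ≤ ∑ v : V k, ind (flr (e - h) v = g1) :=
  sum_range_le he z (fun v => ind (flr (e - h) v = g1)) (fun _ => ind_nonneg _)

/-- the sum over the noise -/
theorem sum_noise (h e : ℕ) (he : e ≤ N) (z : V k) (g : V k × ℕ) :
    ∑ w : Fin (2 ^ N), ind (G h e z (w : ℕ) = g) =
      (∑ hi ∈ range (2 ^ (N - e)), ind (hi = g.2)) * rr h e z g.1 := by
  rw [← Finset.sum_range (fun w => ind (G h e z w = g)), sum_split (N := N) e he, Finset.sum_mul]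
  refine Finset.sum_congr rfl fun hi _ => ?_
  unfold rr
  rw [Finset.mul_sum]
  refine Finset.sum_congr rfl fun lo hlo => ?_
  rw [Finset.mem_range] at hlo
  have h1 : (hi * 2 ^ e + lo) / 2 ^ e = hi := by
    rw [add_comm, Nat.add_mul_div_right _ _ (by positivity), Nat.div_eq_of_lt hlo, zero_add]
  have h2 : (hi * 2 ^ e + lo) % 2 ^ e = lo := by
    rw [add_comm, Nat.add_mul_mod_self_right, Nat.mod_eq_of_lt hlo]
  rw [← ind_and]
  congr 1
  unfold G gam pos
  rw [h1, h2, Prod.ext_iff]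
  exact propext ⟨fun hh => ⟨hh.2, hh.1⟩, fun hh => ⟨hh.2, hh.1⟩⟩

/-- the candidates are in few small cells -/
theorem fresh_cover (A : Par k P) (h e : ℕ) (he : e ≤ k) (g1 yv : V k) (c : ℕ) (p0 : P)
    (hp0 : A.cell (sc h e) p0 = c) (E : P × V k → Prop) :
    ∑ x : P × V k, ind (A.cell (sc h e) x.1 = c) * ind (E x) * rr h e (A.sh x + yv) g1 ≤
      (∑ v : V k, ind (flr (e - h) v = g1)) *
      ∑ j ∈ range (((2 ^ (e - h) - 1) + (2 ^ sc h e - 1) + (2 ^ e - 1) + (2 ^ sc h e - 1)) / 2 ^ sc h e + 1),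
        ∑ x ∈ TS.cel (A.vc (sc h e)) (c, flr (sc h e) (g1 - flr (sc h e) (A.tau p0) - yv +
          ((2 ^ (e - h) - 1 : ℕ) : V k)) - ((j * 2 ^ sc h e : ℕ) : V k)), ind (E x) := by
  classical
  set s := sc h e with hs
  have hsk : s ≤ k := by rw [hs]; unfold sc; omega
  set β : V k := g1 - flr s (A.tau p0) - yv + ((2 ^ (e - h) - 1 : ℕ) : V k) with hβ
  set J := ((2 ^ (e - h) - 1) + (2 ^ s - 1) + (2 ^ e - 1) + (2 ^ s - 1)) / 2 ^ s with hJ
  set M := ∑ v : V k, ind (flr (e - h) v = g1) with hM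
  have hM0 : 0 ≤ M := Finset.sum_nonneg fun _ _ => ind_nonneg _
  have h1 : ∀ j, ∑ x ∈ TS.cel (A.vc s) (c, flr s β - ((j * 2 ^ s : ℕ) : V k)), ind (E x) =
      ∑ x : P × V k, ind (A.vc s x = (c, flr s β - ((j * 2 ^ s : ℕ) : V k))) * ind (E x) :=
    fun j => (sum_ind_cel (A.vc s) _ (fun x => ind (E x))).symm
  rw [Finset.sum_congr rfl fun j _ => h1 j, Finset.sum_comm, Finset.mul_sum]
  refine Finset.sum_le_sum fun x _ => ?_
  rw [← Finset.sum_mul]
  by_cases hE : E x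
  swap
  · rw [ind_not hE]
    simp
  by_cases hc : A.cell s x.1 = c
  swap
  · rw [ind_not hc, zero_mul, zero_mul]
    exact mul_nonneg hM0 (mul_nonneg (Finset.sum_nonneg fun _ _ => ind_nonneg _) (ind_nonneg _))
  rw [ind_of hE, ind_of hc, one_mul, one_mul, mul_one]
  by_cases hr : rr h e (A.sh x + yv) g1 = 0
  · rw [hr]
    exact mul_nonneg hM0 (Finset.sum_nonneg fun _ _ => ind_nonneg _)
  have h2 : ∃ n ∈ range (2 ^ e), flr (e - h) (A.sh x + yv + (n : V k)) = g1 := by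
    by_contra hcon
    push Not at hcon
    apply hr
    unfold rr
    exact Finset.sum_eq_zero fun n hn => ind_not (hcon n hn)
  obtain ⟨n, hn, h3⟩ := h2
  rw [Finset.mem_range] at hn
  obtain ⟨t', ht', h4⟩ := flr_add_rem (e - h) (A.sh x + yv + (n : V k))
  rw [h3] at h4
  obtain ⟨ρ, hρ, h5⟩ := flr_add_rem s (A.tau x.1)
  have h6 : flr s (A.tau x.1) = flr s (A.tau p0) := A.comp s _ _ (by rw [hc, hp0])
  rw [h6] at h5
  -- the shift is `β - m`
  have h7 : x.2 = β - (((2 ^ (e - h) - 1 - t') + ρ + n : ℕ) : V k) := by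
    have h8 : ((2 ^ (e - h) - 1 : ℕ) : V k) = ((2 ^ (e - h) - 1 - t' : ℕ) : V k) + (t' : V k) := by
      rw [← Nat.cast_add]
      congr 1
      omega
    rw [hβ, h8]
    unfold Par.sh at h4
    rw [h5] at h4
    push_cast
    linear_combination h4
  obtain ⟨j, hj, h9⟩ := cover s hsk β ((2 ^ (e - h) - 1 - t') + ρ + n)
    ((2 ^ (e - h) - 1) + (2 ^ s - 1) + (2 ^ e - 1)) (by omega)
  have h10 : A.vc s x = (c, flr s β - ((j * 2 ^ s : ℕ) : V k)) := by
    unfold Par.vc
    rw [h7, h9, hc]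
  have h11 : (1 : ℝ) ≤ ∑ j ∈ range (J + 1), ind (A.vc s x = (c, flr s β - ((j * 2 ^ s : ℕ) : V k))) := by
    have h12 : ind (A.vc s x = (c, flr s β - ((j * 2 ^ s : ℕ) : V k))) ≤
        ∑ j ∈ range (J + 1), ind (A.vc s x = (c, flr s β - ((j * 2 ^ s : ℕ) : V k))) :=
      Finset.single_le_sum (f := fun j => ind (A.vc s x = (c, flr s β - ((j * 2 ^ s : ℕ) : V k))))
      (fun j _ => ind_nonneg _) hj
    rw [ind_of h10] at h12
    exact h12
  calc rr h e (A.sh x + yv) g1 ≤ M := rr_le h e he _ _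
    _ = M * 1 := (mul_one _).symm
    _ ≤ _ := mul_le_mul_of_nonneg_left h11 hM0

theorem fresh_num (h e : ℕ) :
    (((2 ^ (e - h) - 1) + (2 ^ sc h e - 1) + (2 ^ e - 1) + (2 ^ sc h e - 1)) / 2 ^ sc h e + 1) * 2 ^ sc h e ≤
      3 * 2 ^ e := by
  have key : ∀ a b c d : ℕ, 0 < a → 0 < b → 0 < c → a ≤ c → 3 * b ≤ c + 4 →
      d * b ≤ (a - 1) + (b - 1) + (c - 1) + (b - 1) → (d + 1) * b ≤ 3 * c := by
    intro a b c d ha hb hc hac hbc hd
    rw [add_mul, one_mul]
    generalize d * b = z at *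
    omega
  refine key (2 ^ (e - h)) (2 ^ sc h e) (2 ^ e) _ (Nat.two_pow_pos _) (Nat.two_pow_pos _) (Nat.two_pow_pos _)
    (Nat.pow_le_pow_right (by norm_num) (Nat.sub_le _ _)) ?_ (Nat.div_mul_le_self _ _)
  by_cases h0 : h + 3 ≤ e
  · have h4 : 2 ^ e = 2 ^ sc h e * 2 ^ (h + 3) := by
      rw [← pow_add]
      congr 1
      unfold sc
      omega
    have h5 : 8 ≤ 2 ^ (h + 3) := by
      rw [pow_add]
      have : 1 ≤ 2 ^ h := Nat.one_le_two_pow
      omega
    rw [h4]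
    nlinarith [Nat.two_pow_pos (sc h e)]
  · have h4 : sc h e = 0 := by unfold sc; omega
    have h5 := Nat.two_pow_pos e
    rw [h4, pow_zero]
    omega

theorem sum_snd_eq (y : Q × V k) (F : P × V k → Fin (2 ^ N) → ℝ) :
    ∑ o : Om2 k N P Q, ind (o.2.1 = y) * F o.1 o.2.2 = ∑ x : P × V k, ∑ w : Fin (2 ^ N), F x w := by
  classical
  rw [sum_Om]
  refine Finset.sum_congr rfl fun x _ => ?_
  rw [Finset.sum_eq_single y]
  · refine Finset.sum_congr rfl fun w _ => ?_
    show ind (y = y) * F x w = _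
    rw [ind_of rfl, one_mul]
  · intro y' _ hy
    refine Finset.sum_eq_zero fun w _ => ?_
    show ind (y' = y) * F x w = 0
    rw [ind_not hy, zero_mul]
  · intro hh
    exact absurd (Finset.mem_univ _) hh

theorem fresh_X [Nonempty P] [Nonempty Q] (A : Par k P) (B : Par k Q) (hN : N ≤ k) (h t : ℕ)
    (y : Q × V k) (g : (V k × ℕ) × ℕ) (E : P × V k → Prop) (ε : ℝ) (hε : 0 ≤ ε)
    (hE : ∀ c, ∑ x ∈ TS.cel (cX A N h t) c, ind (E x) ≤ ε * ((TS.cel (cX A N h t) c).card : ℝ)) :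
    (FP.unif (Om2 k N P Q)).Pr (fun o => o.2.1 = y ∧ nY A B h t o = g ∧ E o.1) ≤
      3 * ε * (FP.unif (Om2 k N P Q)).Pr (fun o => o.2.1 = y ∧ nY A B h t o = g) := by
  classical
  set e := N - t with he
  have heN : e ≤ N := by omega
  have hek : e ≤ k := by omega
  set s := sc h e with hs
  have hsk : s ≤ k := by rw [hs]; unfold sc; omega
  rw [Pr_sum, Pr_sum, mul_div_assoc']
  refine div_le_div_of_nonneg_right ?_ (Nat.cast_nonneg _)
  set κ : ℝ := ∑ hi ∈ range (2 ^ (N - e)), ind (hi = g.1.2) with hκ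
  have hκ0 : 0 ≤ κ := Finset.sum_nonneg fun _ _ => ind_nonneg _
  -- both sums
  have hG : ∀ (x : P × V k) (w : Fin (2 ^ N)), ind ((G h e (A.sh x + B.sh y) (w : ℕ), A.cell s x.1) = g) =
      ind (A.cell s x.1 = g.2) * ind (G h e (A.sh x + B.sh y) (w : ℕ) = g.1) := by
    intro x w
    rw [← ind_and]
    congr 1
    rw [Prod.ext_iff]
    exact propext ⟨fun hh => ⟨hh.2, hh.1⟩, fun hh => ⟨hh.2, hh.1⟩⟩
  have hS1 : ∑ o : Om2 k N P Q, ind (o.2.1 = y ∧ nY A B h t o = g ∧ E o.1) =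
      κ * ∑ x : P × V k, ind (A.cell s x.1 = g.2) * ind (E x) * rr h e (A.sh x + B.sh y) g.1.1 := by
    have h1 : ∀ o : Om2 k N P Q, ind (o.2.1 = y ∧ nY A B h t o = g ∧ E o.1) =
        ind (o.2.1 = y) * (fun (x : P × V k) (w : Fin (2 ^ N)) =>
          ind ((G h e (A.sh x + B.sh y) (w : ℕ), A.cell s x.1) = g) * ind (E x)) o.1 o.2.2 := by
      intro o
      rw [ind_and, ind_and]
      by_cases hy : o.2.1 = y
      · unfold nY ctr
        rw [hy]
      · rw [ind_not hy, zero_mul, zero_mul]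
    rw [Finset.sum_congr rfl fun o _ => h1 o]
    refine (sum_snd_eq (P := P) (N := N) y (fun (x : P × V k) (w : Fin (2 ^ N)) =>
          ind ((G h e (A.sh x + B.sh y) (w : ℕ), A.cell s x.1) = g) * ind (E x))).trans ?_
    rw [Finset.mul_sum]
    refine Finset.sum_congr rfl fun x _ => ?_
    rw [← Finset.sum_mul, Finset.sum_congr rfl fun w _ => hG x w, ← Finset.mul_sum,
      sum_noise h e heN]
    ring
  have hS2 : ∑ o : Om2 k N P Q, ind (o.2.1 = y ∧ nY A B h t o = g) =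
      κ * ∑ x : P × V k, ind (A.cell s x.1 = g.2) * rr h e (A.sh x + B.sh y) g.1.1 := by
    have h1 : ∀ o : Om2 k N P Q, ind (o.2.1 = y ∧ nY A B h t o = g) =
        ind (o.2.1 = y) * (fun (x : P × V k) (w : Fin (2 ^ N)) =>
          ind ((G h e (A.sh x + B.sh y) (w : ℕ), A.cell s x.1) = g)) o.1 o.2.2 := by
      intro o
      rw [ind_and]
      by_cases hy : o.2.1 = y
      · unfold nY ctr
        rw [hy]
      · rw [ind_not hy, zero_mul, zero_mul]
    rw [Finset.sum_congr rfl fun o _ => h1 o]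
    refine (sum_snd_eq (P := P) (N := N) y (fun (x : P × V k) (w : Fin (2 ^ N)) =>
          ind ((G h e (A.sh x + B.sh y) (w : ℕ), A.cell s x.1) = g))).trans ?_
    rw [Finset.mul_sum]
    refine Finset.sum_congr rfl fun x _ => ?_
    rw [Finset.sum_congr rfl fun w _ => hG x w, ← Finset.mul_sum, sum_noise h e heN]
    ring
  rw [hS1, hS2]
  -- the cell is not empty
  by_cases hex : ∃ p0, A.cell s p0 = g.2
  swap
  · push Not at hex
    have h1 : ∑ x : P × V k, ind (A.cell s x.1 = g.2) * ind (E x) * rr h e (A.sh x + B.sh y) g.1.1 = 0 :=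
      Finset.sum_eq_zero fun x _ => by rw [ind_not (hex x.1), zero_mul, zero_mul]
    have h2 : ∑ x : P × V k, ind (A.cell s x.1 = g.2) * rr h e (A.sh x + B.sh y) g.1.1 = 0 :=
      Finset.sum_eq_zero fun x _ => by rw [ind_not (hex x.1), zero_mul]
    rw [h1, h2]
    simp
  obtain ⟨p0, hp0⟩ := hex
  have h1 := fresh_cover A h e hek g.1.1 (B.sh y) g.2 p0 hp0 E
  set M := ∑ v : V k, ind (flr (e - h) v = g.1.1) with hM
  have hM0 : 0 ≤ M := Finset.sum_nonneg fun _ _ => ind_nonneg _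
  set n : ℝ := ((univ.filter fun p' => A.cell s p' = g.2).card : ℝ) with hn
  have hn0 : 0 ≤ n := Nat.cast_nonneg _
  -- cells of the first vertex
  have h2 : ∀ v : V k, ((TS.cel (A.vc s) (g.2, v)).card : ℝ) ≤ n * 2 ^ s := by
    intro v
    by_cases hv : ∃ x, A.vc s x = (g.2, v)
    · obtain ⟨x, hx⟩ := hv
      have h3 := card_vc A hsk x
      rw [hx] at h3
      have h4 : A.cell s x.1 = g.2 := by
        have := congrArg Prod.fst hx
        exact this
      rw [h3, h4]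
      push_cast
      exact le_rfl
    · have h3 : TS.cel (A.vc s) (g.2, v) = ∅ := by
        rw [Finset.eq_empty_iff_forall_notMem]
        intro x hx
        exact hv ⟨x, TS.mem_cel.mp hx⟩
      rw [h3, Finset.card_empty, Nat.cast_zero]
      positivity
  have h3 : ∀ j, ∑ x ∈ TS.cel (A.vc s) (g.2, flr s (g.1.1 - flr s (A.tau p0) - B.sh y +
          ((2 ^ (e - h) - 1 : ℕ) : V k)) - ((j * 2 ^ s : ℕ) : V k)), ind (E x) ≤ ε * (n * 2 ^ s) := by
    intro j
    exact (hE _).trans (mul_le_mul_of_nonneg_left (h2 _) hε)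
  have h4 : ∑ j ∈ range (((2 ^ (e - h) - 1) + (2 ^ s - 1) + (2 ^ e - 1) + (2 ^ s - 1)) / 2 ^ s + 1),
        ∑ x ∈ TS.cel (A.vc s) (g.2, flr s (g.1.1 - flr s (A.tau p0) - B.sh y +
          ((2 ^ (e - h) - 1 : ℕ) : V k)) - ((j * 2 ^ s : ℕ) : V k)), ind (E x) ≤ ε * n * (3 * 2 ^ e) := by
    refine (Finset.sum_le_sum fun j _ => h3 j).trans ?_
    rw [Finset.sum_const, card_range, nsmul_eq_mul]
    have h5 := fresh_num h e
    have h6 : (((((2 ^ (e - h) - 1) + (2 ^ s - 1) + (2 ^ e - 1) + (2 ^ s - 1)) / 2 ^ s + 1 : ℕ) : ℝ)) * 2 ^ s ≤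
        3 * 2 ^ e := by
      exact_mod_cast h5
    calc _ = ε * n * ((((((2 ^ (e - h) - 1) + (2 ^ s - 1) + (2 ^ e - 1) + (2 ^ s - 1)) / 2 ^ s + 1 : ℕ) : ℝ)) *
          2 ^ s) := by ring
      _ ≤ ε * n * (3 * 2 ^ e) := mul_le_mul_of_nonneg_left h6 (mul_nonneg hε hn0)
  -- the right side
  have h7 : ∑ x : P × V k, ind (A.cell s x.1 = g.2) * rr h e (A.sh x + B.sh y) g.1.1 = n * (2 ^ e * M) := by
    rw [Fintype.sum_prod_type]
    have h8 : ∀ p : P, ∑ a : V k, ind (A.cell s (p, a).1 = g.2) * rr h e (A.sh (p, a) + B.sh y) g.1.1 =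
        ind (A.cell s p = g.2) * (2 ^ e * M) := by
      intro p
      show ∑ a : V k, ind (A.cell s p = g.2) * rr h e (A.sh (p, a) + B.sh y) g.1.1 = _
      rw [← Finset.mul_sum]
      congr 1
      unfold rr
      rw [Finset.sum_comm]
      have h9 : ∀ m : ℕ, ∑ a : V k, ind (flr (e - h) (A.sh (p, a) + B.sh y + (m : V k)) = g.1.1) = M := by
        intro m
        rw [hM, ← Equiv.sum_comp (Equiv.addRight (A.tau p + B.sh y + (m : V k)))
          (fun v => ind (flr (e - h) v = g.1.1))]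
        refine Finset.sum_congr rfl fun a _ => ?_
        have h10 : A.sh (p, a) + B.sh y + (m : V k) = a + (A.tau p + B.sh y + (m : V k)) := by
          unfold Par.sh
          simp only
          abel
        rw [h10]
        rfl
      rw [Finset.sum_congr rfl fun m _ => h9 m, Finset.sum_const, card_range, nsmul_eq_mul]
      push_cast
      ring
    rw [Finset.sum_congr rfl fun p _ => h8 p, ← Finset.sum_mul]
    congr 1
    rw [hn, Finset.card_filter]
    push_cast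
    refine Finset.sum_congr rfl fun p _ => ?_
    by_cases hp : A.cell s p = g.2
    · rw [ind_of hp, if_pos hp]
    · rw [ind_not hp, if_neg hp]
  rw [h7]
  calc κ * ∑ x : P × V k, ind (A.cell s x.1 = g.2) * ind (E x) * rr h e (A.sh x + B.sh y) g.1.1 ≤
      κ * (M * (ε * n * (3 * 2 ^ e))) := by
        refine mul_le_mul_of_nonneg_left (h1.trans ?_) hκ0
        exact mul_le_mul_of_nonneg_left h4 hM0
    _ = 3 * ε * (κ * (n * (2 ^ e * M))) := by ring

end Pool.Agent.M3.Bin
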