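import Pool.Agent.M3.Bin.Law

/-!
# M3/Bin/Opt (helper72): the view of the first vertex: options, counting, candidate sets (row 2M (2a))

The first vertex `x = (p, a)` is hidden, the second one `y = (q, b)` known up to its small cell.
`Z = pos e a w = a + w % 2^e`.  `s = sc h e = e - (h+3)` scale of the small cells.  The rounded node of
the pair is `flr (e-h) (Z + tau p + tau' q + b)`; it is one of the two options `opt i`, `i = 0, 1`, which
depend only on the small cells of `Z`, `p`, `y`.

PROOFS. `opt_mem`: `pos = base + r`, `0 ≤ r ≤ 4 (2^s - 1)`; if `s = 0` then `r = 0`; if `s > 0` then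
`2^(e-h) = 8 * 2^s > r`: with `base = g0 + r0`, `g0 = flr (e-h) base`: if `r0 + r < 8 2^s` it is `opt 0`,
otherwise both `base + r` and `base + 4 (2^s-1)` lie in the cell `g0 + 2^(e-h)`.
`sum_opt`: `flr j (flr s b + c) = flr j (b + flr s c)` for `s ≤ j`, then translation of `b`.
`cand_card`: `D = flr s Z - flr s a0` is a multiple of `2^s`, `≤ 2^e`: at most `2^e + 2^s` values of `Z`.
-/

set_option autoImplicit false

namespace Pool.Agent.M3.Bin

open Finset Pool.Agent.PWZ

variable {k N : ℕ} {P Q : Type} [Fintype P] [Fintype Q]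

/-- scale of the small cells -/
def sc (h e : ℕ) : ℕ := e - (h + 3)

noncomputable section

/-- sum of the left ends of the four small cells -/
def base (A : Par k P) (B : Par k Q) (h e : ℕ) (Z : V k) (p : P) (y : Q × V k) : V k :=
  flr (sc h e) Z + flr (sc h e) (A.tau p) + flr (sc h e) (B.tau y.1) + flr (sc h e) y.2

/-- the two options for the rounded position -/
def opt (A : Par k P) (B : Par k Q) (h e i : ℕ) (Z : V k) (p : P) (y : Q × V k) : V k :=
  flr (e - h) (base A B h e Z p y + ((i * (4 * (2 ^ sc h e - 1)) : ℕ) : V k))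

/-- the candidates: vertices `x` (with position `Z` of the `V`-part) which may lie in the small cell
of `x0`, in terms of the small cells of `Z` and of the parameter only -/
def cand (A : Par k P) (h e : ℕ) (x0 : P × V k) (Z : V k) (p : P) : Prop :=
  A.cell (sc h e) p = A.cell (sc h e) x0.1 ∧ (flr (sc h e) Z - flr (sc h e) x0.2).val ≤ 2 ^ e

end

/-! ### cells, again -/

/-- a floor is a multiple of `2^j` -/
theorem flr_mul (j : ℕ) (v : V k) : ∃ c : ℕ, flr j v = ((c * 2 ^ j : ℕ) : V k) :=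
  ⟨v.val / 2 ^ j, by rw [flr_eq_cast, sub_mod_eq, mul_comm]⟩

theorem flr_flr_add (j : ℕ) (b c : V k) : flr j (flr j b + c) = flr j b + flr j c := by
  obtain ⟨m, hm⟩ := flr_mul j b
  rw [hm, add_comm, flr_add_mul le_rfl, add_comm]

theorem flr_swap {j j' : ℕ} (hj : j ≤ j') (b c : V k) :
    flr j' (flr j b + c) = flr j' (b + flr j c) := by
  apply flr_mono_eq hj
  rw [flr_flr_add, add_comm b, flr_flr_add, add_comm]

/-- floor of a sum with a natural number -/
theorem flr_add_nat {j : ℕ} (hj : j ≤ k) (v : V k) (n : ℕ) :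
    flr j (v + (n : V k)) = flr j v + (((v.val % 2 ^ j + n) / 2 ^ j * 2 ^ j : ℕ) : V k) := by
  have h1 : v + (n : V k) = (flr j v + (((v.val % 2 ^ j + n) / 2 ^ j * 2 ^ j : ℕ) : V k)) +
      (((v.val % 2 ^ j + n) % 2 ^ j : ℕ) : V k) := by
    have h2 := Nat.div_add_mod (v.val % 2 ^ j + n) (2 ^ j)
    rw [add_assoc, ← Nat.cast_add, mul_comm ((v.val % 2 ^ j + n) / 2 ^ j), h2]
    unfold flr
    push_cast
    ring
  rw [h1, flr_aligned_add hj _ _ _ (Nat.mod_lt _ (Nat.two_pow_pos j))]
  rw [flr_add_mul le_rfl, flr_flr le_rfl]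

/-- the options depend only on the small cells -/
theorem opt_congr (A : Par k P) (B : Par k Q) (h e i : ℕ) {Z Z' : V k} {p p' : P}
    {y y' : Q × V k} (hZ : flr (sc h e) Z = flr (sc h e) Z')
    (hp : A.cell (sc h e) p = A.cell (sc h e) p') (hy : B.vc (sc h e) y = B.vc (sc h e) y') :
    opt A B h e i Z p y = opt A B h e i Z' p' y' := by
  have h1 := A.comp _ _ _ hp
  have h2 : B.cell (sc h e) y.1 = B.cell (sc h e) y'.1 := congrArg Prod.fst hy
  have h3 : flr (sc h e) y.2 = flr (sc h e) y'.2 := congrArg Prod.snd hy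
  have h4 := B.comp _ _ _ h2
  unfold opt base
  rw [hZ, h1, h3, h4]

theorem cand_congr (A : Par k P) (h e : ℕ) (x0 : P × V k) {Z Z' : V k} {p p' : P}
    (hZ : flr (sc h e) Z = flr (sc h e) Z') (hp : A.cell (sc h e) p = A.cell (sc h e) p') :
    cand A h e x0 Z p ↔ cand A h e x0 Z' p' := by
  unfold cand
  rw [hZ, hp]

/-- two remainders of a translation fall in at most two cells -/
private theorem two_opts {j : ℕ} (hj : j ≤ k) (b : V k) (r R : ℕ) (hr : r ≤ R) (hR : R < 2 ^ j) :
    flr j (b + (r : V k)) = flr j b ∨ flr j (b + (r : V k)) = flr j (b + (R : V k)) := by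
  rw [flr_add_nat hj, flr_add_nat hj]
  have hpos := Nat.two_pow_pos j
  have h0 := Nat.mod_lt b.val hpos
  by_cases h1 : b.val % 2 ^ j + r < 2 ^ j
  · left
    rw [Nat.div_eq_of_lt h1]
    simp
  · right
    have h2 : (b.val % 2 ^ j + r) / 2 ^ j = 1 := by
      rw [Nat.div_eq_iff hpos]
      omega
    have h3 : (b.val % 2 ^ j + R) / 2 ^ j = 1 := by
      rw [Nat.div_eq_iff hpos]
      omega
    rw [h2, h3]

/-- the true rounded position is one of the two options -/
theorem opt_mem (A : Par k P) (B : Par k Q) (h e : ℕ) (he : e ≤ k) (x : P × V k) (y : Q × V k)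
    (w : ℕ) :
    ∃ i < 2, flr (e - h) (pos e (A.sh x + B.sh y) w) = opt A B h e i (pos e x.2 w) x.1 y := by
  obtain ⟨r1, hr1, e1⟩ := flr_add_rem (sc h e) (pos e x.2 w)
  obtain ⟨r2, hr2, e2⟩ := flr_add_rem (sc h e) (A.tau x.1)
  obtain ⟨r3, hr3, e3⟩ := flr_add_rem (sc h e) (B.tau y.1)
  obtain ⟨r4, hr4, e4⟩ := flr_add_rem (sc h e) y.2
  have hpos : pos e (A.sh x + B.sh y) w =
      base A B h e (pos e x.2 w) x.1 y + ((r1 + r2 + r3 + r4 : ℕ) : V k) := by
    have : pos e (A.sh x + B.sh y) w = pos e x.2 w + A.tau x.1 + B.tau y.1 + y.2 := by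
      unfold pos Par.sh
      ring
    rw [this]
    conv_lhs => rw [e1, e2, e3, e4]
    unfold base
    push_cast
    ring
  rw [hpos]
  have hR : 4 * (2 ^ sc h e - 1) < 2 ^ (e - h) := by
    by_cases hs : sc h e = 0
    · rw [hs]
      simp
    · have h1 : e - h = sc h e + 3 := by unfold sc at hs ⊢; omega
      rw [h1, pow_add]
      have := Nat.two_pow_pos (sc h e)
      omega
  have hr : r1 + r2 + r3 + r4 ≤ 4 * (2 ^ sc h e - 1) := by omega
  rcases two_opts (le_trans (Nat.sub_le e h) he) (base A B h e (pos e x.2 w) x.1 y) _ _ hr hR with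
    h1 | h1
  · refine ⟨0, by norm_num, ?_⟩
    rw [h1]
    unfold opt
    simp
  · refine ⟨1, by norm_num, ?_⟩
    rw [h1]
    unfold opt
    rw [one_mul]

/-- EXACT COUNTING: for uniform `b` every option has the law of the true rounded position -/
theorem sum_opt (A : Par k P) (B : Par k Q) (h e i : ℕ) (Z : V k) (p : P) (q : Q)
    (c : V k) (φ : V k → ℝ) :
    ∑ b : V k, φ (opt A B h e i Z p (q, b)) = ∑ b : V k, φ (flr (e - h) (b + c)) := by
  have hs : sc h e ≤ e - h := by unfold sc; omega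
  set c0 : V k := flr (sc h e) Z + flr (sc h e) (A.tau p) + flr (sc h e) (B.tau q) +
    ((i * (4 * (2 ^ sc h e - 1)) : ℕ) : V k) with hc0
  have h1 : ∀ b : V k, opt A B h e i Z p (q, b) = flr (e - h) (b + flr (sc h e) c0) := by
    intro b
    rw [← flr_swap hs]
    unfold opt base
    congr 1
    rw [hc0]
    ring
  simp only [h1]
  have h2 := Equiv.sum_comp (Equiv.addRight (flr (sc h e) c0)) (fun z : V k => φ (flr (e - h) z))
  have h3 := Equiv.sum_comp (Equiv.addRight c) (fun z : V k => φ (flr (e - h) z))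
  simp only [Equiv.coe_addRight] at h2 h3
  rw [h2, h3]

/-- expectation form: option `i` against the free law of the first vertex -/
theorem EB_opt (A : Par k P) (B : Par k Q) [Nonempty Q] (h e i : ℕ)
    (φ : P × V k → V k → ℕ → ℝ) :
    EB N P Q (fun x y w => φ x (opt A B h e i (pos e x.2 w) x.1 y) w) =
      E1 N P (fun x z w => φ x (flr (e - h) (pos e z w)) w) := by
  unfold EB E1
  have hQ : (Fintype.card Q : ℝ) ≠ 0 := by
    have : 0 < Fintype.card Q := Fintype.card_pos
    positivity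
  have h1 : ∀ x : P × V k, ∑ y : Q × V k, ∑ w ∈ range (2 ^ N),
      φ x (opt A B h e i (pos e x.2 w) x.1 y) w =
      (Fintype.card Q : ℝ) * ∑ z : V k, ∑ w ∈ range (2 ^ N), φ x (flr (e - h) (pos e z w)) w := by
    intro x
    rw [Fintype.sum_prod_type]
    have h2 : ∀ q : Q, ∑ b : V k, ∑ w ∈ range (2 ^ N),
        φ x (opt A B h e i (pos e x.2 w) x.1 (q, b)) w =
        ∑ z : V k, ∑ w ∈ range (2 ^ N), φ x (flr (e - h) (pos e z w)) w := by
      intro q
      rw [Finset.sum_comm, Finset.sum_comm (s := (univ : Finset (V k)))]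
      refine Finset.sum_congr rfl fun w _ => ?_
      rw [sum_opt A B h e i (pos e x.2 w) x.1 q ((w % 2 ^ e : ℕ) : V k) (fun g => φ x g w)]
      rfl
    rw [Finset.sum_congr rfl fun q _ => h2 q, Finset.sum_const, Finset.card_univ, nsmul_eq_mul]
  rw [Finset.sum_congr rfl fun x _ => h1 x, ← Finset.mul_sum, ← mul_assoc]
  congr 1
  rw [Fintype.card_prod Q (V k), card_V]
  push_cast
  by_cases hX : (Fintype.card (P × V k) : ℝ) = 0
  · rw [hX]; simp
  · field_simp

/-- a member of a set inside the small cell of `x0` is a candidate -/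
theorem cand_of_mem (A : Par k P) (h e : ℕ) (he : e ≤ k) (x0 x : P × V k) (w : ℕ)
    (hx : x ∈ A.VC (sc h e) x0) : cand A h e x0 (pos e x.2 w) x.1 := by
  have hv : A.vc (sc h e) x = A.vc (sc h e) x0 := (Finset.mem_filter.1 hx).2
  refine ⟨congrArg Prod.fst hv, ?_⟩
  have hf : flr (sc h e) x.2 = flr (sc h e) x0.2 := congrArg Prod.snd hv
  have hse : sc h e ≤ e := by unfold sc; omega
  rw [← hf]
  unfold pos
  rw [flr_add_nat (hse.trans he), add_sub_cancel_left, ZMod.val_natCast]
  refine (Nat.mod_le _ _).trans ?_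
  have hpos := Nat.two_pow_pos (sc h e)
  have h0 := Nat.mod_lt x.2.val hpos
  have h1 := Nat.mod_lt w (Nat.two_pow_pos e)
  obtain ⟨d, hd⟩ := Nat.exists_eq_add_of_le hse
  have h2 : (2 : ℕ) ^ e = 2 ^ d * 2 ^ sc h e := by rw [← pow_add]; congr 1; omega
  have h3 : (x.2.val % 2 ^ sc h e + w % 2 ^ e) / 2 ^ sc h e < 2 ^ d + 1 := by
    rw [Nat.div_lt_iff_lt_mul hpos, add_mul, one_mul, ← h2]
    omega
  calc (x.2.val % 2 ^ sc h e + w % 2 ^ e) / 2 ^ sc h e * 2 ^ sc h e
      ≤ 2 ^ d * 2 ^ sc h e := Nat.mul_le_mul_right _ (Nat.lt_succ_iff.1 h3)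
    _ = 2 ^ e := h2.symm

/-- number of positions compatible with a small cell -/
private theorem card_compat (j e : ℕ) (a0 : V k) :
    (univ.filter fun Z : V k => (flr j Z - flr j a0).val ≤ 2 ^ e).card ≤ 2 ^ e + 2 ^ j := by
  have h1 : (univ.filter fun Z : V k => (flr j Z - flr j a0).val ≤ 2 ^ e).card ≤
      (range (2 ^ e + 2 ^ j)).card := by
    refine Finset.card_le_card_of_injOn (fun Z => (Z - flr j a0).val) ?_ ?_
    · intro Z hZ
      have hZ' : (flr j Z - flr j a0).val ≤ 2 ^ e := (Finset.mem_filter.1 (Finset.mem_coe.1 hZ)).2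
      obtain ⟨r, hr, e1⟩ := flr_add_rem j Z
      simp only [Finset.coe_range, Set.mem_Iio]
      have e2 : Z - flr j a0 = (flr j Z - flr j a0) + (r : V k) := by
        conv_lhs => rw [e1]
        ring
      rw [e2]
      calc ((flr j Z - flr j a0) + (r : V k)).val
          ≤ (flr j Z - flr j a0).val + (r : V k).val := ZMod.val_add_le _ _
        _ ≤ 2 ^ e + r := by
            refine Nat.add_le_add hZ' ?_
            rw [ZMod.val_natCast]
            exact Nat.mod_le _ _
        _ < 2 ^ e + 2 ^ j := by omega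
    · intro Z _ Z' _ hZZ
      have := ZMod.val_injective _ hZZ
      exact sub_left_injective this
  rwa [card_range] at h1

/-- size of a small cell -/
private theorem card_VC (A : Par k P) {j : ℕ} (hj : j ≤ k) (x0 : P × V k) :
    (A.VC j x0).card = (univ.filter fun p : P => A.cell j p = A.cell j x0.1).card * 2 ^ j := by
  have h1 : A.VC j x0 = (univ.filter fun p : P => A.cell j p = A.cell j x0.1) ×ˢ
      (univ.filter fun v : V k => flr j v = flr j x0.2) := by
    ext x
    unfold Par.VC Par.vc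
    simp only [Finset.mem_filter, Finset.mem_univ, true_and, Finset.mem_product, Prod.mk.injEq]
  rw [h1, Finset.card_product, card_cell hj]

private theorem ind_and (p q : Prop) : ind (p ∧ q) = ind p * ind q := by
  classical
  unfold ind
  by_cases hp : p <;> by_cases hq : q <;> simp [hp, hq]

private theorem sum_ind {ι : Type*} [Fintype ι] (p : ι → Prop) [DecidablePred p] :
    ∑ i, ind (p i) = ((univ.filter p).card : ℝ) := by
  rw [← Finset.sum_boole]
  refine Finset.sum_congr rfl fun i _ => ?_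
  by_cases hp : p i
  · rw [ind_of hp, if_pos hp]
  · rw [if_neg hp]
    unfold ind
    exact @if_neg (p i) (Classical.propDecidable _) hp ℝ 1 0

/-- COUNTING THE CANDIDATES: for `X` in the small cell of `x0`, of density `≥ dl` -/
theorem cand_count (A : Par k P) (B : Par k Q) (h e i : ℕ) (he : e ≤ N) (hN : N ≤ k) (g : V k)
    (c : ℕ) (x0 : P × V k) (X : Finset (P × V k)) (dl : ℝ) (hdl : 0 < dl)
    (hX : X ⊆ A.VC (sc h e) x0) (hXd : dl * ((A.VC (sc h e) x0).card : ℝ) ≤ (X.card : ℝ)) :
    EB N P Q (fun x y w => ind (opt A B h e i (pos e x.2 w) x.1 y = g ∧ w / 2 ^ e = c ∧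
        cand A h e x0 (pos e x.2 w) x.1)) ≤
      2 ^ (h + 4) / dl * EB N P Q (fun x y w => ind (opt A B h e i (pos e x.2 w) x.1 y = g ∧
        w / 2 ^ e = c ∧ x ∈ X)) := by
  classical
  rcases isEmpty_or_nonempty Q with hQ | hQ
  · have h0 : (Fintype.card (Q × V k) : ℝ) = 0 := by
      rw [Fintype.card_prod, Fintype.card_eq_zero]
      simp
    unfold EB
    rw [h0]
    simp
  rw [EB_opt A B h e i (fun x gg w => ind (gg = g ∧ w / 2 ^ e = c ∧
    cand A h e x0 (pos e x.2 w) x.1)), EB_opt A B h e i (fun x gg w => ind (gg = g ∧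
    w / 2 ^ e = c ∧ x ∈ X))]
  unfold E1
  set n : ℝ := ∑ z : V k, ind (flr (e - h) z = g) with hn
  have hn0 : 0 ≤ n := Finset.sum_nonneg fun z _ => ind_nonneg _
  have hz : ∀ w : ℕ, ∑ z : V k, ind (flr (e - h) (pos e z w) = g) = n := fun w =>
    sum_pos e w (fun z => ind (flr (e - h) z = g))
  -- the two sums
  have hL : ∑ x : P × V k, ∑ z : V k, ∑ w ∈ range (2 ^ N), ind (flr (e - h) (pos e z w) = g ∧
      w / 2 ^ e = c ∧ cand A h e x0 (pos e x.2 w) x.1) =
      ∑ w ∈ range (2 ^ N), ind (w / 2 ^ e = c) * (n *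
        ∑ x : P × V k, ind (cand A h e x0 (pos e x.2 w) x.1)) := by
    have h1 : ∀ x : P × V k, ∑ z : V k, ∑ w ∈ range (2 ^ N), ind (flr (e - h) (pos e z w) = g ∧
        w / 2 ^ e = c ∧ cand A h e x0 (pos e x.2 w) x.1) =
        ∑ w ∈ range (2 ^ N), ind (w / 2 ^ e = c) * (n * ind (cand A h e x0 (pos e x.2 w) x.1)) := by
      intro x
      rw [Finset.sum_comm]
      refine Finset.sum_congr rfl fun w _ => ?_
      simp only [ind_and]
      rw [← Finset.sum_mul, hz w]
      ring
    rw [Finset.sum_congr rfl fun x _ => h1 x, Finset.sum_comm]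
    refine Finset.sum_congr rfl fun w _ => ?_
    rw [Finset.mul_sum, Finset.mul_sum]
  have hR : ∑ x : P × V k, ∑ z : V k, ∑ w ∈ range (2 ^ N), ind (flr (e - h) (pos e z w) = g ∧
      w / 2 ^ e = c ∧ x ∈ X) =
      ∑ w ∈ range (2 ^ N), ind (w / 2 ^ e = c) * (n * (X.card : ℝ)) := by
    have h1 : ∀ x : P × V k, ∑ z : V k, ∑ w ∈ range (2 ^ N), ind (flr (e - h) (pos e z w) = g ∧
        w / 2 ^ e = c ∧ x ∈ X) =
        ∑ w ∈ range (2 ^ N), ind (w / 2 ^ e = c) * (n * ind (x ∈ X)) := by
      intro x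
      rw [Finset.sum_comm]
      refine Finset.sum_congr rfl fun w _ => ?_
      simp only [ind_and]
      rw [← Finset.sum_mul, hz w]
      ring
    rw [Finset.sum_congr rfl fun x _ => h1 x, Finset.sum_comm]
    refine Finset.sum_congr rfl fun w _ => ?_
    rw [← Finset.mul_sum, ← Finset.mul_sum, sum_ind (fun x => x ∈ X), Finset.filter_mem_eq_inter,
      Finset.univ_inter]
  rw [hL, hR]
  -- counting the candidates for a given noise
  have hse : sc h e ≤ e := by unfold sc; omega
  have hcnt : ∀ w : ℕ, ∑ x : P × V k, ind (cand A h e x0 (pos e x.2 w) x.1) ≤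
      2 ^ (h + 4) / dl * (X.card : ℝ) := by
    intro w
    set m : ℕ := (univ.filter fun p : P => A.cell (sc h e) p = A.cell (sc h e) x0.1).card with hm
    have h1 : ∑ x : P × V k, ind (cand A h e x0 (pos e x.2 w) x.1) =
        (m : ℝ) * ((univ.filter fun Z : V k =>
          (flr (sc h e) Z - flr (sc h e) x0.2).val ≤ 2 ^ e).card : ℝ) := by
      rw [Fintype.sum_prod_type]
      unfold cand
      simp only [ind_and]
      have h2 : ∀ p : P, ∑ a : V k, ind (A.cell (sc h e) p = A.cell (sc h e) x0.1) *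
          ind ((flr (sc h e) (pos e a w) - flr (sc h e) x0.2).val ≤ 2 ^ e) =
          ind (A.cell (sc h e) p = A.cell (sc h e) x0.1) * ((univ.filter fun Z : V k =>
          (flr (sc h e) Z - flr (sc h e) x0.2).val ≤ 2 ^ e).card : ℝ) := by
        intro p
        rw [← Finset.mul_sum]
        congr 1
        have h3 := sum_pos e w
          (fun Z : V k => ind ((flr (sc h e) Z - flr (sc h e) x0.2).val ≤ 2 ^ e))
        exact h3.trans (sum_ind _)
      rw [Finset.sum_congr rfl fun p _ => h2 p, ← Finset.sum_mul, hm]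
      congr 1
      exact sum_ind _
    rw [h1]
    have h3 : ((univ.filter fun Z : V k =>
          (flr (sc h e) Z - flr (sc h e) x0.2).val ≤ 2 ^ e).card : ℝ) ≤ 2 ^ e + 2 ^ sc h e := by
      exact_mod_cast card_compat (sc h e) e x0.2
    have h4 : (2 : ℝ) ^ e + 2 ^ sc h e ≤ 2 ^ (h + 4) * 2 ^ sc h e := by
      have h5 : (2 : ℕ) ^ e + 2 ^ sc h e ≤ 2 ^ (h + 4) * 2 ^ sc h e := by
        rw [← pow_add]
        by_cases hc : e ≤ h + 3
        · have h6 : sc h e = 0 := by unfold sc; omega
          rw [h6]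
          have h7 : (2 : ℕ) ^ e ≤ 2 ^ (h + 3) := Nat.pow_le_pow_right (by norm_num) hc
          have h8 : (2 : ℕ) ^ (h + 4 + 0) = 2 ^ (h + 3) + 2 ^ (h + 3) := by ring
          have h9 := Nat.one_le_two_pow (n := h + 3)
          omega
        · have h6 : h + 4 + sc h e = e + 1 := by unfold sc; omega
          rw [h6]
          have h7 : (2 : ℕ) ^ sc h e ≤ 2 ^ e := Nat.pow_le_pow_right (by norm_num) hse
          have h8 : (2 : ℕ) ^ (e + 1) = 2 ^ e + 2 ^ e := by ring
          omega
      exact_mod_cast h5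
    have h5 : ((A.VC (sc h e) x0).card : ℝ) = (m : ℝ) * 2 ^ sc h e := by
      rw [card_VC A ((hse.trans he).trans hN) x0]
      push_cast
      rfl
    calc (m : ℝ) * ((univ.filter fun Z : V k =>
          (flr (sc h e) Z - flr (sc h e) x0.2).val ≤ 2 ^ e).card : ℝ)
        ≤ (m : ℝ) * (2 ^ (h + 4) * 2 ^ sc h e) :=
          mul_le_mul_of_nonneg_left (h3.trans h4) (Nat.cast_nonneg _)
      _ = 2 ^ (h + 4) / dl * (dl * ((A.VC (sc h e) x0).card : ℝ)) := by
          rw [h5]
          field_simp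
      _ ≤ 2 ^ (h + 4) / dl * (X.card : ℝ) := mul_le_mul_of_nonneg_left hXd (by positivity)
  rw [mul_left_comm]
  refine mul_le_mul_of_nonneg_left ?_ (by positivity)
  rw [Finset.mul_sum]
  refine Finset.sum_le_sum fun w _ => ?_
  have h6 := mul_le_mul_of_nonneg_left (mul_le_mul_of_nonneg_left (hcnt w) hn0)
    (ind_nonneg (w / 2 ^ e = c))
  linarith

end Pool.Agent.M3.Bin
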