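import Pool.Agent.M3.Bin.View
import Pool.Agent.M3.Bin.Opt
import Pool.Agent.M3.TSDefs

/-!
# M3/Bin/Rho (helper11): windows as weights, rounded windows, for the instance of `TS.Side`, `TS.View`

`Wd e y v` = weight of the window `y - [0,2^e)`; `rho h e g v` = its mean over the positions in the cell `g`
of scale `e - h`.
-/

set_option autoImplicit false
set_option linter.unusedSectionVars false

namespace Pool.Agent.M3.Bin

open Finset Pool.Agent.PWZ Pool.Agent.M3

variable {k N : ℕ} {P Q : Type} [Fintype P] [Fintype Q]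

noncomputable section

/-- the weight of a window -/
def Wd (e : ℕ) (y : V k) (v : V k) : ℝ := ((2 : ℝ) ^ e)⁻¹ * ∑ n ∈ range (2 ^ e), ind (y - (n : V k) = v)

/-- the rounded window -/
def rho (h e : ℕ) (g : V k) (v : V k) : ℝ :=
  ((2 : ℝ) ^ (e - h))⁻¹ * ∑ y : V k, ind (flr (e - h) y = g) * Wd e y v

end

theorem Wd_nn (e : ℕ) (y v : V k) : 0 ≤ Wd e y v :=
  mul_nonneg (by positivity) (Finset.sum_nonneg fun _ _ => ind_nonneg _)

theorem sum_ind_eq {α : Type*} [Fintype α] (a : α) (f : α → ℝ) : ∑ v : α, ind (a = v) * f v = f a := by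
  classical
  rw [Finset.sum_eq_single a]
  · rw [ind_of rfl, one_mul]
  · intro b _ hb; rw [ind_not (fun h => hb h.symm), zero_mul]
  · intro h; exact absurd (Finset.mem_univ _) h

theorem Wd_sum (e : ℕ) (y : V k) : ∑ v : V k, Wd e y v = 1 := by
  unfold Wd
  rw [← Finset.mul_sum, Finset.sum_comm]
  have h1 : ∀ n : ℕ, ∑ v : V k, ind (y - (n : V k) = v) = 1 := by
    intro n
    have := sum_ind_eq (y - (n : V k)) (fun _ => (1 : ℝ))
    simpa using this
  rw [Finset.sum_congr rfl fun n _ => h1 n, Finset.sum_const, card_range, nsmul_eq_mul, mul_one]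
  push_cast
  field_simp

theorem iw_Wd (e : ℕ) (y : V k) (f g : V k → ℝ) : TS.iw (Wd e y) f g = ip e y f g := by
  unfold TS.iw Wd ip
  have h1 : ∀ c : V k, ((2 : ℝ) ^ e)⁻¹ * (∑ n ∈ range (2 ^ e), ind (y - (n : V k) = c)) * f c * g c =
      ((2 : ℝ) ^ e)⁻¹ * ∑ n ∈ range (2 ^ e), ind (y - (n : V k) = c) * (f c * g c) := by
    intro c
    rw [← Finset.sum_mul]
    ring
  rw [Finset.sum_congr rfl fun c _ => h1 c, ← Finset.mul_sum, Finset.sum_comm]
  congr 1
  refine Finset.sum_congr rfl fun n _ => ?_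
  exact sum_ind_eq (y - (n : V k)) (fun c => f c * g c)

theorem card_cell' {j : ℕ} (hj : j ≤ k) (g : V k) (hg : flr j g = g) :
    ∑ y : V k, ind (flr j y = g) = 2 ^ j := by
  classical
  have h1 := card_cell hj g
  rw [hg] at h1
  have h2 : ∑ y : V k, ind (flr j y = g) = ((univ.filter fun y : V k => flr j y = g).card : ℝ) := by
    rw [Finset.card_filter]
    push_cast
    refine Finset.sum_congr rfl fun y _ => ?_
    by_cases h : flr j y = g
    · rw [ind_of h, if_pos h]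
    · rw [ind_not h, if_neg h]
  rw [h2, h1]
  push_cast
  rfl

theorem cell_le {j : ℕ} (hj : j ≤ k) (g : V k) : ∑ y : V k, ind (flr j y = g) ≤ 2 ^ j := by
  by_cases hg : flr j g = g
  · rw [card_cell' hj g hg]
  · have : ∀ y : V k, ind (flr j y = g) = 0 := by
      intro y
      apply ind_not
      intro h
      apply hg
      rw [← h, flr_flr le_rfl]
    rw [Finset.sum_congr rfl fun y _ => this y, Finset.sum_const_zero]
    positivity

theorem rho_nn (h e : ℕ) (g v : V k) : 0 ≤ rho h e g v :=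
  mul_nonneg (by positivity) (Finset.sum_nonneg fun _ _ => mul_nonneg (ind_nonneg _) (Wd_nn _ _ _))

theorem rho_sum (h e : ℕ) (he : e ≤ k) (g : V k) : ∑ v : V k, rho h e g v ≤ 1 := by
  unfold rho
  rw [← Finset.mul_sum, Finset.sum_comm]
  have h1 : ∀ y : V k, ∑ v : V k, ind (flr (e - h) y = g) * Wd e y v = ind (flr (e - h) y = g) := by
    intro y
    rw [← Finset.mul_sum, Wd_sum, mul_one]
  rw [Finset.sum_congr rfl fun y _ => h1 y]
  have h2 := cell_le (j := e - h) (by omega) g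
  calc ((2 : ℝ) ^ (e - h))⁻¹ * ∑ y : V k, ind (flr (e - h) y = g) ≤
      ((2 : ℝ) ^ (e - h))⁻¹ * 2 ^ (e - h) := mul_le_mul_of_nonneg_left h2 (by positivity)
    _ = 1 := by field_simp

theorem Wt_Wd (e : ℕ) (y : V k) : TS.Wt (Wd e y) := ⟨Wd_nn e y, (Wd_sum e y).le⟩

theorem Wt_rho (h e : ℕ) (he : e ≤ k) (g : V k) : TS.Wt (rho h e g) := ⟨rho_nn h e g, rho_sum h e he g⟩

/-- two positions in the same cell of scale `e - h` -/
theorem ip_near (h e : ℕ) (y y' : V k) (hy : flr (e - h) y = flr (e - h) y') (f g : V k → ℝ) (B : ℝ)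
    (hB : ∀ d, |f d * g d| ≤ B) : |ip e y f g - ip e y' f g| ≤ 2 * B * ((2 : ℝ) ^ h)⁻¹ := by
  have hB0 : 0 ≤ B := (abs_nonneg _).trans (hB 0)
  -- the ordered case
  have key : ∀ (y y' : V k) (r : ℕ), y' = y + (r : V k) → r < 2 ^ (e - h) →
      |ip e y f g - ip e y' f g| ≤ 2 * B * ((2 : ℝ) ^ h)⁻¹ := by
    intro y y' r hy hr
    have h1 := ip_shift e y f g B hB r
    rw [← hy, abs_sub_comm] at h1
    refine h1.trans ?_
    by_cases hhe : h ≤ e
    · have h2 : (r : ℝ) ≤ 2 ^ (e - h) := by exact_mod_cast hr.le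
      have h3 : (2 : ℝ) ^ e = 2 ^ (e - h) * 2 ^ h := by rw [← pow_add]; congr 1; omega
      rw [div_le_iff₀ (by positivity), h3]
      calc 2 * (r : ℝ) * B ≤ 2 * 2 ^ (e - h) * B := by gcongr
        _ = 2 * B * ((2 : ℝ) ^ h)⁻¹ * (2 ^ (e - h) * 2 ^ h) := by field_simp
    · rw [show e - h = 0 by omega, pow_zero] at hr
      have : r = 0 := by omega
      subst this
      simp only [Nat.cast_zero, mul_zero, zero_mul, zero_div]
      positivity
  obtain ⟨r, hr, h1⟩ := flr_add_rem (e - h) y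
  obtain ⟨r', hr', h2⟩ := flr_add_rem (e - h) y'
  rw [hy] at h1
  rcases le_total r r' with hle | hle
  · refine key y y' (r' - r) ?_ (by omega)
    rw [h1, h2, Nat.cast_sub hle]
    have : flr (e - h) (flr (e - h) y' + (r' : V k)) = flr (e - h) y' := by rw [← h2]
    rw [this]
    ring
  · rw [abs_sub_comm]
    refine key y' y (r - r') ?_ (by omega)
    rw [h1, h2, Nat.cast_sub hle]
    have : flr (e - h) (flr (e - h) y' + (r' : V k)) = flr (e - h) y' := by rw [← h2]
    rw [this]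
    ring

theorem iw_rho (h e : ℕ) (g : V k) (f f' : V k → ℝ) :
    TS.iw (rho h e g) f f' = ((2 : ℝ) ^ (e - h))⁻¹ * ∑ y : V k, ind (flr (e - h) y = g) * ip e y f f' := by
  unfold TS.iw rho
  have h1 : ∀ c : V k, ((2 : ℝ) ^ (e - h))⁻¹ * (∑ y : V k, ind (flr (e - h) y = g) * Wd e y c) * f c * f' c =
      ((2 : ℝ) ^ (e - h))⁻¹ * ∑ y : V k, ind (flr (e - h) y = g) * (Wd e y c * f c * f' c) := by
    intro c
    rw [mul_assoc, mul_assoc, Finset.sum_mul]
    congr 1
    exact Finset.sum_congr rfl fun y _ => by ring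
  rw [Finset.sum_congr rfl fun c _ => h1 c, ← Finset.mul_sum, Finset.sum_comm]
  congr 1
  refine Finset.sum_congr rfl fun y _ => ?_
  rw [← Finset.mul_sum]
  congr 1
  exact iw_Wd e y f f'

/-- the true window is close to the rounded one -/
theorem iw_near (h e : ℕ) (he : e ≤ k) (y : V k) (f f' : V k → ℝ) (hf : ∀ c, |f c| ≤ 2)
    (hf' : ∀ c, |f' c| ≤ 2) :
    |TS.iw (Wd e y) f f' - TS.iw (rho h e (flr (e - h) y)) f f'| ≤ 8 * ((2 : ℝ) ^ h)⁻¹ := by
  rw [iw_Wd, iw_rho]
  have hB : ∀ d, |f d * f' d| ≤ 4 := by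
    intro d
    rw [abs_mul]
    have := mul_le_mul (hf d) (hf' d) (abs_nonneg _) (by norm_num : (0 : ℝ) ≤ 2)
    linarith
  have hc := card_cell' (k := k) (j := e - h) (by omega) (flr (e - h) y) (flr_flr le_rfl y)
  have h1 : ip e y f f' - ((2 : ℝ) ^ (e - h))⁻¹ *
      ∑ y' : V k, ind (flr (e - h) y' = flr (e - h) y) * ip e y' f f' =
      ((2 : ℝ) ^ (e - h))⁻¹ * ∑ y' : V k, ind (flr (e - h) y' = flr (e - h) y) *
        (ip e y f f' - ip e y' f f') := by
    simp only [mul_sub, Finset.sum_sub_distrib]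
    rw [← Finset.sum_mul, hc]
    field_simp
  rw [h1, abs_mul, abs_of_pos (by positivity : (0 : ℝ) < (2 ^ (e - h))⁻¹)]
  have h2 : |∑ y' : V k, ind (flr (e - h) y' = flr (e - h) y) * (ip e y f f' - ip e y' f f')| ≤
      2 ^ (e - h) * (8 * ((2 : ℝ) ^ h)⁻¹) := by
    refine (Finset.abs_sum_le_sum_abs _ _).trans ?_
    rw [← hc, Finset.sum_mul]
    refine Finset.sum_le_sum fun y' _ => ?_
    rw [abs_mul, abs_of_nonneg (ind_nonneg _)]
    by_cases hy : flr (e - h) y' = flr (e - h) y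
    · rw [ind_of hy, one_mul, one_mul]
      have := ip_near h e y y' hy.symm f f' 4 hB
      linarith
    · rw [ind_not hy]; simp
  calc _ ≤ ((2 : ℝ) ^ (e - h))⁻¹ * (2 ^ (e - h) * (8 * ((2 : ℝ) ^ h)⁻¹)) :=
        mul_le_mul_of_nonneg_left h2 (by positivity)
    _ = _ := by field_simp

/-- a window is the mean of its halves -/
theorem Wd_succ (e : ℕ) (y v : V k) :
    Wd (e + 1) y v = (Wd e y v + Wd e (y - ((2 ^ e : ℕ) : V k)) v) / 2 := by
  unfold Wd
  rw [show (2 : ℕ) ^ (e + 1) = 2 ^ e + 2 ^ e by ring, Finset.sum_range_add, ← mul_add, pow_succ,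
    mul_inv]
  have : ∀ n : ℕ, y - ((2 ^ e : ℕ) : V k) - (n : V k) = y - ((2 ^ e + n : ℕ) : V k) := by
    intro n
    push_cast
    ring
  simp only [this]
  ring

/-- translation of a rounded window by a multiple of `2^e` -/
theorem rho_shift (h e : ℕ) (g v : V k) (c : ℕ) :
    rho h e (g - ((c * 2 ^ e : ℕ) : V k)) v =
      ((2 : ℝ) ^ (e - h))⁻¹ * ∑ y : V k, ind (flr (e - h) y = g) * Wd e (y - ((c * 2 ^ e : ℕ) : V k)) v := by
  unfold rho
  congr 1
  rw [← Equiv.sum_comp (Equiv.subRight ((c * 2 ^ e : ℕ) : V k))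
    (fun y => ind (flr (e - h) y = g - ((c * 2 ^ e : ℕ) : V k)) * Wd e y v)]
  refine Finset.sum_congr rfl fun y _ => ?_
  simp only [Equiv.subRight_apply]
  congr 2
  apply propext
  have h1 := flr_add_mul (Nat.sub_le e h) (y - ((c * 2 ^ e : ℕ) : V k)) c
  rw [sub_add_cancel] at h1
  constructor
  · intro h2; rw [h1, h2, sub_add_cancel]
  · intro h2; rw [← h2, h1, add_sub_cancel_right]

/-- averaging twice over nested cells -/
theorem avg_cell {j j' : ℕ} (hj : j ≤ j') (hjk : j ≤ k) (g : V k) (Ψ : V k → ℝ) :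
    ∑ y : V k, ind (flr j' y = g) * (((2 : ℝ) ^ j)⁻¹ * ∑ y' : V k, ind (flr j y' = flr j y) * Ψ y') =
      ∑ y : V k, ind (flr j' y = g) * Ψ y := by
  have h1 : ∀ y : V k, ind (flr j' y = g) * (((2 : ℝ) ^ j)⁻¹ * ∑ y' : V k, ind (flr j y' = flr j y) * Ψ y') =
      ∑ y' : V k, ((2 : ℝ) ^ j)⁻¹ * (ind (flr j' y = g) * ind (flr j y' = flr j y) * Ψ y') := by
    intro y
    rw [← Finset.mul_sum, mul_left_comm, Finset.mul_sum]
    congr 1
    exact Finset.sum_congr rfl fun y' _ => by ring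
  rw [Finset.sum_congr rfl fun y _ => h1 y, Finset.sum_comm]
  refine Finset.sum_congr rfl fun y' _ => ?_
  have h2 : ∀ y : V k, ((2 : ℝ) ^ j)⁻¹ * (ind (flr j' y = g) * ind (flr j y' = flr j y) * Ψ y') =
      ((2 : ℝ) ^ j)⁻¹ * (ind (flr j' y' = g) * Ψ y') * ind (flr j y = flr j y') := by
    intro y
    by_cases h : flr j y = flr j y'
    · rw [ind_of h, ind_of h.symm, flr_mono_eq hj h]
      ring
    · have e1 : ind (flr j y = flr j y') = 0 := ind_not h
      have e2 : ind (flr j y' = flr j y) = 0 := ind_not (fun h' => h h'.symm)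
      rw [e1, e2]
      ring
  rw [Finset.sum_congr rfl fun y _ => h2 y, ← Finset.mul_sum,
    card_cell' hjk (flr j y') (flr_flr le_rfl y')]
  field_simp

/-- the exact martingale of the rounded windows -/
theorem rho_mart (h e : ℕ) (he : e < k) (g v : V k) :
    ∑ y : V k, ind (flr (e + 1 - h) y = g) * ((rho h e (flr (e - h) y) v +
      rho h e (flr (e - h) y - ((1 * 2 ^ e : ℕ) : V k)) v) / 2) =
      (∑ y : V k, ind (flr (e + 1 - h) y = g)) * rho h (e + 1) g v := by
  have h0 : ∀ y : V k, rho h e (flr (e - h) y) v =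
      ((2 : ℝ) ^ (e - h))⁻¹ * ∑ y' : V k, ind (flr (e - h) y' = flr (e - h) y) * Wd e y' v := fun y => rfl
  have h1 : ∀ y : V k, ind (flr (e + 1 - h) y = g) * ((rho h e (flr (e - h) y) v +
      rho h e (flr (e - h) y - ((1 * 2 ^ e : ℕ) : V k)) v) / 2) =
      ind (flr (e + 1 - h) y = g) * (((2 : ℝ) ^ (e - h))⁻¹ * ∑ y' : V k,
        ind (flr (e - h) y' = flr (e - h) y) * Wd (e + 1) y' v) := by
    intro y
    congr 1
    rw [rho_shift, h0 y, ← mul_add, ← Finset.sum_add_distrib, mul_div_assoc, Finset.sum_div]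
    congr 1
    refine Finset.sum_congr rfl fun y' _ => ?_
    rw [Wd_succ, one_mul]
    ring
  rw [Finset.sum_congr rfl fun y _ => h1 y, avg_cell (by omega) (by omega)]
  unfold rho
  by_cases hg : flr (e + 1 - h) g = g
  · rw [card_cell' (by omega) g hg]
    field_simp
  · have h2 : ∀ y : V k, ind (flr (e + 1 - h) y = g) = 0 := by
      intro y
      apply ind_not
      intro h
      apply hg
      rw [← h, flr_flr le_rfl]
    simp only [h2, zero_mul, Finset.sum_const_zero]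

end Pool.Agent.M3.Bin
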