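import Mathlib
import Pool.Agent.PWZ.Osc

/-!
# M3/Bin/Defs : the binary model of section 0 (table m3) and Lemma M' (row 2M), definitions (helper11)

GROUP `V k = ZMod (2^k)`.  EXPONENT `e = l + 1` (`l` = level of the table): windows of length `2^e`,
`e = N, N-1, ..., 0` (time runs down), `N ≤ k`.  NOISE `w < 2^N`, uniform; `W_e = w % 2^e`; the digits above
`e` are coded by `w / 2^e`; the digit revealed between `e+1` and `e` is `bit e w = (w / 2^e) % 2`.
POSITION of a triple with shift `x` (= `a + b + c`): `pos e x w = x + w % 2^e`; window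
`J_e = pos - [0, 2^e)`, contains `x`; `ip e y f g` = average of `f g` over `y - [0, 2^e)`.
CELLS: `flr j v` = left end of the cell of length `2^j` of the dyadic grid of `V k` (`flr 0 v = v`).
ROUNDED NODE `gam h e y w = (flr (e-h) y, w / 2^e)`; `J* = flr (e-h) y - [0,2^e)`; small cells have the scale
`e - (h+3)` (natural subtraction: scale `0` = points).
VERTEX with parameter: `x = (p, a)`, `p : P` (structure `Par`: shift `tau p`, cells `cell j p`), `a : V k`.
-/

set_option autoImplicit false

namespace Pool.Agent.M3.Bin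

open Finset Pool.Agent.PWZ

noncomputable section

/-- the group -/
abbrev V (k : ℕ) := ZMod (2 ^ k)

instance instNeZeroTwoPow (k : ℕ) : NeZero ((2 : ℕ) ^ k) := ⟨(Nat.two_pow_pos k).ne'⟩

variable {k : ℕ}

/-- left end of the cell of length `2^j` which contains `v` -/
def flr (j : ℕ) (v : V k) : V k := v - ((v.val % 2 ^ j : ℕ) : V k)

/-- average of `f * g` over the window `y - [0, 2^e)` -/
def ip (e : ℕ) (y : V k) (f g : V k → ℝ) : ℝ :=
  ((2 : ℝ) ^ e)⁻¹ * ∑ n ∈ range (2 ^ e), f (y - (n : V k)) * g (y - (n : V k))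

/-- the digit revealed between the exponents `e+1` and `e` -/
def bit (e w : ℕ) : ℕ := (w / 2 ^ e) % 2

/-- the digit as a sign: `+1` = upper half, `-1` = lower half -/
def dg (e w : ℕ) : ℝ := if bit e w = 0 then 1 else -1

/-- the position (right end of the window) -/
def pos (e : ℕ) (x : V k) (w : ℕ) : V k := x + ((w % 2 ^ e : ℕ) : V k)

/-- rounded node -/
def gam (h e : ℕ) (y : V k) (w : ℕ) : V k × ℕ := (flr (e - h) y, w / 2 ^ e)

/-- parent of a rounded node of exponent `e` -/
def par (h e : ℕ) (g : V k × ℕ) : V k × ℕ :=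
  (flr (e + 1 - h) (g.1 + ((g.2 % 2 * 2 ^ e : ℕ) : V k)), g.2 / 2)

/-- an additional parameter of a vertex: shift and cells of every scale (numbers of cells) -/
structure Par (k : ℕ) (P : Type) [Fintype P] where
  tau : P → V k
  cell : ℕ → P → ℕ
  nest : ∀ j j' p p', j ≤ j' → cell j p = cell j p' → cell j' p = cell j' p'
  card : ∀ j p, (univ.filter fun p' => cell (j + 1) p' = cell (j + 1) p).card ≤
    2 * (univ.filter fun p' => cell j p' = cell j p).card
  comp : ∀ j p p', cell j p = cell j p' → flr j (tau p) = flr j (tau p')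

variable {P Q : Type} [Fintype P] [Fintype Q]

/-- the shift of a vertex -/
def Par.sh (A : Par k P) (x : P × V k) : V k := A.tau x.1 + x.2

/-- the small cell (of scale `j`) of a vertex -/
def Par.vc (A : Par k P) (j : ℕ) (x : P × V k) : ℕ × V k := (A.cell j x.1, flr j x.2)

/-- the vertices of the same small cell -/
def Par.VC (A : Par k P) (j : ℕ) (x : P × V k) : Finset (P × V k) :=
  univ.filter fun x' => A.vc j x' = A.vc j x

/-- a moving family of functions: exponent, rounded node, vertex -/
abbrev Fam (k : ℕ) (P : Type) := ℕ → V k × ℕ → P × V k → V k → ℝ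

/-- all functions of the family are bounded by `B` -/
def Bdd (u : Fam k P) (B : ℝ) : Prop := ∀ e g x d, |u e g x d| ≤ B

/-- the family is product rare on all small cells of all (aligned) rounded nodes, against all
bounded tests -/
def HF (A : Par k P) (h N : ℕ) (u : Fam k P) (eta eps : ℝ) : Prop :=
  ∀ e ≤ N, ∀ (g : V k × ℕ), flr (e - h) g.1 = g.1 → ∀ (x0 : P × V k) (w : V k → ℝ),
    (∀ d, |w d| ≤ 1) →
    (((A.VC (e - (h + 3)) x0).filter fun x => eta < |ip e g.1 (u e g x) w|).card : ℝ) ≤
      eps * ((A.VC (e - (h + 3)) x0).card : ℝ)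

/-- rounded node of the exponent `e` for the centre `z` (`z` = sum of all shifts) -/
def G (h e : ℕ) (z : V k) (w : ℕ) : V k × ℕ := gam h e (pos e z w) w

/-- FREE LAW of one vertex: `x = (p,a)`, the centre `z` and the noise are uniform and independent -/
def E1 (N : ℕ) (P : Type) [Fintype P] (f : P × V k → V k → ℕ → ℝ) : ℝ :=
  ((Fintype.card (P × V k) : ℝ) * 2 ^ k * 2 ^ N)⁻¹ *
    ∑ x : P × V k, ∑ z : V k, ∑ w ∈ range (2 ^ N), f x z w

/-- LAW of two vertices: `x = (p, a)`, `y = (q, b)` and the noise `w < 2^N` are uniform and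
independent; the centre is `A.sh x + B.sh y` -/
def EB (N : ℕ) (P Q : Type) [Fintype P] [Fintype Q]
    (f : P × V k → Q × V k → ℕ → ℝ) : ℝ :=
  ((Fintype.card (P × V k) : ℝ) * (Fintype.card (Q × V k) : ℝ) * 2 ^ N)⁻¹ *
    ∑ x : P × V k, ∑ y : Q × V k, ∑ w ∈ range (2 ^ N), f x y w

/-- expected number of moves of a family (introduction included) -/
def mv (h N : ℕ) (u : Fam k P) : ℝ :=
  ∑ e ∈ range N, E1 N P (fun x z w => ind (u e (G h e z w) x ≠ u (e + 1) (G h (e + 1) z w) x)) +
  E1 N P (fun x z w => ind (u N (G h N z w) x ≠ 0))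

/-- the process `<u_y, v_x>` seen from the window of exponent `e` -/
def TT (A : Par k P) (B : Par k Q) (h : ℕ) (u : Fam k Q) (v : Fam k P) (e : ℕ)
    (x : P × V k) (y : Q × V k) (w : ℕ) : ℝ :=
  ip e (pos e (A.sh x + B.sh y) w) (u e (G h e (A.sh x + B.sh y) w) y)
    (v e (G h e (A.sh x + B.sh y) w) x)

/-- a system of births: at every node a list of sets of vertices -/
abbrev Births (k : ℕ) (P : Type) := ℕ → V k × ℕ → List (Finset (P × V k))

/-- the births have density at least `dl` in a small cell -/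
def Thick (A : Par k P) (h N : ℕ) (S : Births k P) (dl : ℝ) : Prop :=
  ∀ e ≤ N, ∀ g, ∀ X ∈ S e g, ∃ x0, X ⊆ A.VC (e - (h + 3)) x0 ∧
    dl * ((A.VC (e - (h + 3)) x0).card : ℝ) ≤ (X.card : ℝ)

/-- number of births of `x` at a node -/
def nb (S : Births k P) (e : ℕ) (g : V k × ℕ) (x : P × V k) : ℝ :=
  ((S e g).map fun X => ind (x ∈ X)).sum

/-- expected number of births -/
def nbirth (h N : ℕ) (S : Births k P) : ℝ :=
  ∑ e ∈ range (N + 1), E1 N P (fun x z w => nb S e (G h e z w) x)

/-- `x` and `x'` are in the same births at the node `g` of exponent `e` and at all nodes above it -/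
def SameB (h N : ℕ) (S : Births k P) : ℕ → ℕ → V k × ℕ → P × V k → P × V k → Prop
  | 0, e, g, x, x' => ∀ X ∈ S e g, (x ∈ X ↔ x' ∈ X)
  | n + 1, e, g, x, x' => (∀ X ∈ S e g, (x ∈ X ↔ x' ∈ X)) ∧ SameB h N S n (e + 1) (par h e g) x x'

/-- `v` is determined by the node and the births, and changes only at births (before the first
exponent it is `0`) -/
structure DetBy (h N : ℕ) (S : Births k P) (v : Fam k P) : Prop where
  det : ∀ e ≤ N, ∀ g x x', SameB h N S (N - e) e g x x' → v e g x = v e g x'
  stat : ∀ e < N, ∀ g x, (∀ X ∈ S e g, x ∉ X) → v e g x = v (e + 1) (par h e g) x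
  start : ∀ g x, (∀ X ∈ S N g, x ∉ X) → v N g x = 0

end

end Pool.Agent.M3.Bin
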