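import Pool.Agent.M3.Bin.Rho
import Pool.Agent.M3.TSMap

/-!
# M3/Bin/Inst (helper11): the binary model is an instance of `TS.Side` and `TS.View`

Two vertices `x = (p, a)`, `y = (q, b)` and the noise `w < 2^N`, uniform and independent; time `t`, exponent
`e = N - t`.  Nodes: rounded node of the pair and the small cell of the parameter of the OTHER vertex.
-/

set_option autoImplicit false
set_option linter.unusedSectionVars false

namespace Pool.Agent.M3.Bin

open Finset Pool.Agent.PWZ Pool.Agent.M3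

variable {k N : ℕ} {P Q : Type} [Fintype P] [Fintype Q]

noncomputable section

/-- the centre -/
def ctr (A : Par k P) (B : Par k Q) (o : Om2 k N P Q) : V k := A.sh o.1 + B.sh o.2.1

/-- node for the first vertex -/
def nX (A : Par k P) (B : Par k Q) (h t : ℕ) (o : Om2 k N P Q) : (V k × ℕ) × ℕ :=
  (G h (N - t) (ctr A B o) o.2.2, B.cell (sc h (N - t)) o.2.1.1)

/-- node for the second vertex -/
def nY (A : Par k P) (B : Par k Q) (h t : ℕ) (o : Om2 k N P Q) : (V k × ℕ) × ℕ :=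
  (G h (N - t) (ctr A B o) o.2.2, A.cell (sc h (N - t)) o.1.1)

/-- small cells -/
def cX (A : Par k P) (N h t : ℕ) (x : P × V k) : ℕ × V k := A.vc (sc h (N - t)) x

/-- rounded windows -/
def rX (N h t : ℕ) (g : (V k × ℕ) × ℕ) (v : V k) : ℝ := rho h (N - t) g.1.1 v

/-- true window -/
def Jt (A : Par k P) (B : Par k Q) (t : ℕ) (o : Om2 k N P Q) : V k → ℝ :=
  Wd (N - t) (pos (N - t) (ctr A B o) o.2.2)

/-- exact information of the first vertex -/
def Qt (B : Par k Q) (h t : ℕ) (o : Om2 k N P Q) : (V k × ℕ) × P × (ℕ × V k) :=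
  ((pos (N - t) o.1.2 o.2.2, (o.2.2 : ℕ) / 2 ^ (N - t)), o.1.1, B.vc (sc h (N - t)) o.2.1)

/-- rounded information of the first vertex -/
def Rt (A : Par k P) (B : Par k Q) (h t : ℕ) (o : Om2 k N P Q) : (V k × ℕ) × ℕ × (ℕ × V k) :=
  ((flr (sc h (N - t)) (pos (N - t) o.1.2 o.2.2), (o.2.2 : ℕ) / 2 ^ (N - t)),
    A.cell (sc h (N - t)) o.1.1, B.vc (sc h (N - t)) o.2.1)

/-- the digit -/
def Dt (t : ℕ) (o : Om2 k N P Q) : ℝ := dg (N - (t + 1)) o.2.2

/-- difference of the two halves of the true window -/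
def dlt (A : Par k P) (B : Par k Q) (t : ℕ) (o : Om2 k N P Q) (v : V k) : ℝ :=
  (Wd (N - (t + 1)) (pos (N - t) (ctr A B o) o.2.2) v -
    Wd (N - (t + 1)) (pos (N - t) (ctr A B o) o.2.2 - ((2 ^ (N - (t + 1)) : ℕ) : V k)) v) / 2

/-- options for `nX` -/
def oX (A : Par k P) (B : Par k Q) (h t : ℕ) (i : Bool) (o : Om2 k N P Q) : (V k × ℕ) × ℕ :=
  ((opt A B h (N - t) i.toNat (pos (N - t) o.1.2 o.2.2) o.1.1 o.2.1, (o.2.2 : ℕ) / 2 ^ (N - t)),
    B.cell (sc h (N - t)) o.2.1.1)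

/-- options for `nY` -/
def oY (A : Par k P) (B : Par k Q) (h t : ℕ) (i : Bool) (o : Om2 k N P Q) : (V k × ℕ) × ℕ :=
  ((opt A B h (N - t) i.toNat (pos (N - t) o.1.2 o.2.2) o.1.1 o.2.1, (o.2.2 : ℕ) / 2 ^ (N - t)),
    A.cell (sc h (N - t)) o.1.1)

/-- number of the true small cell of the first vertex -/
def kX (h t : ℕ) (o : Om2 k N P Q) : Fin (2 ^ (h + 3) + 1) :=
  ⟨min ((flr (sc h (N - t)) (pos (N - t) o.1.2 o.2.2) - flr (sc h (N - t)) o.1.2).val / 2 ^ sc h (N - t))
    (2 ^ (h + 3)), Nat.lt_succ_of_le (min_le_right _ _)⟩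

/-- compatible small cells of the first vertex -/
def cK (A : Par k P) (h t : ℕ) (i : Fin (2 ^ (h + 3) + 1)) (o : Om2 k N P Q) : ℕ × V k :=
  (A.cell (sc h (N - t)) o.1.1,
    flr (sc h (N - t)) (pos (N - t) o.1.2 o.2.2) - (((i : ℕ) * 2 ^ sc h (N - t) : ℕ) : V k))

/-- coarsening of the numbers of cells -/
def cmap (A : Par k P) (j j' : ℕ) (c : ℕ) : ℕ :=
  @dite ℕ (∃ p, A.cell j p = c) (Classical.propDecidable _) (fun h => A.cell j' h.choose) (fun _ => 0)

theorem cmap_cell (A : Par k P) {j j' : ℕ} (hj : j ≤ j') (p : P) : cmap A j j' (A.cell j p) = A.cell j' p := by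
  have h : ∃ p', A.cell j p' = A.cell j p := ⟨p, rfl⟩
  unfold cmap
  rw [dif_pos h]
  exact A.nest j j' _ _ hj h.choose_spec

/-- parent of a node -/
def parX (B : Par k Q) (N h t : ℕ) (g : (V k × ℕ) × ℕ) : (V k × ℕ) × ℕ :=
  if t < N then (par h (N - (t + 1)) g.1, cmap B (sc h (N - (t + 1))) (sc h (N - t)) g.2) else g

end

theorem sc_mono {h e e' : ℕ} (he : e ≤ e') : sc h e ≤ sc h e' := by
  unfold sc; omega

theorem parX_nX (A : Par k P) (B : Par k Q) (h t : ℕ) (o : Om2 k N P Q) :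
    parX B N h t (nX A B h (t + 1) o) = nX A B h t o := by
  unfold parX nX
  split_ifs with ht
  · have e1 : N - t = N - (t + 1) + 1 := by omega
    rw [cmap_cell B (sc_mono (by omega)), e1, par_G]
  · have e1 : N - t = N - (t + 1) := by omega
    rw [e1]

/-! ### sums over the space -/

theorem sum_Om (f : Om2 k N P Q → ℝ) :
    ∑ o, f o = ∑ x : P × V k, ∑ y : Q × V k, ∑ w : Fin (2 ^ N), f (x, y, w) := by
  rw [Fintype.sum_prod_type]
  refine Finset.sum_congr rfl fun x _ => ?_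
  rw [Fintype.sum_prod_type]

/-- for a fixed first vertex the centre is uniform -/
theorem sum_ctr (A : Par k P) (B : Par k Q) (x : P × V k) (F : V k → Q → Fin (2 ^ N) → ℝ) :
    ∑ o : Om2 k N P Q, ind (o.1 = x) * F (ctr A B o) o.2.1.1 o.2.2 =
      ∑ q : Q, ∑ z : V k, ∑ w : Fin (2 ^ N), F z q w := by
  rw [sum_Om]
  have h1 : ∀ x' : P × V k, ∑ y : Q × V k, ∑ w : Fin (2 ^ N),
      ind (((x', y, w) : Om2 k N P Q).1 = x) * F (ctr A B (x', y, w)) ((x', y, w) : Om2 k N P Q).2.1.1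
        ((x', y, w) : Om2 k N P Q).2.2 =
      ind (x' = x) * ∑ y : Q × V k, ∑ w : Fin (2 ^ N), F (A.sh x + B.sh y) y.1 w := by
    intro x'
    rw [Finset.mul_sum]
    refine Finset.sum_congr rfl fun y _ => ?_
    rw [Finset.mul_sum]
    refine Finset.sum_congr rfl fun w _ => ?_
    by_cases h : x' = x
    · subst h; rfl
    · show ind (x' = x) * _ = ind (x' = x) * _
      rw [ind_not h]; ring
  rw [Finset.sum_congr rfl fun x' _ => h1 x', ← Finset.sum_mul]
  have h2 : ∑ x' : P × V k, ind (x' = x) = 1 := by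
    classical
    rw [Finset.sum_eq_single x]
    · exact ind_of rfl
    · intro b _ hb; exact ind_not hb
    · intro h; exact absurd (Finset.mem_univ _) h
  rw [h2, one_mul, Fintype.sum_prod_type]
  refine Finset.sum_congr rfl fun q _ => ?_
  have h3 : ∀ b : V k, A.sh x + B.sh (q, b) = b + (A.sh x + B.tau q) := by
    intro b
    unfold Par.sh
    simp only
    abel
  simp only [h3]
  exact Equiv.sum_comp (Equiv.addRight (A.sh x + B.tau q)) (fun z => ∑ w : Fin (2 ^ N), F z q w)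

theorem Pr_sum [Nonempty P] [Nonempty Q] (s : Om2 k N P Q → Prop) :
    (FP.unif (Om2 k N P Q)).Pr s = (∑ o, ind (s o)) / Fintype.card (Om2 k N P Q) :=
  FP.unif_E _ _

theorem free_X [Nonempty P] [Nonempty Q] (A : Par k P) (B : Par k Q) (h t : ℕ) (g : (V k × ℕ) × ℕ)
    (x : P × V k) :
    ∑ o : Om2 k N P Q, ind (o.1 = x ∧ nX A B h t o = g) =
      ∑ q : Q, ∑ z : V k, ∑ w : Fin (2 ^ N),
        ind ((G h (N - t) z (w : ℕ), B.cell (sc h (N - t)) q) = g) := by
  rw [← sum_ctr A B x (fun z q w => ind ((G h (N - t) z (w : ℕ), B.cell (sc h (N - t)) q) = g))]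
  refine Finset.sum_congr rfl fun o _ => ?_
  rw [ind_and]
  rfl

theorem flr_sub_pow {j e : ℕ} (hj : j ≤ e) (y : V k) (c : ℕ) :
    flr j (y - ((c * 2 ^ e : ℕ) : V k)) = flr j y - ((c * 2 ^ e : ℕ) : V k) := by
  have := flr_add_mul hj (y - ((c * 2 ^ e : ℕ) : V k)) c
  rw [sub_add_cancel] at this
  rw [this, add_sub_cancel_right]

/-- the martingale of the rounded windows, for the centre and the noise -/
theorem mart_sum (h e : ℕ) (he : e < N) (hN : N ≤ k) (g : V k × ℕ) (v : V k) :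
    ∑ z : V k, ∑ w : Fin (2 ^ N), ind (G h (e + 1) z (w : ℕ) = g) * rho h e (G h e z (w : ℕ)).1 v =
      ∑ z : V k, ∑ w : Fin (2 ^ N), ind (G h (e + 1) z (w : ℕ) = g) * rho h (e + 1) g.1 v := by
  have hr : ∀ F : ℕ → ℝ, ∑ w : Fin (2 ^ N), F (w : ℕ) = ∑ w ∈ range (2 ^ N), F w := fun F =>
    (Finset.sum_range F).symm
  rw [Finset.sum_comm, Finset.sum_comm (s := (univ : Finset (V k)))]
  rw [hr (fun w => ∑ z : V k, ind (G h (e + 1) z w = g) * rho h e (G h e z w).1 v),
    hr (fun w => ∑ z : V k, ind (G h (e + 1) z w = g) * rho h (e + 1) g.1 v)]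
  have h1 : ∀ w, ∑ z : V k, ind (G h (e + 1) z w = g) * rho h e (G h e z w).1 v =
      ind (w / 2 ^ (e + 1) = g.2) * ∑ y : V k, ind (flr (e + 1 - h) y = g.1) *
        rho h e (flr (e - h) y - ((bit e w * 2 ^ e : ℕ) : V k)) v := by
    intro w
    rw [← sum_pos (e + 1) w (fun y => ind (flr (e + 1 - h) y = g.1) *
        rho h e (flr (e - h) y - ((bit e w * 2 ^ e : ℕ) : V k)) v), Finset.mul_sum]
    refine Finset.sum_congr rfl fun z _ => ?_
    have e1 : ind (G h (e + 1) z w = g) = ind (w / 2 ^ (e + 1) = g.2) *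
        ind (flr (e + 1 - h) (pos (e + 1) z w) = g.1) := by
      rw [← ind_and]
      congr 1
      unfold G gam
      rw [Prod.ext_iff]
      exact propext ⟨fun hh => ⟨hh.2, hh.1⟩, fun hh => ⟨hh.2, hh.1⟩⟩
    have e2 : (G h e z w).1 = flr (e - h) (pos (e + 1) z w) - ((bit e w * 2 ^ e : ℕ) : V k) := by
      rw [← flr_sub_pow (Nat.sub_le e h), pos_succ, add_sub_cancel_right]
      rfl
    rw [e1, e2]
    ring
  have h2 : ∀ w, ∑ z : V k, ind (G h (e + 1) z w = g) * rho h (e + 1) g.1 v =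
      ind (w / 2 ^ (e + 1) = g.2) * ∑ y : V k, ind (flr (e + 1 - h) y = g.1) *
        rho h (e + 1) g.1 v := by
    intro w
    rw [← sum_pos (e + 1) w (fun y => ind (flr (e + 1 - h) y = g.1) * rho h (e + 1) g.1 v), Finset.mul_sum]
    refine Finset.sum_congr rfl fun z _ => ?_
    have e1 : ind (G h (e + 1) z w = g) = ind (w / 2 ^ (e + 1) = g.2) *
        ind (flr (e + 1 - h) (pos (e + 1) z w) = g.1) := by
      rw [← ind_and]
      congr 1
      unfold G gam
      rw [Prod.ext_iff]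
      exact propext ⟨fun hh => ⟨hh.2, hh.1⟩, fun hh => ⟨hh.2, hh.1⟩⟩
    rw [e1]
    ring
  rw [Finset.sum_congr rfl fun w _ => h1 w, Finset.sum_congr rfl fun w _ => h2 w]
  rw [sum_bit e he (fun c b => ind (c = g.2) * ∑ y : V k, ind (flr (e + 1 - h) y = g.1) *
        rho h e (flr (e - h) y - ((b * 2 ^ e : ℕ) : V k)) v)]
  refine Finset.sum_congr rfl fun w _ => ?_
  have h3 := rho_mart h e (by omega) g.1 v
  rw [← Finset.sum_mul, ← h3, ← mul_add, ← Finset.sum_add_distrib, mul_div_assoc, Finset.sum_div]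
  congr 1
  refine Finset.sum_congr rfl fun y _ => ?_
  simp only [Nat.zero_mul, Nat.cast_zero, sub_zero]
  ring

/-- first vertex -/
theorem side_X [Nonempty P] [Nonempty Q] (A : Par k P) (B : Par k Q) (hN : N ≤ k) (h : ℕ) :
    TS.Side (FP.unif (Om2 k N P Q)) (fun o => o.1) N (nX A B h) (cX A N h) (rX N h) (parX B N h) where
  par_nd := fun t o => parX_nX A B h t o
  wt := fun t g => Wt_rho h (N - t) (by omega) g.1.1
  free := fun t g x x' => by
    rw [Pr_sum, Pr_sum, free_X, free_X]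
  mart := fun t ht g x v => by
    rw [Pr_sum, free_X, FP.unif_E]
    have h1 : ∑ o : Om2 k N P Q, ind (o.1 = x ∧ nX A B h t o = g) *
        rX N h (t + 1) (nX A B h (t + 1) o) v =
        ∑ q : Q, ∑ z : V k, ∑ w : Fin (2 ^ N),
          ind ((G h (N - t) z (w : ℕ), B.cell (sc h (N - t)) q) = g) *
            rho h (N - (t + 1)) (G h (N - (t + 1)) z (w : ℕ)).1 v := by
      rw [← sum_ctr A B x (fun z q w => ind ((G h (N - t) z (w : ℕ), B.cell (sc h (N - t)) q) = g) *
            rho h (N - (t + 1)) (G h (N - (t + 1)) z (w : ℕ)).1 v)]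
      refine Finset.sum_congr rfl fun o _ => ?_
      rw [ind_and, mul_assoc]
      rfl
    rw [h1, div_mul_eq_mul_div, Finset.sum_mul]
    congr 1
    refine Finset.sum_congr rfl fun q _ => ?_
    have e1 : N - t = N - (t + 1) + 1 := by omega
    have h2 := mart_sum h (N - (t + 1)) (N := N) (by omega) hN g.1 v
    have h3 : ∀ (z : V k) (w : Fin (2 ^ N)), ind ((G h (N - t) z (w : ℕ), B.cell (sc h (N - t)) q) = g) =
        ind (B.cell (sc h (N - t)) q = g.2) * ind (G h (N - (t + 1) + 1) z (w : ℕ) = g.1) := by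
      intro z w
      rw [← ind_and]
      congr 1
      rw [Prod.ext_iff, ← e1]
      exact propext ⟨fun hh => ⟨hh.2, hh.1⟩, fun hh => ⟨hh.2, hh.1⟩⟩
    simp only [h3, mul_assoc]
    simp only [← Finset.mul_sum]
    rw [h2]
    rw [mul_assoc]
    congr 1
    rw [Finset.sum_mul]
    refine Finset.sum_congr rfl fun z _ => ?_
    rw [← Finset.sum_mul]
    unfold rX
    rw [← e1]

end Pool.Agent.M3.Bin
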