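import Pool.Agent.M3.Bin.InstV

/-!
# M3/Bin/InstC (helper11): the binary model is an instance of `TS.View`, the counting fields
-/

set_option autoImplicit false
set_option linter.unusedSectionVars false

namespace Pool.Agent.M3.Bin

open Finset Pool.Agent.PWZ Pool.Agent.M3

variable {k N : ℕ} {P Q : Type} [Fintype P] [Fintype Q]

/-! ### counting the options -/

theorem sum_Om' (f : Om2 k N P Q → ℝ) :
    ∑ o, f o = ∑ x : P × V k, ∑ q : Q, ∑ w : Fin (2 ^ N), ∑ b : V k, f (x, (q, b), w) := by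
  rw [sum_Om]
  refine Finset.sum_congr rfl fun x _ => ?_
  rw [Fintype.sum_prod_type]
  refine Finset.sum_congr rfl fun q _ => ?_
  rw [Finset.sum_comm]

/-- every option has the law of the node, for a fixed first vertex -/
theorem sum_opt_Om (A : Par k P) (B : Par k Q) (h t i : ℕ) (F : P × V k → Q → ℕ → V k → ℝ) :
    ∑ o : Om2 k N P Q, F o.1 o.2.1.1 o.2.2 (opt A B h (N - t) i (pos (N - t) o.1.2 o.2.2) o.1.1 o.2.1) =
      ∑ o : Om2 k N P Q, F o.1 o.2.1.1 o.2.2 (flr (N - t - h) (pos (N - t) (ctr A B o) o.2.2)) := by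
  rw [sum_Om', sum_Om']
  refine Finset.sum_congr rfl fun x _ => Finset.sum_congr rfl fun q _ => Finset.sum_congr rfl fun w _ => ?_
  have h1 := sum_opt A B h (N - t) i (pos (N - t) x.2 (w : ℕ)) x.1 q
    (A.sh x + B.tau q + ((((w : ℕ) % 2 ^ (N - t) : ℕ)) : V k)) (fun v => F x q w v)
  refine h1.trans (Finset.sum_congr rfl fun b _ => ?_)
  show F x q w (flr (N - t - h) (b + (A.sh x + B.tau q + ((((w : ℕ) % 2 ^ (N - t) : ℕ)) : V k)))) =
    F x q w (flr (N - t - h) (pos (N - t) (A.sh x + B.sh (q, b)) w))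
  congr 2
  unfold pos Par.sh
  simp only
  abel

theorem ocnt_X [Nonempty P] [Nonempty Q] (A : Par k P) (B : Par k Q) (h t : ℕ) (i : Bool) (x : P × V k)
    (g : (V k × ℕ) × ℕ) :
    (FP.unif (Om2 k N P Q)).Pr (fun o => o.1 = x ∧ oX A B h t i o = g) =
      (FP.unif (Om2 k N P Q)).Pr (fun o => o.1 = x ∧ nX A B h t o = g) := by
  rw [Pr_sum, Pr_sum]
  congr 1
  exact sum_opt_Om A B h t i.toNat (fun x' q w v => ind (x' = x ∧
    ((v, w / 2 ^ (N - t)), B.cell (sc h (N - t)) q) = g))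

/-- the node is independent of the first vertex -/
theorem sum_node (A : Par k P) (B : Par k Q) (h t : ℕ) (g : (V k × ℕ) × ℕ) (φ : P × V k → ℕ → ℝ) :
    ∑ o : Om2 k N P Q, φ o.1 o.2.2 * ind (nX A B h t o = g) =
      ∑ q : Q, ∑ w : Fin (2 ^ N), (∑ x : P × V k, φ x w) *
        ∑ z : V k, ind ((G h (N - t) z (w : ℕ), B.cell (sc h (N - t)) q) = g) := by
  rw [sum_Om']
  rw [Finset.sum_comm]
  refine Finset.sum_congr rfl fun q _ => ?_
  rw [Finset.sum_comm]
  refine Finset.sum_congr rfl fun w _ => ?_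
  rw [Finset.sum_mul]
  refine Finset.sum_congr rfl fun x _ => ?_
  rw [Finset.mul_sum]
  have h3 : ∀ b : V k, A.sh x + B.sh (q, b) = b + (A.sh x + B.tau q) := by
    intro b
    unfold Par.sh
    simp only
    abel
  rw [← Equiv.sum_comp (Equiv.addRight (A.sh x + B.tau q))
    (fun z => φ x w * ind ((G h (N - t) z (w : ℕ), B.cell (sc h (N - t)) q) = g))]
  refine Finset.sum_congr rfl fun b _ => ?_
  show φ x w * ind ((G h (N - t) (A.sh x + B.sh (q, b)) (w : ℕ), B.cell (sc h (N - t)) q) = g) = _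
  rw [h3]
  rfl

theorem ccnt_X [Nonempty P] [Nonempty Q] (A : Par k P) (B : Par k Q) (h t : ℕ) (i : Bool)
    (j : Fin (2 ^ (h + 3) + 1)) (c : ℕ × V k) (g : (V k × ℕ) × ℕ) :
    (FP.unif (Om2 k N P Q)).Pr (fun o => cK A h t j o = c ∧ oX A B h t i o = g) =
      (FP.unif (Om2 k N P Q)).Pr (fun o => cX A N h t o.1 = c ∧ nX A B h t o = g) := by
  rw [Pr_sum, Pr_sum]
  congr 1
  have h1 := sum_opt_Om (N := N) A B h t i.toNat (fun x q w v =>
    ind ((A.cell (sc h (N - t)) x.1, flr (sc h (N - t)) (pos (N - t) x.2 w) -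
      (((j : ℕ) * 2 ^ sc h (N - t) : ℕ) : V k)) = c ∧
    ((v, w / 2 ^ (N - t)), B.cell (sc h (N - t)) q) = g))
  refine h1.trans ?_
  have k1 : ∑ o : Om2 k N P Q, ind ((A.cell (sc h (N - t)) o.1.1,
      flr (sc h (N - t)) (pos (N - t) o.1.2 o.2.2) - (((j : ℕ) * 2 ^ sc h (N - t) : ℕ) : V k)) = c ∧
      ((flr (N - t - h) (pos (N - t) (ctr A B o) o.2.2), (o.2.2 : ℕ) / 2 ^ (N - t)),
        B.cell (sc h (N - t)) o.2.1.1) = g) = _ :=
    (Finset.sum_congr rfl fun o _ => ind_and _ _).trans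
    (sum_node A B h t g (fun (x : P × V k) (w : ℕ) => ind ((A.cell (sc h (N - t)) x.1,
        flr (sc h (N - t)) (pos (N - t) x.2 w) - (((j : ℕ) * 2 ^ sc h (N - t) : ℕ) : V k)) = c)))
  have k2 : ∑ o : Om2 k N P Q, ind (cX A N h t o.1 = c ∧ nX A B h t o = g) = _ :=
    (Finset.sum_congr rfl fun o _ => ind_and _ _).trans
    (sum_node A B h t g (fun (x : P × V k) (_ : ℕ) => ind (A.vc (sc h (N - t)) x = c)))
  refine k1.trans (Eq.trans ?_ k2.symm)
  refine Finset.sum_congr rfl fun q _ => Finset.sum_congr rfl fun w _ => ?_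
  congr 1
  rw [Fintype.sum_prod_type, Fintype.sum_prod_type]
  refine Finset.sum_congr rfl fun p _ => ?_
  simp only
  unfold Par.vc
  simp only
  set s := sc h (N - t) with hs
  rw [← Equiv.sum_comp (Equiv.addRight (((((w : ℕ) % 2 ^ (N - t) : ℕ)) : V k) -
    (((j : ℕ) * 2 ^ s : ℕ) : V k))) (fun a => ind ((A.cell s p, flr s a) = c))]
  refine Finset.sum_congr rfl fun a _ => ?_
  rw [Equiv.coe_addRight]
  have h4 : a + (((((w : ℕ) % 2 ^ (N - t) : ℕ)) : V k) - (((j : ℕ) * 2 ^ s : ℕ) : V k)) =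
      pos (N - t) a w - (((j : ℕ) * 2 ^ s : ℕ) : V k) := by
    unfold pos
    abel
  beta_reduce
  rw [h4, flr_sub_pow le_rfl]

/-! ### the cells -/

theorem card_vc (A : Par k P) {j : ℕ} (hj : j ≤ k) (x : P × V k) :
    (TS.cel (A.vc j) (A.vc j x)).card = (univ.filter fun p' => A.cell j p' = A.cell j x.1).card * 2 ^ j := by
  classical
  have h1 : TS.cel (A.vc j) (A.vc j x) = (univ.filter fun p' => A.cell j p' = A.cell j x.1) ×ˢ
      (univ.filter fun v' : V k => flr j v' = flr j x.2) := by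
    ext ⟨p', v'⟩
    rw [TS.mem_cel, Finset.mem_product, Finset.mem_filter, Finset.mem_filter]
    unfold Par.vc
    rw [Prod.mk.injEq]
    simp
  rw [h1, Finset.card_product, card_cell hj]

theorem card_vc_succ (A : Par k P) {j : ℕ} (hj : j + 1 ≤ k) (x : P × V k) :
    (TS.cel (A.vc (j + 1)) (A.vc (j + 1) x)).card ≤ 4 * (TS.cel (A.vc j) (A.vc j x)).card := by
  rw [card_vc A hj, card_vc A (by omega)]
  have h1 := A.card j x.1
  calc _ ≤ (2 * (univ.filter fun p' => A.cell j p' = A.cell j x.1).card) * 2 ^ (j + 1) :=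
        Nat.mul_le_mul_right _ h1
    _ = _ := by ring

theorem card_vc_mono (A : Par k P) {j : ℕ} (d : ℕ) (hj : j + d ≤ k) (x : P × V k) :
    (TS.cel (A.vc (j + d)) (A.vc (j + d) x)).card ≤ 4 ^ d * (TS.cel (A.vc j) (A.vc j x)).card := by
  induction d with
  | zero => simp
  | succ d ih =>
    have h1 := card_vc_succ A (j := j + d) (by omega) x
    have h2 := ih (by omega)
    calc _ ≤ 4 * (TS.cel (A.vc (j + d)) (A.vc (j + d) x)).card := h1
      _ ≤ 4 * (4 ^ d * (TS.cel (A.vc j) (A.vc j x)).card) := Nat.mul_le_mul_left _ h2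
      _ = _ := by ring

/-- coarser cells -/
theorem card_vc_le (A : Par k P) {j j' : ℕ} (d : ℕ) (hjj : j ≤ j') (hd : j' ≤ j + d) (hj : j' ≤ k) (x : P × V k) :
    ((TS.cel (A.vc j') (A.vc j' x)).card : ℝ) ≤ 4 ^ d * ((TS.cel (A.vc j) (A.vc j x)).card : ℝ) := by
  obtain ⟨d', rfl⟩ := Nat.exists_eq_add_of_le hjj
  have h1 := card_vc_mono A d' hj x
  have h2 : ((TS.cel (A.vc (j + d')) (A.vc (j + d') x)).card : ℝ) ≤
      4 ^ d' * ((TS.cel (A.vc j) (A.vc j x)).card : ℝ) := by exact_mod_cast h1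
  refine h2.trans ?_
  have h3 : (4 : ℝ) ^ d' ≤ 4 ^ d := pow_le_pow_right₀ (by norm_num) (by omega)
  gcongr

theorem cy4_X (A : Par k P) (hN : N ≤ k) (h t : ℕ) (x : P × V k) :
    ((TS.cel (cX A N h t) (cX A N h t x)).card : ℝ) ≤
      4 * ((TS.cel (cX A N h (t + 1)) (cX A N h (t + 1) x)).card : ℝ) := by
  have h1 := card_vc_le A (j := sc h (N - (t + 1))) (j' := sc h (N - t)) 1 (sc_mono (by omega))
    (by unfold sc; omega) (by unfold sc; omega) x
  rw [pow_one] at h1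
  exact h1

/-! ### the second vertex is uniform in its cell -/

theorem sum_snd (f : Q × V k → ℝ) :
    ∑ o : Om2 k N P Q, f o.2.1 = (Fintype.card (P × V k) : ℝ) * 2 ^ N * ∑ y, f y := by
  rw [sum_Om]
  simp only [Finset.sum_const, Finset.card_univ, Fintype.card_fin, nsmul_eq_mul]
  rw [← Finset.mul_sum]
  push_cast
  ring

theorem sum_ind_cel {𝒴 κ : Type*} [Fintype 𝒴] (c : 𝒴 → κ) (y0 : κ) (f : 𝒴 → ℝ) :
    ∑ y, ind (c y = y0) * f y = ∑ y ∈ TS.cel c y0, f y := by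
  classical
  unfold TS.cel
  rw [Finset.sum_filter]
  refine Finset.sum_congr rfl fun y _ => ?_
  by_cases h : c y = y0
  · rw [ind_of h, if_pos h, one_mul]
  · rw [ind_not h, if_neg h, zero_mul]

theorem Y_unif [Nonempty P] [Nonempty Q] (B : Par k Q) (hN : N ≤ k) (h t : ℕ) (o0 : Om2 k N P Q)
    (f : Q × V k → ℝ) :
    (FP.unif (Om2 k N P Q)).ce (fun o => (o.1, Qt B h t o)) (fun o => f o.2.1) o0 =
      (∑ y ∈ TS.cel (cX B N h t) (cX B N h t o0.2.1), f y) /
        ((TS.cel (cX B N h t) (cX B N h t o0.2.1)).card : ℝ) := by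
  have h1 : (FP.unif (Om2 k N P Q)).ce (fun o => (o.1, Qt B h t o)) (fun o => f o.2.1) o0 =
      (FP.unif (Om2 k N P Q)).ce (fun o => (cX B N h t o.2.1, (o.1, o.2.2))) (fun o => f o.2.1) o0 := by
    refine FP.ce_congr_map _ ?_ ?_ _ _
    · intro o o' hh
      have h2 := fac_XQ B hN h t o o' hh
      have h3 : Qt B h t o = Qt B h t o' := (Prod.ext_iff.mp hh).2
      have h4 : cX B N h t o.2.1 = cX B N h t o'.2.1 := fac_Qcy B h t o o' h3
      exact Prod.ext h4 h2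
    · intro o o' hh
      have h5 : B.vc (sc h (N - t)) o.2.1 = B.vc (sc h (N - t)) o'.2.1 := (Prod.ext_iff.mp hh).1
      have h6 : (o.1, o.2.2) = (o'.1, o'.2.2) := (Prod.ext_iff.mp hh).2
      have h7 : o.1 = o'.1 := (Prod.ext_iff.mp h6).1
      have h8 : o.2.2 = o'.2.2 := (Prod.ext_iff.mp h6).2
      show (o.1, Qt B h t o) = (o'.1, Qt B h t o')
      unfold Qt
      rw [h7, h8, h5]
  rw [h1]
  have h6 := FP.ce_indep (FP.unif (Om2 k N P Q)) (indep_y (k := k) (N := N) (P := P) (Q := Q)).symm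
    (ζ := fun o => cX B N h t o.2.1) (φ := fun _ => ()) (ψ := fun o => (o.1, o.2.2))
    (fun o o' hh => congrArg (cX B N h t) hh) (Fac.refl _) (Fac.const _ _) (fun y _ => f y)
    (FP.unif_ne _ o0)
  rw [h6]
  unfold FP.m
  rw [FP.unif_E, FP.unif_E]
  have h7 := sum_snd (N := N) (P := P) (fun y => ind (cX B N h t y = cX B N h t o0.2.1) * f y)
  have h8 := sum_snd (N := N) (P := P) (fun y => ind (cX B N h t y = cX B N h t o0.2.1))
  rw [h7, h8, sum_ind_cel]
  have h9 := sum_ind_cel (cX B N h t) (cX B N h t o0.2.1) (fun _ => (1 : ℝ))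
  simp only [mul_one] at h9
  rw [h9]
  have hc : (Fintype.card (Om2 k N P Q) : ℝ) ≠ 0 := Nat.cast_ne_zero.mpr Fintype.card_ne_zero
  have hc' : (Fintype.card (P × V k) : ℝ) ≠ 0 := Nat.cast_ne_zero.mpr Fintype.card_ne_zero
  rw [Finset.sum_const, nsmul_eq_mul, mul_one]
  have h10 : (((TS.cel (cX B N h t) (cX B N h t o0.2.1)).card : ℕ) : ℝ) ≠ 0 := by
    rw [Nat.cast_ne_zero]
    exact (Finset.card_pos.mpr ⟨o0.2.1, TS.mem_cel.mpr rfl⟩).ne'
  field_simp

end Pool.Agent.M3.Bin
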