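import Pool.Agent.M3.Bin.Inst

/-!
# M3/Bin/InstV (helper11): the binary model is an instance of `TS.View`, the fields without counting
-/

set_option autoImplicit false
set_option linter.unusedSectionVars false

namespace Pool.Agent.M3.Bin

open Finset Pool.Agent.PWZ Pool.Agent.M3

variable {k N : ℕ} {P Q : Type} [Fintype P] [Fintype Q]

theorem pos_ctr (A : Par k P) (B : Par k Q) (e : ℕ) (o : Om2 k N P Q) :
    pos e (ctr A B o) o.2.2 = pos e o.1.2 o.2.2 + A.tau o.1.1 + B.sh o.2.1 := by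
  unfold pos ctr Par.sh
  abel

theorem vc_nest (A : Par k P) {j j' : ℕ} (hj : j ≤ j') {x x' : P × V k} (h : A.vc j x = A.vc j x') :
    A.vc j' x = A.vc j' x' := by
  unfold Par.vc at h ⊢
  rw [Prod.mk.injEq] at h ⊢
  exact ⟨A.nest j j' _ _ hj h.1, flr_mono_eq hj h.2⟩

/-- the exact position from the position at the next exponent -/
theorem pos_prev (e : ℕ) (x : V k) (w : ℕ) : pos (e + 1) x w = pos e x w + ((bit e w * 2 ^ e : ℕ) : V k) :=
  pos_succ e x w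

theorem QQ_aux (e e' : ℕ) (he : e = e' ∨ e = e' + 1) (a a' : V k) (w w' : ℕ)
    (h1 : pos e' a w = pos e' a' w') (h2 : w / 2 ^ e' = w' / 2 ^ e') :
    pos e a w = pos e a' w' ∧ w / 2 ^ e = w' / 2 ^ e := by
  rcases he with rfl | rfl
  · exact ⟨h1, h2⟩
  · refine ⟨?_, ?_⟩
    · rw [pos_succ, pos_succ, h1]
      unfold bit
      rw [h2]
    · rw [pow_succ, ← Nat.div_div_eq_div_mul, ← Nat.div_div_eq_div_mul, h2]

/-- the noise from the shift and the exact position -/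
theorem noise_eq {e : ℕ} (he : e ≤ k) (a : V k) (w w' : ℕ) (h1 : pos e a w = pos e a w')
    (h2 : w / 2 ^ e = w' / 2 ^ e) : w = w' := by
  unfold pos at h1
  have h3 := add_left_cancel h1
  have h4 : (2 : ℕ) ^ e ≤ 2 ^ k := Nat.pow_le_pow_right (by norm_num) he
  have h5 := congrArg ZMod.val h3
  have h6 := Nat.mod_lt w (Nat.two_pow_pos e)
  have h7 := Nat.mod_lt w' (Nat.two_pow_pos e)
  rw [ZMod.val_natCast_of_lt (by omega), ZMod.val_natCast_of_lt (by omega)] at h5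
  rw [← Nat.div_add_mod w (2 ^ e), ← Nat.div_add_mod w' (2 ^ e), h2, h5]

theorem time_step (N t : ℕ) : N - t = N - (t + 1) ∨ N - t = N - (t + 1) + 1 := by omega

theorem Qt_eq {B : Par k Q} {h t : ℕ} {o o' : Om2 k N P Q} (hh : Qt B h t o = Qt B h t o') :
    pos (N - t) o.1.2 o.2.2 = pos (N - t) o'.1.2 o'.2.2 ∧
      (o.2.2 : ℕ) / 2 ^ (N - t) = (o'.2.2 : ℕ) / 2 ^ (N - t) ∧ o.1.1 = o'.1.1 ∧
      B.vc (sc h (N - t)) o.2.1 = B.vc (sc h (N - t)) o'.2.1 := by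
  unfold Qt at hh
  rw [Prod.mk.injEq, Prod.mk.injEq, Prod.mk.injEq] at hh
  exact ⟨hh.1.1, hh.1.2, hh.2.1, hh.2.2⟩

theorem Rt_eq {A : Par k P} {B : Par k Q} {h t : ℕ} {o o' : Om2 k N P Q} (hh : Rt A B h t o = Rt A B h t o') :
    flr (sc h (N - t)) (pos (N - t) o.1.2 o.2.2) = flr (sc h (N - t)) (pos (N - t) o'.1.2 o'.2.2) ∧
      (o.2.2 : ℕ) / 2 ^ (N - t) = (o'.2.2 : ℕ) / 2 ^ (N - t) ∧
      A.cell (sc h (N - t)) o.1.1 = A.cell (sc h (N - t)) o'.1.1 ∧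
      B.vc (sc h (N - t)) o.2.1 = B.vc (sc h (N - t)) o'.2.1 := by
  unfold Rt at hh
  rw [Prod.mk.injEq, Prod.mk.injEq, Prod.mk.injEq] at hh
  exact ⟨hh.1.1, hh.1.2, hh.2.1, hh.2.2⟩

theorem fac_QR (A : Par k P) (B : Par k Q) (h t : ℕ) :
    Fac (Qt (N := N) (P := P) B h t) (Rt A B h t) := by
  intro o o' hh
  obtain ⟨h1, h2, h3, h4⟩ := Qt_eq hh
  unfold Rt
  rw [h1, h2, h3, h4]

theorem fac_QQ (B : Par k Q) (h t : ℕ) :
    Fac (Qt (N := N) (P := P) B h (t + 1)) (Qt B h t) := by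
  intro o o' hh
  obtain ⟨h1, h2, h3, h4⟩ := Qt_eq hh
  obtain ⟨h5, h6⟩ := QQ_aux (N - t) (N - (t + 1)) (time_step N t) _ _ _ _ h1 h2
  have h7 : B.vc (sc h (N - t)) o.2.1 = B.vc (sc h (N - t)) o'.2.1 :=
    vc_nest B (sc_mono (by omega)) h4
  unfold Qt
  rw [h5, h6, h3, h7]

theorem fac_XQ (B : Par k Q) (hN : N ≤ k) (h t : ℕ) :
    Fac (fun o : Om2 k N P Q => (o.1, Qt B h t o)) (fun o => (o.1, o.2.2)) := by
  intro o o' hh
  rw [Prod.mk.injEq] at hh
  obtain ⟨h1, h2, h3, h4⟩ := Qt_eq hh.2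
  have h5 : o.2.2 = o'.2.2 := by
    apply Fin.ext
    rw [hh.1] at h1
    exact noise_eq (by omega) o'.1.2 _ _ h1 h2
  show (o.1, o.2.2) = (o'.1, o'.2.2)
  rw [hh.1, h5]

theorem fac_DX (B : Par k Q) (hN : N ≤ k) (h t : ℕ) :
    Fac (fun o : Om2 k N P Q => (o.1, Qt B h t o)) (Dt t) :=
  (fac_XQ B hN h t).trans (fun o o' hh => by
    rw [Prod.mk.injEq] at hh
    unfold Dt
    rw [hh.2])

theorem fac_DQ (B : Par k Q) (h t : ℕ) : Fac (Qt (N := N) (P := P) B h (t + 1)) (Dt t) := by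
  intro o o' hh
  obtain ⟨h1, h2, h3, h4⟩ := Qt_eq hh
  unfold Dt dg bit
  rw [h2]

theorem bit_of_dg {e w w' : ℕ} (h : dg e w = dg e w') : bit e w = bit e w' := by
  unfold dg at h
  rcases bit_lt e w with h1 | h1 <;> rcases bit_lt e w' with h2 | h2 <;> rw [h1, h2] at h <;>
    rw [h1, h2]
  · norm_num at h
  · norm_num at h

theorem fac_Qstep (B : Par k Q) (h t : ℕ) (ht : t < N) :
    Fac (fun o : Om2 k N P Q => (Qt B h t o, Dt t o, cX B N h (t + 1) o.2.1)) (Qt B h (t + 1)) := by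
  intro o o' hh
  have hh1 : Qt B h t o = Qt B h t o' := (Prod.ext_iff.mp hh).1
  have hh2 : (Dt t o, cX B N h (t + 1) o.2.1) = (Dt t o', cX B N h (t + 1) o'.2.1) := (Prod.ext_iff.mp hh).2
  obtain ⟨h1, h2, h3, h4⟩ := Qt_eq hh1
  have h5 : bit (N - (t + 1)) o.2.2 = bit (N - (t + 1)) o'.2.2 := bit_of_dg (Prod.ext_iff.mp hh2).1
  have h6 : B.vc (sc h (N - (t + 1))) o.2.1 = B.vc (sc h (N - (t + 1))) o'.2.1 := (Prod.ext_iff.mp hh2).2
  have e1 : N - t = N - (t + 1) + 1 := by omega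
  rw [e1] at h1 h2
  have h7 : pos (N - (t + 1)) o.1.2 o.2.2 = pos (N - (t + 1)) o'.1.2 o'.2.2 := by
    rw [pos_succ, pos_succ, h5] at h1
    exact add_right_cancel h1
  have h8 : (o.2.2 : ℕ) / 2 ^ (N - (t + 1)) = (o'.2.2 : ℕ) / 2 ^ (N - (t + 1)) := by
    rw [pow_succ, ← Nat.div_div_eq_div_mul, ← Nat.div_div_eq_div_mul] at h2
    unfold bit at h5
    omega
  unfold Qt
  rw [h7, h8, h3, h6]

theorem fac_Qcy (B : Par k Q) (h t : ℕ) :
    Fac (Qt (N := N) (P := P) B h t) (fun o => cX B N h t o.2.1) := by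
  intro o o' hh
  exact (Qt_eq hh).2.2.2

/-- the exact position of the pair and the digits -/
theorem fac_pos (A : Par k P) (B : Par k Q) (h t : ℕ) :
    Fac (fun o : Om2 k N P Q => (o.2.1, Qt B h t o))
      (fun o => (pos (N - t) (ctr A B o) o.2.2, (o.2.2 : ℕ) / 2 ^ (N - t))) := by
  intro o o' hh
  rw [Prod.mk.injEq] at hh
  obtain ⟨h1, h2, h3, h4⟩ := Qt_eq hh.2
  show (pos (N - t) (ctr A B o) o.2.2, (o.2.2 : ℕ) / 2 ^ (N - t)) =
    (pos (N - t) (ctr A B o') o'.2.2, (o'.2.2 : ℕ) / 2 ^ (N - t))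
  rw [pos_ctr, pos_ctr, h1, h2, h3, hh.1]

theorem fac_J (A : Par k P) (B : Par k Q) (h t : ℕ) :
    Fac (fun o : Om2 k N P Q => (o.2.1, Qt B h t o)) (Jt A B t) :=
  (fac_pos A B h t).trans (fun o o' hh => by
    rw [Prod.mk.injEq] at hh
    unfold Jt
    rw [hh.1])

theorem fac_dl (A : Par k P) (B : Par k Q) (h t : ℕ) :
    Fac (fun o : Om2 k N P Q => (o.2.1, Qt B h t o)) (dlt A B t) :=
  (fac_pos A B h t).trans (fun o o' hh => by
    rw [Prod.mk.injEq] at hh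
    funext v
    unfold dlt
    rw [hh.1])

theorem fac_nX (A : Par k P) (B : Par k Q) (h t : ℕ) :
    Fac (fun o : Om2 k N P Q => (o.2.1, Qt B h t o)) (nX A B h t) := by
  intro o o' hh
  have h1 := fac_pos A B h t o o' hh
  rw [Prod.mk.injEq] at h1 hh
  unfold nX G gam
  rw [h1.1, h1.2, hh.1]

theorem fac_nY (A : Par k P) (B : Par k Q) (h t : ℕ) :
    Fac (fun o : Om2 k N P Q => (o.2.1, Qt B h t o)) (nY A B h t) := by
  intro o o' hh
  have h1 := fac_pos A B h t o o' hh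
  rw [Prod.mk.injEq] at h1 hh
  obtain ⟨h2, h3, h4, h5⟩ := Qt_eq hh.2
  unfold nY G gam
  rw [h1.1, h1.2, h4]

theorem nY_swap (A : Par k P) (B : Par k Q) (h t : ℕ) (o : Om2 k N P Q) :
    nY A B h t o = nX B A h t (o.2.1, o.1, o.2.2) := by
  unfold nY nX ctr
  rw [add_comm]

theorem parX_nY (A : Par k P) (B : Par k Q) (h t : ℕ) (o : Om2 k N P Q) :
    parX A N h t (nY A B h (t + 1) o) = nY A B h t o := by
  rw [nY_swap, nY_swap, parX_nX]

theorem fac_nyy (A : Par k P) (B : Par k Q) (h t : ℕ) :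
    Fac (nY (N := N) A B h (t + 1)) (nY A B h t) := by
  intro o o' hh
  rw [← parX_nY A B h t o, ← parX_nY A B h t o', hh]

theorem fac_nxy (A : Par k P) (B : Par k Q) (h t : ℕ) :
    Fac (fun o : Om2 k N P Q => (o.2.1, nY A B h t o)) (nX A B h t) := by
  intro o o' hh
  rw [Prod.mk.injEq] at hh
  have h1 : (nY A B h t o).1 = (nY A B h t o').1 := by rw [hh.2]
  have h2 : G h (N - t) (ctr A B o) o.2.2 = G h (N - t) (ctr A B o') o'.2.2 := h1
  unfold nX
  rw [h2, hh.1]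

theorem fac_oX (A : Par k P) (B : Par k Q) (h t : ℕ) (i : Bool) :
    Fac (Rt (N := N) A B h t) (oX A B h t i) := by
  intro o o' hh
  obtain ⟨h1, h2, h3, h4⟩ := Rt_eq hh
  have h5 := opt_congr A B h (N - t) i.toNat h1 h3 h4
  unfold oX
  rw [h5, h2]
  unfold Par.vc at h4
  rw [Prod.mk.injEq] at h4
  rw [h4.1]

theorem fac_oY (A : Par k P) (B : Par k Q) (h t : ℕ) (i : Bool) :
    Fac (Rt (N := N) A B h t) (oY A B h t i) := by
  intro o o' hh
  obtain ⟨h1, h2, h3, h4⟩ := Rt_eq hh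
  have h5 := opt_congr A B h (N - t) i.toNat h1 h3 h4
  unfold oY
  rw [h5, h2, h3]

theorem opt_X (A : Par k P) (B : Par k Q) (hN : N ≤ k) (h t : ℕ) (o : Om2 k N P Q) :
    ∃ i, nX A B h t o = oX A B h t i o ∧ nY A B h t o = oY A B h t i o := by
  obtain ⟨i, hi, h1⟩ := opt_mem A B h (N - t) (by omega) o.1 o.2.1 (o.2.2 : ℕ)
  have h2 : ∃ b : Bool, b.toNat = i := by
    rcases (by omega : i = 0 ∨ i = 1) with rfl | rfl
    · exact ⟨false, rfl⟩
    · exact ⟨true, rfl⟩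
  obtain ⟨b, hb⟩ := h2
  refine ⟨b, ?_, ?_⟩
  · unfold nX oX G gam ctr
    rw [h1, hb]
  · unfold nY oY G gam ctr
    rw [h1, hb]

theorem flr_opt (A : Par k P) (B : Par k Q) (h e i : ℕ) (Z : V k) (p : P) (y : Q × V k) :
    flr (e - h) (opt A B h e i Z p y) = opt A B h e i Z p y := by
  unfold opt
  exact flr_flr le_rfl _

theorem oact_X (A : Par k P) (B : Par k Q) (h t : ℕ) (i : Bool) (o : Om2 k N P Q) :
    ∃ o' : Om2 k N P Q, nX A B h t o' = oX A B h t i o ∧ nY A B h t o' = oY A B h t i o := by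
  obtain ⟨x, ⟨q, b⟩, w⟩ := o
  set δ : V k := opt A B h (N - t) i.toNat (pos (N - t) x.2 w) x.1 (q, b) -
    pos (N - t) (ctr A B ((x, (q, b), w) : Om2 k N P Q)) w with hδ
  have h1 : pos (N - t) (ctr A B ((x, (q, b + δ), w) : Om2 k N P Q)) w =
      opt A B h (N - t) i.toNat (pos (N - t) x.2 w) x.1 (q, b) := by
    have h2 : pos (N - t) (ctr A B ((x, (q, b + δ), w) : Om2 k N P Q)) w =
        pos (N - t) (ctr A B ((x, (q, b), w) : Om2 k N P Q)) w + δ := by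
      unfold pos ctr Par.sh
      simp only
      abel
    rw [h2, hδ]
    abel
  refine ⟨(x, (q, b + δ), w), ?_, ?_⟩
  · unfold nX oX G gam
    simp only
    rw [h1, flr_opt]
  · unfold nY oY G gam
    simp only
    rw [h1, flr_opt]

theorem J_step (A : Par k P) (B : Par k Q) (t : ℕ) (ht : t < N) (o : Om2 k N P Q) (v : V k) :
    Jt A B (t + 1) o v = Jt A B t o v + Dt t o * dlt A B t o v := by
  unfold Jt Dt dlt
  have e1 : N - t = N - (t + 1) + 1 := by omega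
  rw [e1]
  generalize N - (t + 1) = e
  have h1 := pos_succ e (ctr A B o) (o.2.2 : ℕ)
  have h2 : pos e (ctr A B o) o.2.2 = pos (e + 1) (ctr A B o) o.2.2 - ((bit e o.2.2 * 2 ^ e : ℕ) : V k) := by
    rw [h1, add_sub_cancel_right]
  rw [h2, Wd_succ]
  unfold dg
  rcases bit_lt e o.2.2 with hb | hb
  · rw [hb, if_pos rfl, zero_mul, Nat.cast_zero, sub_zero]
    ring
  · rw [hb, if_neg (by norm_num), one_mul]
    ring

theorem dg_pm (e w : ℕ) : dg e w = 1 ∨ dg e w = -1 := by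
  unfold dg
  split_ifs
  · exact Or.inl rfl
  · exact Or.inr rfl

theorem D_fair [Nonempty P] [Nonempty Q] (B : Par k Q) (h t : ℕ) (ht : t < N) (o0 : Om2 k N P Q) :
    (FP.unif (Om2 k N P Q)).ce (Qt B h t) (Dt t) o0 = 0 := by
  have e1 : N - t = N - (t + 1) + 1 := by omega
  refine fair_x (N - (t + 1)) (by omega) (Qt B h t) ?_ o0
  intro o o' h1 h2 h3 h4
  unfold Qt
  rw [e1, h4, h3, h1, h2]

/-- the numbers of the compatible cells -/
theorem ck_X (A : Par k P) (hN : N ≤ k) (h t : ℕ) (o : Om2 k N P Q) :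
    cK A h t (kX h t o) o = cX A N h t o.1 := by
  set s := sc h (N - t) with hs
  set e := N - t with he
  have hse : s ≤ k := by rw [hs, he]; unfold sc; omega
  obtain ⟨⟨p, a⟩, y, w⟩ := o
  -- the difference is a multiple of `2^s`
  have h1 := cand_of_mem A h e (by omega) (p, a) (p, a) (w : ℕ) (by
    unfold Par.VC
    rw [Finset.mem_filter]
    exact ⟨Finset.mem_univ _, rfl⟩)
  have h2 : (flr s (pos e a (w : ℕ)) - flr s a).val ≤ 2 ^ e := h1.2
  have h3 : flr s (flr s (pos e a (w : ℕ)) - flr s a) = flr s (pos e a (w : ℕ)) - flr s a := by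
    have h4 : flr s a = (((flr s a).val / 2 ^ s * 2 ^ s : ℕ) : V k) := by
      have h5 : (flr s a).val = (flr s a).val / 2 ^ s * 2 ^ s := by
        rw [flr_val, sub_mod_eq, Nat.mul_div_cancel_left _ (by positivity), mul_comm]
      rw [← h5, ZMod.natCast_zmod_val]
    rw [h4, flr_sub_pow le_rfl, flr_flr le_rfl]
  set D := flr s (pos e a (w : ℕ)) - flr s a with hD
  have h6 : D = ((D.val / 2 ^ s * 2 ^ s : ℕ) : V k) := by
    have h5 : D.val = D.val / 2 ^ s * 2 ^ s := by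
      have h7 := flr_val s D
      rw [h3, sub_mod_eq] at h7
      conv_lhs => rw [h7]
      exact mul_comm _ _
    rw [← h5, ZMod.natCast_zmod_val]
  have h8 : D.val / 2 ^ s ≤ 2 ^ (h + 3) := by
    rw [Nat.div_le_iff_le_mul_add_pred (by positivity)]
    refine h2.trans ((Nat.pow_le_pow_right (by norm_num) (by rw [hs]; unfold sc; omega :
      e ≤ s + (h + 3))).trans ?_)
    rw [pow_add]
    omega
  show (A.cell s p, flr s (pos e a (w : ℕ)) -
    (((min (D.val / 2 ^ s) (2 ^ (h + 3)) : ℕ) * 2 ^ s : ℕ) : V k)) = (A.cell s p, flr s a)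
  rw [min_eq_left h8, ← h6, hD]
  congr 1
  abel

theorem fac_kX (A : Par k P) (B : Par k Q) (h t : ℕ) :
    Fac (fun o : Om2 k N P Q => (o.1, Rt A B h t o)) (kX h t) := by
  intro o o' hh
  rw [Prod.mk.injEq] at hh
  obtain ⟨h1, h2, h3, h4⟩ := Rt_eq hh.2
  unfold kX
  apply Fin.ext
  simp only
  rw [h1, hh.1]

theorem fac_cK (A : Par k P) (B : Par k Q) (h t : ℕ) (i : Fin (2 ^ (h + 3) + 1)) :
    Fac (Rt (N := N) A B h t) (cK A h t i) := by
  intro o o' hh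
  obtain ⟨h1, h2, h3, h4⟩ := Rt_eq hh
  unfold cK
  rw [h1, h3]

end Pool.Agent.M3.Bin
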