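import Pool.Agent.M3.Bin.Flr

/-! # M3/Bin/Law: the free law, exact martingale, the view of a vertex, symmetry -/

set_option autoImplicit false

namespace Pool.Agent.M3.Bin

open Finset Pool.Agent.PWZ

variable {k N : ℕ} {P Q : Type} [Fintype P] [Fintype Q]

/-! ### linearity -/

theorem E1_add (f g : P × V k → V k → ℕ → ℝ) :
    E1 N P (fun x z w => f x z w + g x z w) = E1 N P f + E1 N P g := by
  unfold E1
  simp only [Finset.sum_add_distrib, mul_add]

theorem E1_smul (c : ℝ) (f : P × V k → V k → ℕ → ℝ) :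
    E1 N P (fun x z w => c * f x z w) = c * E1 N P f := by
  unfold E1
  simp only [← Finset.mul_sum]
  ring

theorem E1_sub (f g : P × V k → V k → ℕ → ℝ) :
    E1 N P (fun x z w => f x z w - g x z w) = E1 N P f - E1 N P g := by
  unfold E1
  simp only [Finset.sum_sub_distrib, mul_sub]

theorem E1_mono (f g : P × V k → V k → ℕ → ℝ) (h : ∀ x z, ∀ w < 2 ^ N, f x z w ≤ g x z w) :
    E1 N P f ≤ E1 N P g := by
  unfold E1
  refine mul_le_mul_of_nonneg_left ?_ (by positivity)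
  exact Finset.sum_le_sum fun x _ => Finset.sum_le_sum fun z _ => Finset.sum_le_sum fun w hw =>
    h x z w (Finset.mem_range.mp hw)

theorem E1_nonneg (f : P × V k → V k → ℕ → ℝ) (h : ∀ x z w, 0 ≤ f x z w) : 0 ≤ E1 N P f := by
  unfold E1
  refine mul_nonneg (by positivity) ?_
  exact Finset.sum_nonneg fun x _ => Finset.sum_nonneg fun z _ => Finset.sum_nonneg fun w _ => h x z w

theorem EB_add (f g : P × V k → Q × V k → ℕ → ℝ) :
    EB N P Q (fun x y w => f x y w + g x y w) = EB N P Q f + EB N P Q g := by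
  unfold EB
  simp only [Finset.sum_add_distrib, mul_add]

theorem EB_smul (c : ℝ) (f : P × V k → Q × V k → ℕ → ℝ) :
    EB N P Q (fun x y w => c * f x y w) = c * EB N P Q f := by
  unfold EB
  simp only [← Finset.mul_sum]
  ring

theorem EB_mono (f g : P × V k → Q × V k → ℕ → ℝ) (h : ∀ x y, ∀ w < 2 ^ N, f x y w ≤ g x y w) :
    EB N P Q f ≤ EB N P Q g := by
  unfold EB
  refine mul_le_mul_of_nonneg_left ?_ (by positivity)
  exact Finset.sum_le_sum fun x _ => Finset.sum_le_sum fun y _ => Finset.sum_le_sum fun w hw =>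
    h x y w (Finset.mem_range.mp hw)

theorem EB_nonneg (f : P × V k → Q × V k → ℕ → ℝ) (h : ∀ x y w, 0 ≤ f x y w) :
    0 ≤ EB N P Q f := by
  unfold EB
  refine mul_nonneg (by positivity) ?_
  exact Finset.sum_nonneg fun x _ => Finset.sum_nonneg fun y _ => Finset.sum_nonneg fun w _ => h x y w

/-- symmetry -/
theorem EB_swap (f : P × V k → Q × V k → ℕ → ℝ) :
    EB N P Q f = EB N Q P (fun y x w => f x y w) := by
  unfold EB
  rw [Finset.sum_comm, mul_comm (Fintype.card (P × V k) : ℝ)]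

/-! ### free laws -/

theorem sum_blocks (n m : ℕ) (F : ℕ → ℝ) :
    ∑ w ∈ range (n * m), F w = ∑ hi ∈ range n, ∑ lo ∈ range m, F (hi * m + lo) := by
  induction n with
  | zero => simp
  | succ n ih => rw [Nat.succ_mul, Finset.sum_range_add, ih, Finset.sum_range_succ]

/-- splitting the noise: high part and low part -/
theorem sum_split (e : ℕ) (he : e ≤ N) (F : ℕ → ℝ) :
    ∑ w ∈ range (2 ^ N), F w =
      ∑ hi ∈ range (2 ^ (N - e)), ∑ lo ∈ range (2 ^ e), F (hi * 2 ^ e + lo) := by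
  rw [← sum_blocks, ← pow_add, Nat.sub_add_cancel he]

/-- the digit is fair given the digits above it -/
theorem sum_bit (e : ℕ) (he : e < N) (F : ℕ → ℕ → ℝ) :
    ∑ w ∈ range (2 ^ N), F (w / 2 ^ (e + 1)) (bit e w) =
      ∑ w ∈ range (2 ^ N), (F (w / 2 ^ (e + 1)) 0 + F (w / 2 ^ (e + 1)) 1) / 2 := by
  have hpos : 0 < (2 : ℕ) ^ e := Nat.two_pow_pos e
  have h1 : ∀ G : ℕ → ℕ → ℝ, ∑ w ∈ range (2 ^ N), G (w / 2 ^ (e + 1)) (bit e w) =
      ∑ hi ∈ range (2 ^ (N - (e + 1))), ∑ b ∈ range 2, ∑ _lo ∈ range (2 ^ e), G hi b := by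
    intro G
    rw [sum_split (e + 1) he]
    refine Finset.sum_congr rfl fun hi _ => ?_
    have h2 := sum_split (N := e + 1) e (Nat.le_succ e)
      (fun lo => G ((hi * 2 ^ (e + 1) + lo) / 2 ^ (e + 1)) (bit e (hi * 2 ^ (e + 1) + lo)))
    rw [h2, Nat.add_sub_cancel_left, pow_one]
    refine Finset.sum_congr rfl fun b hb => ?_
    refine Finset.sum_congr rfl fun lo hlo => ?_
    rw [Finset.mem_range] at hb hlo
    have hlt : b * 2 ^ e + lo < 2 ^ (e + 1) := by
      rw [pow_succ]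
      rcases (by omega : b = 0 ∨ b = 1) with rfl | rfl <;> omega
    have e1 : (hi * 2 ^ (e + 1) + (b * 2 ^ e + lo)) / 2 ^ (e + 1) = hi := by
      rw [mul_comm hi, Nat.mul_add_div (Nat.two_pow_pos _), Nat.div_eq_of_lt hlt, add_zero]
    have e2 : bit e (hi * 2 ^ (e + 1) + (b * 2 ^ e + lo)) = b := by
      unfold bit
      have : hi * 2 ^ (e + 1) + (b * 2 ^ e + lo) = 2 ^ e * (hi * 2 + b) + lo := by ring
      rw [this, Nat.mul_add_div hpos, Nat.div_eq_of_lt hlo, add_zero]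
      omega
    rw [e1, e2]
  rw [h1 F, h1 (fun hi _ => (F hi 0 + F hi 1) / 2)]
  refine Finset.sum_congr rfl fun hi _ => ?_
  rw [Finset.sum_range_succ, Finset.sum_range_one, Finset.sum_range_succ, Finset.sum_range_one,
    Finset.sum_const, Finset.sum_const, Finset.sum_const, nsmul_eq_mul, nsmul_eq_mul, nsmul_eq_mul]
  ring

theorem sum_pos (e w : ℕ) (F : V k → ℝ) : ∑ z : V k, F (pos e z w) = ∑ z : V k, F z := by
  unfold pos
  exact Equiv.sum_comp (Equiv.addRight ((w % 2 ^ e : ℕ) : V k)) F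

theorem card_V (k : ℕ) : Fintype.card (V k) = 2 ^ k := ZMod.card _

/-- two vertices, a function of the first vertex: free law of `x` -/
theorem EB_fst (A : Par k P) (B : Par k Q) [Nonempty Q] (f : P × V k → V k → ℕ → ℝ) :
    EB N P Q (fun x y w => f x (A.sh x + B.sh y) w) = E1 N P f := by
  unfold EB E1
  have hQ : (Fintype.card Q : ℝ) ≠ 0 := by
    have : 0 < Fintype.card Q := Fintype.card_pos
    positivity
  have h1 : ∀ x : P × V k, ∑ y : Q × V k, ∑ w ∈ range (2 ^ N), f x (A.sh x + B.sh y) w =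
      (Fintype.card Q : ℝ) * ∑ z : V k, ∑ w ∈ range (2 ^ N), f x z w := by
    intro x
    rw [Fintype.sum_prod_type]
    have h2 : ∀ q : Q, ∑ b : V k, ∑ w ∈ range (2 ^ N), f x (A.sh x + B.sh (q, b)) w =
        ∑ z : V k, ∑ w ∈ range (2 ^ N), f x z w := by
      intro q
      have h3 : ∀ b : V k, A.sh x + B.sh (q, b) = b + (A.sh x + B.tau q) := by
        intro b
        unfold Par.sh
        simp only
        abel
      simp only [h3]
      exact Equiv.sum_comp (Equiv.addRight (A.sh x + B.tau q))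
        (fun z => ∑ w ∈ range (2 ^ N), f x z w)
    rw [Finset.sum_congr rfl fun q _ => h2 q, Finset.sum_const, Finset.card_univ, nsmul_eq_mul]
  rw [Finset.sum_congr rfl fun x _ => h1 x, ← Finset.mul_sum, ← mul_assoc]
  congr 1
  rw [Fintype.card_prod Q (V k), card_V]
  push_cast
  by_cases hX : (Fintype.card (P × V k) : ℝ) = 0
  · rw [hX]; simp
  · field_simp

theorem EB_snd (A : Par k P) (B : Par k Q) [Nonempty P] (f : Q × V k → V k → ℕ → ℝ) :
    EB N P Q (fun x y w => f y (A.sh x + B.sh y) w) = E1 N Q f := by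
  rw [EB_swap, ← EB_fst (N := N) B A f]
  congr 1
  funext y x w
  rw [add_comm]

/-- EXACT MARTINGALE of the free law: `F` depends on the exact position and the digits above -/
theorem E1_mart (e : ℕ) (he : e < N) (F F' : P × V k → V k → ℕ → V k → ℝ) :
    E1 N P (fun x z w => ip e (pos e z w) (F x (pos (e + 1) z w) (w / 2 ^ (e + 1)))
      (F' x (pos (e + 1) z w) (w / 2 ^ (e + 1)))) =
    E1 N P (fun x z w => ip (e + 1) (pos (e + 1) z w) (F x (pos (e + 1) z w) (w / 2 ^ (e + 1)))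
      (F' x (pos (e + 1) z w) (w / 2 ^ (e + 1)))) := by
  unfold E1
  congr 1
  refine Finset.sum_congr rfl fun x _ => ?_
  rw [Finset.sum_comm, Finset.sum_comm (s := (univ : Finset (V k)))]
  have h1 : ∀ w, ∑ z : V k, ip e (pos e z w) (F x (pos (e + 1) z w) (w / 2 ^ (e + 1)))
      (F' x (pos (e + 1) z w) (w / 2 ^ (e + 1))) =
      ∑ y : V k, ip e (y - ((bit e w * 2 ^ e : ℕ) : V k)) (F x y (w / 2 ^ (e + 1)))
        (F' x y (w / 2 ^ (e + 1))) := by
    intro w
    rw [← sum_pos (e + 1) w (fun y => ip e (y - ((bit e w * 2 ^ e : ℕ) : V k))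
      (F x y (w / 2 ^ (e + 1))) (F' x y (w / 2 ^ (e + 1))))]
    refine Finset.sum_congr rfl fun z _ => ?_
    rw [pos_succ, add_sub_cancel_right]
  have h2 : ∀ w, ∑ z : V k, ip (e + 1) (pos (e + 1) z w) (F x (pos (e + 1) z w) (w / 2 ^ (e + 1)))
      (F' x (pos (e + 1) z w) (w / 2 ^ (e + 1))) =
      ∑ y : V k, ip (e + 1) y (F x y (w / 2 ^ (e + 1))) (F' x y (w / 2 ^ (e + 1))) := by
    intro w
    exact sum_pos (e + 1) w (fun y => ip (e + 1) y (F x y (w / 2 ^ (e + 1)))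
      (F' x y (w / 2 ^ (e + 1))))
  rw [Finset.sum_congr rfl fun w _ => h1 w, Finset.sum_congr rfl fun w _ => h2 w]
  refine (sum_split (N := N) (e + 1) (by omega) _).trans
    (Eq.trans ?_ (sum_split (N := N) (e + 1) (by omega) _).symm)
  refine Finset.sum_congr rfl fun hi _ => ?_
  have d1 : ∀ lo < 2 ^ (e + 1), (hi * 2 ^ (e + 1) + lo) / 2 ^ (e + 1) = hi := by
    intro lo hlo
    rw [add_comm, Nat.add_mul_div_right _ _ (by positivity), Nat.div_eq_of_lt hlo, zero_add]
  have d2 : ∀ lo < 2 ^ e, bit e (hi * 2 ^ (e + 1) + lo) = 0 := by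
    intro lo hlo
    unfold bit
    rw [show hi * 2 ^ (e + 1) + lo = lo + (2 * hi) * 2 ^ e by ring,
      Nat.add_mul_div_right _ _ (by positivity), Nat.div_eq_of_lt hlo, zero_add,
      Nat.mul_mod_right]
  have d3 : ∀ lo < 2 ^ e, bit e (hi * 2 ^ (e + 1) + (2 ^ e + lo)) = 1 := by
    intro lo hlo
    unfold bit
    rw [show hi * 2 ^ (e + 1) + (2 ^ e + lo) = lo + (1 + 2 * hi) * 2 ^ e by ring,
      Nat.add_mul_div_right _ _ (by positivity), Nat.div_eq_of_lt hlo, zero_add,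
      Nat.add_mul_mod_self_left]
  have e1 : (2 : ℕ) ^ (e + 1) = 2 ^ e + 2 ^ e := by ring
  have l1 : ∑ lo ∈ range (2 ^ (e + 1)), ∑ y : V k,
      ip e (y - ((bit e (hi * 2 ^ (e + 1) + lo) * 2 ^ e : ℕ) : V k))
        (F x y ((hi * 2 ^ (e + 1) + lo) / 2 ^ (e + 1)))
        (F' x y ((hi * 2 ^ (e + 1) + lo) / 2 ^ (e + 1))) =
      ∑ lo ∈ range (2 ^ (e + 1)), ∑ y : V k,
      ip e (y - ((bit e (hi * 2 ^ (e + 1) + lo) * 2 ^ e : ℕ) : V k)) (F x y hi) (F' x y hi) :=
    Finset.sum_congr rfl fun lo hlo => by rw [d1 lo (Finset.mem_range.mp hlo)]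
  have l2 : ∑ lo ∈ range (2 ^ (e + 1)), ∑ y : V k,
      ip (e + 1) y (F x y ((hi * 2 ^ (e + 1) + lo) / 2 ^ (e + 1)))
        (F' x y ((hi * 2 ^ (e + 1) + lo) / 2 ^ (e + 1))) =
      ∑ lo ∈ range (2 ^ (e + 1)), ∑ y : V k, ip (e + 1) y (F x y hi) (F' x y hi) :=
    Finset.sum_congr rfl fun lo hlo => by rw [d1 lo (Finset.mem_range.mp hlo)]
  rw [l1, l2]
  have h3 : ∑ lo ∈ range (2 ^ (e + 1)), ∑ y : V k,
      ip e (y - ((bit e (hi * 2 ^ (e + 1) + lo) * 2 ^ e : ℕ) : V k)) (F x y hi) (F' x y hi) =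
      ∑ lo ∈ range (2 ^ e), ∑ y : V k, (ip e y (F x y hi) (F' x y hi) +
        ip e (y - ((2 ^ e : ℕ) : V k)) (F x y hi) (F' x y hi)) := by
    rw [e1, Finset.sum_range_add, ← Finset.sum_add_distrib]
    refine Finset.sum_congr rfl fun lo hlo => ?_
    rw [Finset.mem_range] at hlo
    rw [← Finset.sum_add_distrib]
    refine Finset.sum_congr rfl fun y _ => ?_
    have := d2 lo hlo
    have := d3 lo hlo
    simp only [← e1]
    rw [d2 lo hlo, d3 lo hlo]
    simp
  rw [h3, Finset.sum_const, Finset.sum_const, card_range, card_range, nsmul_eq_mul, nsmul_eq_mul]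
  have h4 : ∀ y : V k, ip e y (F x y hi) (F' x y hi) +
        ip e (y - ((2 ^ e : ℕ) : V k)) (F x y hi) (F' x y hi) =
        2 * ip (e + 1) y (F x y hi) (F' x y hi) := by
    intro y
    rw [ip_succ]
    ring
  rw [Finset.sum_congr rfl fun y _ => h4 y, ← Finset.mul_sum]
  push_cast
  ring

/-- THE VIEW OF A VERTEX: with `z = a + w % 2^e` in the place of `a`; given `z` and `w / 2^e` the low
part of `w` is uniform and `a = z - w % 2^e` -/
theorem view_sum (e : ℕ) (F : V k → V k → ℕ → ℝ) :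
    ∑ a : V k, ∑ w ∈ range (2 ^ N), F a (pos e a w) w =
      ∑ z : V k, ∑ w ∈ range (2 ^ N), F (z - ((w % 2 ^ e : ℕ) : V k)) z w := by
  rw [Finset.sum_comm, Finset.sum_comm (s := (univ : Finset (V k)))]
  refine Finset.sum_congr rfl fun w _ => ?_
  rw [← sum_pos e w (fun z => F (z - ((w % 2 ^ e : ℕ) : V k)) z w)]
  refine Finset.sum_congr rfl fun z _ => ?_
  congr 1
  unfold pos
  ring

end Pool.Agent.M3.Bin
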