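import Pool.Agent.M3.Nam
import Pool.Agent.M3.Bin.Law

/-!
# M3/Bin/Nam2 (helper65): names of a moving family in the binary model, with conditional budgets
and exponential tails for every single vertex

Instantiation of `M3/Nam` (abstract) in the binary model of `M3/Bin/Defs`.

* `EZ N f` : expectation over centre `z` and noise `w < 2^N` (free law of one vertex);
* `names_full` : births `S`, names `f` with `Bdd`, `DetBy`, `Thick`, `HF`, the budget
  `nbirth ≤ 8/η² mv`, for every vertex `x` and every state the conditional budget, and tails.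
-/

set_option autoImplicit false

namespace Pool.Agent.M3.Bin

open Finset Pool.Agent.PWZ

noncomputable section

variable {k : ℕ}

/-! ### windows as weights -/

/-- weight of the window `y - [0, 2^e)` -/
def wt (e : ℕ) (y : V k) : V k → ℝ := fun c =>
  ((2 : ℝ) ^ e)⁻¹ * ∑ n ∈ range (2 ^ e), (if y - (n : V k) = c then (1 : ℝ) else 0)

theorem sum_wt (e : ℕ) (y : V k) (F : V k → ℝ) :
    ∑ c, wt e y c * F c = ((2 : ℝ) ^ e)⁻¹ * ∑ n ∈ range (2 ^ e), F (y - (n : V k)) := by
  unfold wt
  simp only [mul_assoc, Finset.sum_mul]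
  rw [← Finset.mul_sum, Finset.sum_comm]
  congr 1
  refine Finset.sum_congr rfl fun n _ => ?_
  simp only [ite_mul, one_mul, zero_mul, Finset.sum_ite_eq, Finset.mem_univ, if_true]

theorem PW_wt (e : ℕ) (y : V k) : PW (wt e y) where
  nn := fun c => by
    unfold wt
    refine mul_nonneg (by positivity) (Finset.sum_nonneg fun n _ => ?_)
    split_ifs <;> norm_num
  sum := by
    have h := sum_wt e y (fun _ => 1)
    simp only [mul_one, Finset.sum_const, Finset.card_range, nsmul_eq_mul] at h
    rw [h]
    push_cast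
    exact inv_mul_cancel₀ (by positivity)

theorem wip_wt (e : ℕ) (y : V k) (f g : V k → ℝ) : wip (wt e y) f g = ip e y f g := by
  have h := sum_wt e y (fun c => f c * g c)
  unfold wip ip
  rw [← h]
  exact Finset.sum_congr rfl fun c _ => by ring

theorem sum_wt_one (e : ℕ) (y : V k) (F : V k → ℝ) :
    ∑ c, wt e y c * F c = ip e y F (fun _ => 1) := by
  rw [sum_wt]
  unfold ip
  simp only [mul_one]

/-! ### the free law -/

/-- expectation over the centre and the noise -/
def EZ (k N : ℕ) (f : V k → ℕ → ℝ) : ℝ :=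
  ((2 : ℝ) ^ k * 2 ^ N)⁻¹ * ∑ z : V k, ∑ w ∈ range (2 ^ N), f z w

theorem E1_eq (N : ℕ) {P : Type} [Fintype P] (f : P × V k → V k → ℕ → ℝ) :
    E1 N P f = ((Fintype.card (P × V k) : ℝ))⁻¹ * ∑ x, EZ k N (f x) := by
  unfold E1 EZ
  rw [← Finset.mul_sum, ← mul_assoc, ← mul_inv, mul_assoc]

theorem EZ_eq (N : ℕ) (f : V k → ℕ → ℝ) : EZ k N f = E1 N Unit (fun _ z w => f z w) := by
  rw [E1_eq, Finset.sum_const, nsmul_eq_mul, Finset.card_univ, ← mul_assoc, inv_mul_cancel₀,
    one_mul]
  exact_mod_cast Fintype.card_ne_zero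

theorem EZ_add (N : ℕ) (f g : V k → ℕ → ℝ) :
    EZ k N (fun z w => f z w + g z w) = EZ k N f + EZ k N g := by
  unfold EZ
  simp only [Finset.sum_add_distrib, mul_add]

theorem EZ_smul (N : ℕ) (c : ℝ) (f : V k → ℕ → ℝ) :
    EZ k N (fun z w => c * f z w) = c * EZ k N f := by
  unfold EZ
  simp only [← Finset.mul_sum]
  ring

theorem EZ_mono (N : ℕ) (f g : V k → ℕ → ℝ) (h : ∀ z, ∀ w < 2 ^ N, f z w ≤ g z w) :
    EZ k N f ≤ EZ k N g := by
  unfold EZ
  refine mul_le_mul_of_nonneg_left ?_ (by positivity)
  exact Finset.sum_le_sum fun z _ => Finset.sum_le_sum fun w hw => h z w (Finset.mem_range.mp hw)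

theorem EZ_congr (N : ℕ) (f g : V k → ℕ → ℝ) (h : ∀ z, ∀ w < 2 ^ N, f z w = g z w) :
    EZ k N f = EZ k N g :=
  le_antisymm (EZ_mono N f g fun z w hw => (h z w hw).le)
    (EZ_mono N g f fun z w hw => (h z w hw).ge)

theorem EZ_one (N : ℕ) : EZ k N (fun _ _ => 1) = 1 := by
  unfold EZ
  simp only [Finset.sum_const, Finset.card_range, nsmul_eq_mul, mul_one, Finset.card_univ, ZMod.card]
  push_cast
  exact inv_mul_cancel₀ (by positivity)

theorem EZ_mart (N e : ℕ) (he : e < N) (F : V k → ℕ → V k → ℝ) :
    EZ k N (fun z w => ∑ c, wt e (pos e z w) c * F (pos (e + 1) z w) (w / 2 ^ (e + 1)) c) =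
    EZ k N (fun z w => ∑ c, wt (e + 1) (pos (e + 1) z w) c *
      F (pos (e + 1) z w) (w / 2 ^ (e + 1)) c) := by
  have h := E1_mart (k := k) (P := Unit) e he (fun _ Y d => F Y d) (fun _ _ _ _ => 1)
  simp only [sum_wt_one]
  rw [EZ_eq, EZ_eq]
  exact h

/-! ### paths -/

/-- the exact path of length `t + 1` from the exponent `N - t` up to `N` -/
def pathOf (N : ℕ) : ℕ → V k → ℕ → List (V k × ℕ)
  | 0, Y, d => [(Y, d)]
  | t + 1, Y, d => (Y, d) ::
      (if t + 1 ≤ N then pathOf N t (Y + ((d % 2 * 2 ^ (N - (t + 1)) : ℕ) : V k)) (d / 2)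
        else pathOf N t Y d)

/-- the path of `(z, w)` -/
def pt (N t : ℕ) (z : V k) (w : ℕ) : List (V k × ℕ) :=
  pathOf N t (pos (N - t) z w) (w / 2 ^ (N - t))

theorem pt_zero (N : ℕ) (z : V k) (w : ℕ) : pt N 0 z w = [(pos N z w, w / 2 ^ N)] := rfl

theorem pt_succ (N t : ℕ) (z : V k) (w : ℕ) :
    pt N (t + 1) z w = (pos (N - (t + 1)) z w, w / 2 ^ (N - (t + 1))) :: pt N t z w := by
  unfold pt
  rw [pathOf]
  congr 1
  by_cases h : t + 1 ≤ N
  · rw [if_pos h]
    have h1 : N - t = N - (t + 1) + 1 := by omega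
    rw [h1, pos_succ, pow_succ, Nat.div_div_eq_div_mul]
    rfl
  · rw [if_neg h]
    have h1 : N - t = N - (t + 1) := by omega
    rw [h1]

theorem pt_length (N t : ℕ) (z : V k) (w : ℕ) : (pt N t z w).length = t + 1 := by
  induction t with
  | zero => rw [pt_zero]; rfl
  | succ t ih => rw [pt_succ, List.length_cons, ih]

/-- path expectations -/
def PE (k N : ℕ) : PathEx (V k × ℕ) where
  E := fun t F => EZ k N (fun z w => F (pt N t z w))
  add := fun t f g => EZ_add N _ _
  smul := fun t x f => EZ_smul N x _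
  mono := fun t f g h => EZ_mono N _ _ fun z w _ => h _ (pt_length N t z w)
  tail := fun t f => by
    refine EZ_congr N _ _ fun z w _ => ?_
    simp only [pt_succ, List.tail_cons]

/-- rounding of a path -/
def rdp (N h : ℕ) : List (V k × ℕ) → List (V k × ℕ)
  | [] => []
  | x :: l => (flr (N - l.length - h) x.1, x.2) :: rdp N h l

/-- rounded path above a rounded node of exponent `e`, `n` steps -/
def rpn (h : ℕ) : ℕ → ℕ → V k × ℕ → List (V k × ℕ)
  | 0, _, g => [g]
  | n + 1, e, g => g :: rpn h n (e + 1) (par h e g)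

theorem rpn_length (h n e : ℕ) (g : V k × ℕ) : (rpn h n e g).length = n + 1 := by
  induction n generalizing e g with
  | zero => rfl
  | succ n ih => rw [rpn, List.length_cons, ih]

theorem rdp_length (N h : ℕ) (l : List (V k × ℕ)) : (rdp N h l).length = l.length := by
  induction l with
  | nil => rfl
  | cons x l ih => rw [rdp, List.length_cons, List.length_cons, ih]

theorem rdp_pt (N h t : ℕ) (ht : t ≤ N) (z : V k) (w : ℕ) :
    rdp N h (pt N t z w) = rpn h t (N - t) (G h (N - t) z w) := by
  induction t with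
  | zero => rw [pt_zero]; rfl
  | succ t ih =>
    rw [pt_succ, rdp, ih (by omega), pt_length]
    have h1 : N - t = N - (t + 1) + 1 := by omega
    rw [rpn, h1, par_G]
    rfl

/-- the data of a moving family in the binary model -/
def namData (k N h : ℕ) {P : Type} [Fintype P] (A : Par k P) (u : Fam k P) (hu : Bdd u 1) :
    NamData (V k × ℕ) (V k × ℕ) (V k) (P × V k) (ℕ × V k) where
  P := PE k N
  m := fun l => wt (N - (l.length - 1)) (l.headD (0, 0)).1
  hm := fun l => PW_wt _ _
  free := fun t F => by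
    show EZ k N _ = EZ k N _
    by_cases ht : t + 1 ≤ N
    · have h1 : N - t = N - (t + 1) + 1 := by omega
      have h := EZ_mart (k := k) N (N - (t + 1)) (by omega) (fun Y d => F (pathOf N t Y d))
      rw [← h1] at h
      refine Eq.trans ?_ (h.trans ?_)
      · refine EZ_congr N _ _ fun z w _ => ?_
        simp only [pt_succ, List.tail_cons, List.length_cons, pt_length, List.headD_cons,
          Nat.add_sub_cancel]
        rfl
      · refine EZ_congr N _ _ fun z w _ => ?_
        have h2 : (pt N t z w).headD (0, 0) = (pos (N - t) z w, w / 2 ^ (N - t)) := by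
          cases t with
          | zero => rfl
          | succ t => rw [pt_succ]; rfl
        simp only [pt_length, h2, Nat.add_sub_cancel]
        rfl
    · refine EZ_congr N _ _ fun z w _ => ?_
      have h1 : N - t = N - (t + 1) := by omega
      have h2 : (pt N t z w).headD (0, 0) = (pos (N - t) z w, w / 2 ^ (N - t)) := by
        cases t with
        | zero => rfl
        | succ t => rw [pt_succ]; rfl
      simp only [pt_succ, List.tail_cons, List.length_cons, pt_length, List.headD_cons, h2,
        Nat.add_sub_cancel]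
      rw [h1]
  rd := rdp N h
  rd_nil := rfl
  rd_cons := fun x l => ⟨_, rfl⟩
  ms := fun r => wt (N - (r.length - 1)) (r.headD (0, 0)).1
  hms := fun r => PW_wt _ _
  δ := 2 * ((2 : ℝ) ^ h)⁻¹
  err := fun l F B hF => by
    rw [rdp_length, sum_wt_one, sum_wt_one]
    have hB : 0 ≤ B := (abs_nonneg _).trans (hF 0)
    cases l with
    | nil =>
      rw [rdp, sub_self, abs_zero]
      positivity
    | cons x l =>
      rw [rdp, List.headD_cons, List.headD_cons, List.length_cons, Nat.add_sub_cancel]
      have h1 := ip_round h (N - l.length) x.1 F (fun _ => 1) B (fun d => by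
        rw [mul_one]; exact hF d)
      refine h1.trans (le_of_eq ?_)
      ring
  u := fun r x => if r = [] then (fun _ => 0) else u (N - (r.length - 1)) (r.headD (0, 0)) x
  hu := fun r x c => by
    by_cases hr : r = []
    · rw [if_pos hr]; simp
    · rw [if_neg hr]; exact hu _ _ _ _
  u_nil := fun x c => by rw [if_pos rfl]
  cell := fun r x => A.vc (N - (r.length - 1) - (h + 3)) x

theorem pt_drop (N t j : ℕ) (z : V k) (w : ℕ) : (pt N (t + j) z w).drop j = pt N t z w := by
  induction j with
  | zero => simp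
  | succ j ih => rw [← add_assoc, pt_succ, List.drop_succ_cons, ih]

theorem pt_head (N t : ℕ) (z : V k) (w : ℕ) :
    (pt N t z w).headD (0, 0) = (pos (N - t) z w, w / 2 ^ (N - t)) := by
  cases t with
  | zero => rfl
  | succ t => rw [pt_succ]; rfl

theorem rpn_head (h n e : ℕ) (g : V k × ℕ) : (rpn h n e g).headD (0, 0) = g := by
  cases n with
  | zero => rfl
  | succ n => rfl

theorem rpn_ne (h n e : ℕ) (g : V k × ℕ) : rpn h n e g ≠ [] := by
  cases n with
  | zero => simp [rpn]
  | succ n => simp [rpn]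

section main

variable {P : Type} [Fintype P]

/-- moves of one vertex -/
def mvx (h N : ℕ) (u : Fam k P) (x : P × V k) : ℝ :=
  ∑ e ∈ range N, EZ k N (fun z w => ind (u e (G h e z w) x ≠ u (e + 1) (G h (e + 1) z w) x)) +
  EZ k N (fun z w => ind (u N (G h N z w) x ≠ 0))

theorem mv_eq (h N : ℕ) (u : Fam k P) :
    mv h N u = ((Fintype.card (P × V k) : ℝ))⁻¹ * ∑ x, mvx h N u x := by
  unfold mv mvx
  rw [Finset.sum_add_distrib, mul_add, ← E1_eq, Finset.sum_comm, Finset.mul_sum]
  congr 1
  exact Finset.sum_congr rfl fun e _ => E1_eq N _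

theorem nbirth_eq (h N : ℕ) (S : Births k P) :
    nbirth h N S = ((Fintype.card (P × V k) : ℝ))⁻¹ *
      ∑ x, ∑ e ∈ range (N + 1), EZ k N (fun z w => nb S e (G h e z w) x) := by
  unfold nbirth
  rw [Finset.sum_comm, Finset.mul_sum]
  exact Finset.sum_congr rfl fun e _ => E1_eq N _

/-- all outputs of the construction of names -/
structure NamesBin (A : Par k P) (h N : ℕ) (u : Fam k P) (eta eps : ℝ) (S : Births k P)
    (f : Fam k P) : Prop where
  bdd : Bdd f 1
  det : DetBy h N S f
  thick : Thick A h N S eps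
  hf : HF A h N (fun e g x d => u e g x d - f e g x d) eta (2 * eps)
  cap : ∀ e ≤ N, ∀ g x, eta ^ 2 * nb S e g x ≤ 4
  total : ∀ x, ∑ e ∈ range (N + 1), EZ k N (fun z w => nb S e (G h e z w) x) ≤
    8 / eta ^ 2 * mvx h N u x
  cond : ∀ x, ∀ e0 ≤ N, ∀ φ : V k → ℕ → ℝ, (∀ Y d, 0 ≤ φ Y d) →
    ∑ e ∈ range e0, EZ k N (fun z w => φ (pos e0 z w) (w / 2 ^ e0) * nb S e (G h e z w) x) ≤
      8 / eta ^ 2 * (EZ k N (fun z w => φ (pos e0 z w) (w / 2 ^ e0)) +
        ∑ e ∈ range e0, EZ k N (fun z w => φ (pos e0 z w) (w / 2 ^ e0) *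
          ind (u e (G h e z w) x ≠ u (e + 1) (G h (e + 1) z w) x)))
  tails : ∀ x (K : ℝ), 0 ≤ K →
    (∀ e0 ≤ N, ∀ φ : V k → ℕ → ℝ, (∀ Y d, 0 ≤ φ Y d) →
      ∑ e ∈ range e0, EZ k N (fun z w => φ (pos e0 z w) (w / 2 ^ e0) *
          ind (u e (G h e z w) x ≠ u (e + 1) (G h (e + 1) z w) x)) ≤
        K * EZ k N (fun z w => φ (pos e0 z w) (w / 2 ^ e0))) →
    ∀ j : ℕ, EZ k N (fun z w => ind (((j : ℝ) + 1) * ((20 + 16 * K) / eta ^ 2) ≤
      ∑ e ∈ range (N + 1), nb S e (G h e z w) x)) ≤ (1 / 2) ^ j

variable (A : Par k P) (h N : ℕ) (u : Fam k P) (hu : Bdd u 1)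

theorem nd_u (n e : ℕ) (hn : e + n = N) (g : V k × ℕ) (x : P × V k) :
    (namData k N h A u hu).u (rpn h n e g) x = u e g x := by
  show (if rpn h n e g = [] then (fun _ => 0) else _) = _
  rw [if_neg (rpn_ne h n e g), rpn_length, rpn_head, Nat.add_sub_cancel, ← hn, Nat.add_sub_cancel]

theorem nd_ms (n e : ℕ) (hn : e + n = N) (g : V k × ℕ) :
    (namData k N h A u hu).ms (rpn h n e g) = wt e g.1 := by
  show wt (N - ((rpn h n e g).length - 1)) ((rpn h n e g).headD (0, 0)).1 = _
  rw [rpn_length, rpn_head, Nat.add_sub_cancel, ← hn, Nat.add_sub_cancel]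

theorem nd_cell (n e : ℕ) (hn : e + n = N) (g : V k × ℕ) (x : P × V k) :
    (namData k N h A u hu).cell (rpn h n e g) x = A.vc (e - (h + 3)) x := by
  show A.vc (N - ((rpn h n e g).length - 1) - (h + 3)) x = _
  rw [rpn_length, Nat.add_sub_cancel, ← hn, Nat.add_sub_cancel]

theorem nd_mv_zero (x : P × V k) (z : V k) (w : ℕ) :
    Pool.Agent.M3.mv (namData k N h A u hu).u (rdp N h (pt N 0 z w)) x =
      ind (u N (G h N z w) x ≠ 0) := by
  unfold Pool.Agent.M3.mv
  rw [rdp_pt N h 0 (Nat.zero_le _), nd_u A h N u hu 0 (N - 0) (by omega)]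
  rfl

theorem nd_mv (t : ℕ) (ht : t + 1 ≤ N) (x : P × V k) (z : V k) (w : ℕ) :
    Pool.Agent.M3.mv (namData k N h A u hu).u (rdp N h (pt N (t + 1) z w)) x =
      ind (u (N - (t + 1)) (G h (N - (t + 1)) z w) x ≠
        u (N - (t + 1) + 1) (G h (N - (t + 1) + 1) z w) x) := by
  unfold Pool.Agent.M3.mv
  rw [rdp_pt N h (t + 1) ht, nd_u A h N u hu (t + 1) (N - (t + 1)) (by omega)]
  have h1 : (rpn h (t + 1) (N - (t + 1)) (G h (N - (t + 1)) z w)).tail =
      rpn h t (N - (t + 1) + 1) (G h (N - (t + 1) + 1) z w) := by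
    rw [rpn, List.tail_cons, par_G]
  rw [h1, nd_u A h N u hu t (N - (t + 1) + 1) (by omega)]

theorem rdp_head (t : ℕ) (z : V k) (w : ℕ) :
    (rdp N h (pt N t z w)).headD (0, 0) = G h (N - t) z w := by
  cases t with
  | zero => rfl
  | succ t => rw [pt_succ, rdp, pt_length]; rfl

theorem nd_u' (t : ℕ) (x : P × V k) (z : V k) (w : ℕ) :
    (namData k N h A u hu).u (rdp N h (pt N t z w)) x = u (N - t) (G h (N - t) z w) x := by
  show (if rdp N h (pt N t z w) = [] then (fun _ => 0) else _) = _
  rw [if_neg, rdp_length, pt_length, rdp_head, Nat.add_sub_cancel]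
  intro h1
  have h2 := congrArg List.length h1
  rw [rdp_length, pt_length] at h2
  simp at h2

theorem nd_mv_big (t : ℕ) (ht : N ≤ t) (x : P × V k) (z : V k) (w : ℕ) :
    Pool.Agent.M3.mv (namData k N h A u hu).u (rdp N h (pt N (t + 1) z w)) x = 0 := by
  unfold Pool.Agent.M3.mv
  have h1 : (rdp N h (pt N (t + 1) z w)).tail = rdp N h (pt N t z w) := by
    rw [pt_succ, rdp, List.tail_cons]
  rw [h1, nd_u', nd_u', show N - (t + 1) = N - t by omega]
  exact ind_not (fun h => h rfl)

/-- NAMES OF A MOVING FAMILY in the binary model -/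
theorem names_full (hu : Bdd u 1) (eta eps : ℝ) (heta : 0 < eta) (heps : 0 ≤ eps)
    (hh : ((2 : ℝ) ^ h)⁻¹ ≤ eta / 16) :
    ∃ (S : Births k P) (f : Fam k P), NamesBin A h N u eta eps S f := by
  classical
  obtain ⟨Ab, gb, hN⟩ := names_exist_moving (namData k N h A u hu) eta eps heta heps
  have hδ : 8 * (namData k N h A u hu).δ ≤ eta := by
    show 8 * (2 * ((2 : ℝ) ^ h)⁻¹) ≤ eta
    linarith
  set S : Births k P := fun e g => Ab (rpn h (N - e) e g) with hS
  set f : Fam k P := fun e g x => if e ≤ N then gb (rpn h (N - e) e g) x else 0 with hf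
  have hfe : ∀ e ≤ N, ∀ g x, f e g x = gb (rpn h (N - e) e g) x := by
    intro e he g x
    simp only [hf, if_pos he]
  have hacc : ∀ n e g x x', e + n = N →
      (SameB h N S n e g x x' ↔ ∀ X ∈ accu Ab (rpn h n e g), (x ∈ X ↔ x' ∈ X)) := by
    intro n
    induction n with
    | zero =>
      intro e g x x' hn
      have h1 : N - e = 0 := by omega
      have h2 : accu Ab (rpn h 0 e g) = S e g := by
        simp only [hS, h1, rpn, accu, List.append_nil]
      rw [h2]
      rfl
    | succ n ih =>
      intro e g x x' hn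
      have h1 : N - e = n + 1 := by omega
      have h2 : accu Ab (rpn h (n + 1) e g) = S e g ++ accu Ab (rpn h n (e + 1) (par h e g)) := by
        simp only [hS, h1]
        rw [rpn, accu]
      rw [h2, SameB, ih (e + 1) (par h e g) x x' (by omega)]
      constructor
      · rintro ⟨h3, h4⟩ X hX
        rcases List.mem_append.1 hX with h5 | h5
        · exact h3 X h5
        · exact h4 X h5
      · intro h3
        exact ⟨fun X hX => h3 X (List.mem_append_left _ hX),
          fun X hX => h3 X (List.mem_append_right _ hX)⟩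
  have hnode : ∀ t ≤ N, ∀ z w, Ab (rdp N h (pt N t z w)) = S (N - t) (G h (N - t) z w) := by
    intro t ht z w
    rw [rdp_pt N h t ht]
    have h1 : N - (N - t) = t := by omega
    simp only [hS, h1]
  have hnb : ∀ t ≤ N, ∀ z w x, Pool.Agent.M3.nb (Ab (rdp N h (pt N t z w))) x =
      nb S (N - t) (G h (N - t) z w) x := by
    intro t ht z w x
    rw [hnode t ht]
    rfl
  have hcase : ∀ n e, e + n = N → ∀ g : V k × ℕ, ∃ b r, rpn h n e g = b :: r ∧ N - e = n := by
    intro n e hn g
    cases n with
    | zero => exact ⟨g, [], rfl, by omega⟩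
    | succ n => exact ⟨g, rpn h n (e + 1) (par h e g), rfl, by omega⟩
  have hcond : ∀ x, ∀ e0 ≤ N, ∀ φ : V k → ℕ → ℝ, (∀ Y d, 0 ≤ φ Y d) →
      ∑ e ∈ range e0, EZ k N (fun z w => φ (pos e0 z w) (w / 2 ^ e0) * nb S e (G h e z w) x) ≤
      8 / eta ^ 2 * (EZ k N (fun z w => φ (pos e0 z w) (w / 2 ^ e0)) +
        ∑ e ∈ range e0, EZ k N (fun z w => φ (pos e0 z w) (w / 2 ^ e0) *
          ind (u e (G h e z w) x ≠ u (e + 1) (G h (e + 1) z w) x))) := by
    intro x e0 he0 φ hφ
    have hb := hN.budget heta hδ x (N - e0) e0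
      (fun l => φ (l.headD (0, 0)).1 (l.headD (0, 0)).2) (fun l => hφ _ _)
    have hE : ∀ (t : ℕ) (F : List (V k × ℕ) → ℝ),
        (namData k N h A u hu).P.E t F = EZ k N (fun z w => F (pt N t z w)) := fun _ _ => rfl
    have hrd : ∀ l, (namData k N h A u hu).rd l = rdp N h l := fun _ => rfl
    simp only [hE, hrd] at hb
    have e1 : N - (N - e0) = e0 := by omega
    rw [← Finset.sum_range_reflect (fun e => EZ k N (fun z w => φ (pos e0 z w) (w / 2 ^ e0) *
        nb S e (G h e z w) x)), ← Finset.sum_range_reflect (fun e => EZ k N (fun z w =>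
        φ (pos e0 z w) (w / 2 ^ e0) *
          ind (u e (G h e z w) x ≠ u (e + 1) (G h (e + 1) z w) x)))]
    refine le_trans (le_of_eq ?_) (hb.trans (le_of_eq ?_))
    · refine Finset.sum_congr rfl fun j hj => EZ_congr N _ _ fun z w _ => ?_
      rw [Finset.mem_range] at hj
      rw [show N - e0 + j + 1 = N - e0 + (j + 1) by ring, pt_drop, pt_head, e1,
        hnb _ (by omega)]
      rw [show N - (N - e0 + (j + 1)) = e0 - 1 - j by omega]
    · congr 2
      · refine EZ_congr N _ _ fun z w _ => ?_
        rw [pt_head, e1]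
      · refine Finset.sum_congr rfl fun j hj => EZ_congr N _ _ fun z w _ => ?_
        rw [Finset.mem_range] at hj
        rw [nd_mv A h N u hu (N - e0 + j) (by omega),
          show N - e0 + j + 1 = N - e0 + (j + 1) by ring, pt_drop, pt_head, e1]
        rw [show N - (N - e0 + (j + 1)) = e0 - 1 - j by omega]
  refine ⟨S, f, ⟨?_, ⟨?_, ?_, ?_⟩, ?_, ?_, ?_, ?_, hcond, ?_⟩⟩
  · intro e g x d
    by_cases he : e ≤ N
    · rw [hfe e he]; exact hN.bd _ _ _
    · simp only [hf, if_neg he, Pi.zero_apply, abs_zero]; exact zero_le_one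
  · intro e he g x x' hs
    rw [hfe e he, hfe e he]
    refine hN.cls _ x x' ?_
    exact (hacc (N - e) e g x x' (by omega)).1 hs
  · intro e he g x hx
    rw [hfe e he.le, hfe (e + 1) he]
    obtain ⟨n, hn⟩ : ∃ n, N - e = n + 1 := ⟨N - e - 1, by omega⟩
    have h1 : N - (e + 1) = n := by omega
    rw [h1, hn, rpn]
    refine hN.out g (rpn h n (e + 1) (par h e g)) x ?_
    intro X hX
    refine hx X ?_
    simp only [hS, hn]
    exact hX
  · intro g x hx
    rw [hfe N le_rfl]
    have h1 : N - N = 0 := by omega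
    rw [h1, rpn, hN.out g [] x ?_]
    · funext d
      exact hN.g_nil x d
    · intro X hX
      refine hx X ?_
      simp only [hS, h1]
      exact hX
  · intro e he g X hX
    obtain ⟨b, r, hr, hn⟩ := hcase (N - e) e (by omega) g
    have hX' : X ∈ Ab (b :: r) := by
      rw [← hr]; exact hX
    obtain ⟨⟨x0, hx0⟩, κ, hκ, hc⟩ := hN.thick b r X hX'
    have hcell : ∀ x, (namData k N h A u hu).cell (b :: r) x = A.vc (e - (h + 3)) x := by
      intro x
      rw [← hr]
      exact nd_cell A h N u hu (N - e) e (by omega) g x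
    have hk : κ = A.vc (e - (h + 3)) x0 := by rw [← hκ x0 hx0, hcell]
    refine ⟨x0, ?_, ?_⟩
    · intro x hx
      unfold Par.VC
      rw [Finset.mem_filter]
      exact ⟨Finset.mem_univ _, by rw [← hcell, hκ x hx, hk]⟩
    · refine le_trans (le_of_eq ?_) hc
      congr 1
      unfold cs Par.VC
      rw [Finset.card_filter, Nat.cast_sum]
      refine Finset.sum_congr rfl fun x _ => ?_
      rw [hcell, hk]
      by_cases hx : A.vc (e - (h + 3)) x = A.vc (e - (h + 3)) x0
      · rw [if_pos hx, ind_of hx, Nat.cast_one]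
      · rw [if_neg hx, ind_not hx, Nat.cast_zero]
  · intro e he g _ x0 w hw
    obtain ⟨b, r, hr, hn⟩ := hcase (N - e) e (by omega) g
    have h1 := hN.hf b r w hw (A.vc (e - (h + 3)) x0)
    rw [← hr] at h1
    have hcell : ∀ x, (namData k N h A u hu).cell (rpn h (N - e) e g) x =
        A.vc (e - (h + 3)) x := fun x => nd_cell A h N u hu (N - e) e (by omega) g x
    rw [sum_ind_mul_eq_card] at h1
    refine le_trans (le_of_eq ?_) (h1.trans (le_of_eq ?_))
    · congr 2
      ext x
      unfold Par.VC
      simp only [Finset.mem_filter, Finset.mem_univ, true_and]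
      rw [hcell, nd_u A h N u hu (N - e) e (by omega), nd_ms A h N u hu (N - e) e (by omega),
        wip_wt, hfe e he]
    · congr 1
      unfold cs Par.VC
      rw [Finset.card_filter, Nat.cast_sum]
      refine Finset.sum_congr rfl fun x _ => ?_
      rw [hcell]
      by_cases hx : A.vc (e - (h + 3)) x = A.vc (e - (h + 3)) x0
      · rw [if_pos hx, ind_of hx, Nat.cast_one]
      · rw [if_neg hx, ind_not hx, Nat.cast_zero]
  · intro e he g x
    obtain ⟨b, r, hr, hn⟩ := hcase (N - e) e (by omega) g
    have h1 := hN.cap b r x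
    rw [← hr] at h1
    exact h1
  · intro x
    have hb := hN.budget0 heta hδ x N
    have hE : ∀ (t : ℕ) (F : List (V k × ℕ) → ℝ),
        (namData k N h A u hu).P.E t F = EZ k N (fun z w => F (pt N t z w)) := fun _ _ => rfl
    have hrd : ∀ l, (namData k N h A u hu).rd l = rdp N h l := fun _ => rfl
    simp only [hE, hrd] at hb
    rw [← Finset.sum_range_reflect (fun e => EZ k N (fun z w => nb S e (G h e z w) x))]
    refine le_trans (le_of_eq ?_) (hb.trans (le_of_eq ?_))
    · refine Finset.sum_congr rfl fun t ht => EZ_congr N _ _ fun z w _ => ?_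
      rw [Finset.mem_range] at ht
      rw [hnb t (by omega), show N + 1 - 1 - t = N - t by omega]
    · congr 1
      rw [Finset.sum_range_succ']
      unfold mvx
      have h0 : EZ k N (fun z w => Pool.Agent.M3.mv (namData k N h A u hu).u
          (rdp N h (pt N 0 z w)) x) = EZ k N (fun z w => ind (u N (G h N z w) x ≠ 0)) :=
        EZ_congr N _ _ fun z w _ => nd_mv_zero A h N u hu x z w
      rw [h0]
      congr 1
      rw [← Finset.sum_range_reflect (fun e => EZ k N (fun z w =>
        ind (u e (G h e z w) x ≠ u (e + 1) (G h (e + 1) z w) x)))]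
      refine Finset.sum_congr rfl fun t ht => EZ_congr N _ _ fun z w _ => ?_
      rw [Finset.mem_range] at ht
      rw [nd_mv A h N u hu t (by omega), show N - (t + 1) = N - 1 - t by omega]
  · intro x K hK hmv j
    have hE : ∀ (t : ℕ) (F : List (V k × ℕ) → ℝ),
        (namData k N h A u hu).P.E t F = EZ k N (fun z w => F (pt N t z w)) := fun _ _ => rfl
    have hrd : ∀ l, (namData k N h A u hu).rd l = rdp N h l := fun _ => rfl
    have hpt : ∀ (t : ℕ) (z : V k) (w : ℕ),
        pt N t z w = pathOf N t (pos (N - t) z w) (w / 2 ^ (N - t)) :=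
      fun _ _ _ => rfl
    have ht := hN.tails heta hδ x K hK ?_ j N
    · simp only [hE, hrd] at ht
      rw [EZ_one, mul_one] at ht
      refine le_trans (le_of_eq ?_) ht
      refine EZ_congr N _ _ fun z w _ => ?_
      have h1 : Pool.Agent.M3.nb (accu Ab (rdp N h (pt N N z w))) x =
          ∑ e ∈ range (N + 1), nb S e (G h e z w) x := by
        have h2 : ∀ t ≤ N, Pool.Agent.M3.nb (accu Ab (rdp N h (pt N t z w))) x =
            ∑ i ∈ range (t + 1), nb S (N - i) (G h (N - i) z w) x := by
          intro t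
          induction t with
          | zero =>
            intro _
            rw [Finset.sum_range_one, pt_zero]
            show Pool.Agent.M3.nb (Ab _ ++ []) x = _
            rw [List.append_nil]
            exact hnb 0 (Nat.zero_le _) z w x
          | succ t ih =>
            intro ht
            rw [Finset.sum_range_succ, ← ih (by omega), ← hnb (t + 1) ht, pt_succ, rdp, accu,
              nb_append, add_comm]
        rw [h2 N le_rfl, ← Finset.sum_range_reflect (fun e => nb S e (G h e z w) x)]
        exact Finset.sum_congr rfl fun i hi => by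
          rw [show N + 1 - 1 - i = N - i by omega]
      rw [h1]
    · intro s n φ hφ
      simp only [hE, hrd]
      by_cases hs : s ≤ N
      · have h1 := hmv (N - s) (by omega) (fun Y d => φ (pathOf N s Y d)) (fun Y d => hφ _)
        have e1 : N - (N - s) = s := by omega
        have h2 : EZ k N (fun z w => φ (pt N s z w)) =
            EZ k N (fun z w => φ (pathOf N s (pos (N - s) z w) (w / 2 ^ (N - s)))) := rfl
        rw [h2]
        refine le_trans ?_ h1
        rw [← Finset.sum_range_reflect (fun e => EZ k N (fun z w =>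
          φ (pathOf N s (pos (N - s) z w) (w / 2 ^ (N - s))) *
            ind (u e (G h e z w) x ≠ u (e + 1) (G h (e + 1) z w) x)))]
        have h3 : ∀ i, EZ k N (fun z w => φ ((pt N (s + i + 1) z w).drop (i + 1)) *
            Pool.Agent.M3.mv (namData k N h A u hu).u (rdp N h (pt N (s + i + 1) z w)) x) =
            if i < N - s then EZ k N (fun z w =>
              φ (pathOf N s (pos (N - s) z w) (w / 2 ^ (N - s))) *
              ind (u (N - s - 1 - i) (G h (N - s - 1 - i) z w) x ≠
                u (N - s - 1 - i + 1) (G h (N - s - 1 - i + 1) z w) x)) else 0 := by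
          intro i
          by_cases hi : i < N - s
          · rw [if_pos hi]
            refine EZ_congr N _ _ fun z w _ => ?_
            rw [nd_mv A h N u hu (s + i) (by omega), show s + i + 1 = s + (i + 1) by ring,
              pt_drop, hpt, show N - (s + (i + 1)) = N - s - 1 - i by omega]
          · rw [if_neg hi]
            have h4 : EZ k N (fun _ _ => (0 : ℝ)) = 0 := by
              have := EZ_smul (k := k) N 0 (fun _ _ => 1)
              simpa using this
            rw [← h4]
            refine EZ_congr N _ _ fun z w _ => ?_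
            rw [nd_mv_big A h N u hu (s + i) (by omega), mul_zero]
        rw [Finset.sum_congr rfl fun i _ => h3 i, ← Finset.sum_filter]
        refine Finset.sum_le_sum_of_subset_of_nonneg ?_ ?_
        · intro i hi
          rw [Finset.mem_filter] at hi
          exact Finset.mem_range.2 hi.2
        · intro i _ _
          have h4 : EZ k N (fun _ _ => (0 : ℝ)) = 0 := by
            have := EZ_smul (k := k) N 0 (fun _ _ => 1)
            simpa using this
          rw [← h4]
          exact EZ_mono N _ _ fun z w _ => mul_nonneg (hφ _) (ind_nonneg _)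
      · have h4 : EZ k N (fun _ _ => (0 : ℝ)) = 0 := by
          have := EZ_smul (k := k) N 0 (fun _ _ => 1)
          simpa using this
        have h5 : 0 ≤ EZ k N (fun z w => φ (pt N s z w)) := by
          rw [← h4]
          exact EZ_mono N _ _ fun z w _ => hφ _
        refine le_trans (le_of_eq ?_) (mul_nonneg hK h5)
        refine Finset.sum_eq_zero fun i _ => ?_
        rw [← h4]
        refine EZ_congr N _ _ fun z w _ => ?_
        rw [nd_mv_big A h N u hu (s + i) (by omega), mul_zero]

end main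

end

end Pool.Agent.M3.Bin
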