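import Pool.Agent.M3.Bin.Flr
import Pool.Agent.M3.Bin.Law

/-! # M3/Bin/Names (helper39): names of a moving family, row 2M (1) -/

set_option autoImplicit false

namespace Pool.Agent.M3.Bin

open Finset Pool.Agent.PWZ

variable {k : ℕ} {P : Type} [Fintype P]

theorem names_exist (A : Par k P) (h N : ℕ) (hN : N ≤ k) (u : Fam k P) (hu : Bdd u 1)
    (eta eps : ℝ) (heta : 0 < eta) (heta1 : eta ≤ 1) (heps : 0 < eps)
    (hh : ((2 : ℝ) ^ h)⁻¹ ≤ eta ^ 2 / 16) :
    ∃ (S : Births k P) (f : Fam k P), Bdd f 1 ∧ DetBy h N S f ∧ Thick A h N S eps ∧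
      HF A h N (fun e g x d => u e g x d - f e g x d) eta (2 * eps) ∧
      nbirth h N S ≤ 8 / eta ^ 2 * mv h N u := by
  sorry

end Pool.Agent.M3.Bin
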