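import Pool.Agent.M3.Bin.Opt

/-!
# M3/Bin/Pay (helper89): the payments (2b) of row 2M: rarity of `|T|` in the two views

Throughout `u` lives on the second vertex `y`, `v` on the first vertex `x`, bounded by `2`;
`r = 4 eta`, `2^-h ≤ eta / 16` so that `|ip e y f g - ip e (flr (e-h) y) f g| ≤ 2*4*2^-h ≤ eta`.

PROOFS. `rare_y` (given `x`, `w`, the small cell of `y`): the true rounded node is one of the two
options; for each of them the test function `v e g x / 2` and `HF` on the small cell of `y`; `sc h e`.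
`rare_y_child`: a small cell of the exponent `e` is contained in a small cell of the exponent `e+1`
which has at most `4` times as many points (`Par.card`, `card_cell`).
`rare_x` (given `y`, `w / 2^e` and the exact position): `x` runs through `{(p,a) : A.sh x + B.sh y + lo = Y}`,
`lo < 2^e`: covered by small cells, `2^e / 2^s + 2` cells of `a` for every small cell of `p`.
-/

set_option autoImplicit false

namespace Pool.Agent.M3.Bin

open Finset Pool.Agent.PWZ

variable {k N : ℕ} {P Q : Type} [Fintype P] [Fintype Q]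

/-- given `x` and `w`: rarity over the small cell of `y` (same exponent) -/
theorem rare_y (A : Par k P) (B : Par k Q) (h : ℕ) (hN : N ≤ k) (u : Fam k Q) (v : Fam k P)
    (hv : Bdd v 2) (hu : Bdd u 2) (eta eps : ℝ) (heta : 0 < eta) (heps : 0 ≤ eps)
    (hh : ((2 : ℝ) ^ h)⁻¹ ≤ eta / 16) (hHF : HF B h N u eta eps) (e : ℕ) (he : e ≤ N)
    (x : P × V k) (w : ℕ) (y0 : Q × V k) :
    (((B.VC (sc h e) y0).filter fun y => 4 * eta < |TT A B h u v e x y w|).card : ℝ) ≤
      2 * eps * ((B.VC (sc h e) y0).card : ℝ) := by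
  sorry

/-- the same with the small cell of the next exponent -/
theorem rare_y_child (A : Par k P) (B : Par k Q) (h : ℕ) (hN : N ≤ k) (u : Fam k Q) (v : Fam k P)
    (hv : Bdd v 2) (hu : Bdd u 2) (eta eps : ℝ) (heta : 0 < eta) (heps : 0 ≤ eps)
    (hh : ((2 : ℝ) ^ h)⁻¹ ≤ eta / 16) (hHF : HF B h N u eta eps) (e : ℕ) (he : e < N)
    (x : P × V k) (w : ℕ) (y0 : Q × V k) :
    (((B.VC (sc h e) y0).filter fun y => 4 * eta < |TT A B h u v (e + 1) x y w|).card : ℝ) ≤
      8 * eps * ((B.VC (sc h e) y0).card : ℝ) := by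
  sorry

/-- given `y`: an event `φ` of `y`, the exact position and the high digits, against a bounded test
`f` known from them: the first vertex is rare -/
theorem rare_x (A : Par k P) (B : Par k Q) (h : ℕ) (hN : N ≤ k) (v : Fam k P) (hv : Bdd v 2)
    (eta eps : ℝ) (heta : 0 < eta) (heps : 0 ≤ eps) (hh : ((2 : ℝ) ^ h)⁻¹ ≤ eta / 16)
    (hHF : HF A h N v eta eps) (e : ℕ) (he : e ≤ N) (φ : Q × V k → V k → ℕ → ℝ)
    (hφ : ∀ y z c, 0 ≤ φ y z c) (f : Q × V k → V k → ℕ → V k → ℝ)
    (hf : ∀ y z c d, |f y z c d| ≤ 2) :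
    EB N P Q (fun x y w => φ y (pos e (A.sh x + B.sh y) w) (w / 2 ^ e) *
      ind (4 * eta < |ip e (pos e (A.sh x + B.sh y) w)
        (f y (pos e (A.sh x + B.sh y) w) (w / 2 ^ e)) (v e (G h e (A.sh x + B.sh y) w) x)|)) ≤
      3 * eps * EB N P Q (fun x y w => φ y (pos e (A.sh x + B.sh y) w) (w / 2 ^ e)) := by
  sorry

/-- births of the first vertex at the exponent `e` while `|T|` is large at `e` -/
theorem pay_birth (A : Par k P) (B : Par k Q) [Nonempty Q] (h : ℕ) (hN : N ≤ k) (u : Fam k Q)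
    (v : Fam k P) (hv : Bdd v 2) (hu : Bdd u 2) (eta eps : ℝ) (heta : 0 < eta) (heps : 0 ≤ eps)
    (hh : ((2 : ℝ) ^ h)⁻¹ ≤ eta / 16) (hHF : HF B h N u eta eps) (S : Births k P) (e : ℕ)
    (he : e ≤ N) :
    EB N P Q (fun x y w => ind ((∃ X ∈ S e (G h e (A.sh x + B.sh y) w), x ∈ X) ∧
        4 * eta < |TT A B h u v e x y w|)) ≤
      4 * eps * E1 N P (fun x z w => nb S e (G h e z w) x) := by
  sorry

/-- births of the first vertex at the exponent `e` while `|T|` is large at `e + 1` -/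
theorem pay_birth_pre (A : Par k P) (B : Par k Q) [Nonempty Q] (h : ℕ) (hN : N ≤ k) (u : Fam k Q)
    (v : Fam k P) (hv : Bdd v 2) (hu : Bdd u 2) (eta eps : ℝ) (heta : 0 < eta) (heps : 0 ≤ eps)
    (hh : ((2 : ℝ) ^ h)⁻¹ ≤ eta / 16) (hHF : HF B h N u eta eps) (S : Births k P) (e : ℕ)
    (he : e < N) :
    EB N P Q (fun x y w => ind ((∃ X ∈ S e (G h e (A.sh x + B.sh y) w), x ∈ X) ∧
        4 * eta < |TT A B h u v (e + 1) x y w|)) ≤
      16 * eps * E1 N P (fun x z w => nb S e (G h e z w) x) := by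
  sorry

end Pool.Agent.M3.Bin
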