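import Pool.Agent.M3.Bin.InstF
import Pool.Agent.M3.TSLay

/-!
# M3/Bin/Tower (helper11): the binary model gives `TS.Side`, `TS.View` and `TS.Tower`

`view_X` (view of the first vertex), `view_Y` (view of the second one), `side_X`, `side_Y`, `tower_bin`
(all roundings `h + 2 j`), `lemmaM'_bin` (Lemma M' for two vertices).
-/

set_option autoImplicit false
set_option linter.unusedSectionVars false

namespace Pool.Agent.M3.Bin

open Finset Pool.Agent.PWZ Pool.Agent.M3

variable {k N : ℕ} {P Q : Type} [Fintype P] [Fintype Q]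

/-- the view of the first vertex -/
theorem view_X [Nonempty P] [Nonempty Q] (A : Par k P) (B : Par k Q) (hN : N ≤ k) (h : ℕ) :
    TS.View (FP.unif (Om2 k N P Q)) (fun o => o.1) (fun o => o.2.1) N (nX A B h) (nY A B h) (cX A N h)
      (cX B N h) (rX N h) (rX N h) (Jt A B) (8 * ((2 : ℝ) ^ h)⁻¹) (Qt B h) (Rt A B h) Dt (dlt A B)
      (oX A B h) (oY A B h) (cK A h) (kX h) where
  ppos := FP.unif_ne _
  Jwt := fun t o => Wt_Wd _ _
  Jnear := fun t _ o f f' hf hf' => iw_near h (N - t) (by omega) _ f f' hf hf'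
  ρxy := fun t o => rfl
  QR := fac_QR A B h
  QQ := fac_QQ B h
  Dpm := fun t o => dg_pm _ _
  Dfair := fun t ht o => D_fair B h t ht o
  DX := fac_DX B hN h
  DQ := fac_DQ B h
  Qstep := fac_Qstep B h
  Qcy := fac_Qcy B h
  Yunif := fun t _ o f => Y_unif B hN h t o f
  JQ := fac_J A B h
  dlQ := fac_dl A B h
  Jstep := fun t ht o v => J_step A B t ht o v
  nxQ := fac_nX A B h
  nyQ := fac_nY A B h
  nyy := fac_nyy A B h
  nxy := fac_nxy A B h
  oxR := fac_oX A B h
  oyR := fac_oY A B h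
  opt := opt_X A B hN h
  oact := fun t _ i o => oact_X A B h t i o
  ocnt := fun t i x g => by
    rw [ocnt_X A B h t i x g]
    linarith [FP.Pr_nonneg (FP.unif (Om2 k N P Q)) (fun o => o.1 = x ∧ nX A B h t o = g)]
  ckR := fac_cK A B h
  kxX := fac_kX A B h
  ckx := ck_X A hN h
  ccnt := fun t i j c g => by
    rw [ccnt_X A B h t i j c g]
    linarith [FP.Pr_nonneg (FP.unif (Om2 k N P Q)) (fun o => cX A N h t o.1 = c ∧ nX A B h t o = g)]
  cyn := fun t y y' hy => vc_nest B (sc_mono (by omega)) hy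
  cy4 := fun t _ y => cy4_X B hN h t y
  fresh := fun t _ y g E ε hε hE => fresh_X A B hN h t y g E ε hε hE

/-- exchange of the two vertices -/
def swapE (k N : ℕ) (P Q : Type) : Om2 k N P Q ≃ Om2 k N Q P where
  toFun := fun o => (o.2.1, o.1, o.2.2)
  invFun := fun o => (o.2.1, o.1, o.2.2)
  left_inv := fun _ => rfl
  right_inv := fun _ => rfl

theorem nX_swap (A : Par k P) (B : Par k Q) (h t : ℕ) (o : Om2 k N P Q) :
    nX B A h t (swapE k N P Q o) = nY A B h t o := (nY_swap A B h t o).symm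

theorem nY_swap' (A : Par k P) (B : Par k Q) (h t : ℕ) (o : Om2 k N P Q) :
    nY B A h t (swapE k N P Q o) = nX A B h t o := by
  unfold nX nY ctr swapE
  simp only [Equiv.coe_fn_mk]
  rw [add_comm]

theorem Jt_swap (A : Par k P) (B : Par k Q) (t : ℕ) (o : Om2 k N P Q) :
    Jt B A t (swapE k N P Q o) = Jt A B t o := by
  unfold Jt ctr swapE
  simp only [Equiv.coe_fn_mk]
  rw [add_comm]

/-- second vertex -/
theorem side_Y [Nonempty P] [Nonempty Q] (A : Par k P) (B : Par k Q) (hN : N ≤ k) (h : ℕ) :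
    TS.Side (FP.unif (Om2 k N P Q)) (fun o => o.2.1) N (nY A B h) (cX B N h) (rX N h) (parX A N h) := by
  have h1 := TS.Side.map (swapE k N P Q) (side_X (N := N) B A hN h)
  have h2 : (fun (t : ℕ) (o : Om2 k N P Q) => nX B A h t (swapE k N P Q o)) = nY A B h := by
    funext t o
    exact nX_swap A B h t o
  rw [h2] at h1
  exact h1

/-- the view of the second vertex -/
theorem view_Y [Nonempty P] [Nonempty Q] (A : Par k P) (B : Par k Q) (hN : N ≤ k) (h : ℕ) :
    TS.View (FP.unif (Om2 k N P Q)) (fun o => o.2.1) (fun o => o.1) N (nY A B h) (nX A B h) (cX B N h)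
      (cX A N h) (rX N h) (rX N h) (Jt A B) (8 * ((2 : ℝ) ^ h)⁻¹)
      (fun t o => Qt A h t (swapE k N P Q o)) (fun t o => Rt B A h t (swapE k N P Q o))
      (fun t o => Dt t (swapE k N P Q o)) (fun t o => dlt B A t (swapE k N P Q o))
      (fun t i o => oX B A h t i (swapE k N P Q o)) (fun t i o => oY B A h t i (swapE k N P Q o))
      (fun t i o => cK B h t i (swapE k N P Q o)) (fun t o => kX h t (swapE k N P Q o)) := by
  have h1 := TS.View.map (swapE k N P Q) (view_X (N := N) B A hN h)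
  have h2 : (fun (t : ℕ) (o : Om2 k N P Q) => nX B A h t (swapE k N P Q o)) = nY A B h := by
    funext t o
    exact nX_swap A B h t o
  have h3 : (fun (t : ℕ) (o : Om2 k N P Q) => nY B A h t (swapE k N P Q o)) = nX A B h := by
    funext t o
    exact nY_swap' A B h t o
  have h4 : (fun (t : ℕ) (o : Om2 k N P Q) => Jt B A t (swapE k N P Q o)) = Jt A B := by
    funext t o
    exact Jt_swap A B t o
  rw [h2, h3, h4] at h1
  exact h1

noncomputable section

/-- coarsening of the nodes -/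
def crX (B : Par k Q) (N h j t : ℕ) (g : (V k × ℕ) × ℕ) : (V k × ℕ) × ℕ :=
  ((flr (N - t - (h + 2 * j)) g.1.1, g.1.2),
    cmap B (sc (h + 2 * (j + 1)) (N - t)) (sc (h + 2 * j) (N - t)) g.2)

/-- coarsening of the cells -/
def ccX (A : Par k P) (N h j t : ℕ) (c : ℕ × V k) : ℕ × V k :=
  (cmap A (sc (h + 2 * (j + 1)) (N - t)) (sc (h + 2 * j) (N - t)) c.1, flr (sc (h + 2 * j) (N - t)) c.2)

end

theorem sc_anti {h h' e : ℕ} (hh : h ≤ h') : sc h' e ≤ sc h e := by
  unfold sc; omega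

theorem crX_nX (A : Par k P) (B : Par k Q) (h j t : ℕ) (o : Om2 k N P Q) :
    crX B N h j t (nX A B (h + 2 * (j + 1)) t o) = nX A B (h + 2 * j) t o := by
  unfold crX nX G gam
  simp only
  rw [cmap_cell B (sc_anti (by omega)), flr_flr (by omega)]

theorem crX_nY (A : Par k P) (B : Par k Q) (h j t : ℕ) (o : Om2 k N P Q) :
    crX A N h j t (nY A B (h + 2 * (j + 1)) t o) = nY A B (h + 2 * j) t o := by
  unfold crX nY G gam
  simp only
  rw [cmap_cell A (sc_anti (by omega)), flr_flr (by omega)]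

theorem ccX_cX (A : Par k P) (N h j t : ℕ) (x : P × V k) :
    ccX A N h j t (cX A N (h + 2 * (j + 1)) t x) = cX A N (h + 2 * j) t x := by
  unfold ccX cX Par.vc
  simp only
  rw [cmap_cell A (sc_anti (by omega)), flr_flr (sc_anti (by omega))]

theorem cX_16 (A : Par k P) (hN : N ≤ k) (h j t : ℕ) (x : P × V k) :
    ((TS.cel (cX A N (h + 2 * j) t) (cX A N (h + 2 * j) t x)).card : ℝ) ≤
      16 * ((TS.cel (cX A N (h + 2 * (j + 1)) t) (cX A N (h + 2 * (j + 1)) t x)).card : ℝ) := by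
  have h1 := card_vc_le A (j := sc (h + 2 * (j + 1)) (N - t)) (j' := sc (h + 2 * j) (N - t)) 2
    (sc_anti (by omega)) (by unfold sc; omega) (by unfold sc; omega) x
  norm_num at h1
  exact h1

theorem near_eq (h j : ℕ) : 8 * ((2 : ℝ) ^ (h + 2 * j))⁻¹ = 8 * ((2 : ℝ) ^ h)⁻¹ / 4 ^ j := by
  rw [pow_add, pow_mul]
  norm_num
  field_simp

theorem cardK_le (h j : ℕ) : (Fintype.card (Fin (2 ^ (h + 2 * j + 3) + 1)) : ℝ) ≤ 2 ^ (h + 4) * 4 ^ j := by
  rw [Fintype.card_fin]
  have h1 : 2 ^ (h + 2 * j + 3) + 1 ≤ 2 ^ (h + 4) * 4 ^ j := by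
    have h2 : (4 : ℕ) ^ j = 2 ^ (2 * j) := by rw [pow_mul]; norm_num
    have h3 : 2 ^ (h + 4) * 2 ^ (2 * j) = 2 * 2 ^ (h + 2 * j + 3) := by
      rw [← pow_add, ← pow_succ']
      congr 1
      omega
    have h4 := Nat.two_pow_pos (h + 2 * j + 3)
    rw [h2, h3]
    omega
  exact_mod_cast h1

/-- the binary model with all roundings -/
theorem tower_bin [Nonempty P] [Nonempty Q] (A : Par k P) (B : Par k Q) (hN : N ≤ k) (h : ℕ) :
    TS.Tower (FP.unif (Om2 k N P Q)) (fun o => o.1) (fun o => o.2.1) N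
      (fun j => nX A B (h + 2 * j)) (fun j => nY A B (h + 2 * j))
      (fun j => cX A N (h + 2 * j)) (fun j => cX B N (h + 2 * j))
      (fun j => rX N (h + 2 * j)) (fun j => rX N (h + 2 * j))
      (fun j => parX B N (h + 2 * j)) (fun j => parX A N (h + 2 * j))
      (Jt A B) (8 * ((2 : ℝ) ^ h)⁻¹) (2 ^ (h + 4)) (crX B N h) (crX A N h) (ccX A N h) (ccX B N h) where
  sideX := fun j => side_X A B hN (h + 2 * j)
  sideY := fun j => side_Y A B hN (h + 2 * j)
  viewX := fun j => ⟨_, _, _, _, _, _, _, _, _, _, _, _, by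
    have h1 := view_X (N := N) A B hN (h + 2 * j)
    rw [near_eq] at h1
    exact h1, cardK_le h j⟩
  viewY := fun j => ⟨_, _, _, _, _, _, _, _, _, _, _, _, by
    have h1 := view_Y (N := N) A B hN (h + 2 * j)
    rw [near_eq] at h1
    exact h1, cardK_le h j⟩
  crx := fun j t o => crX_nX A B h j t o
  cry := fun j t o => crX_nY A B h j t o
  ccx := fun j t x => ccX_cX A N h j t x
  ccy := fun j t x => ccX_cX B N h j t x
  cx16 := fun j t x => cX_16 A hN h j t x
  cy16 := fun j t x => cX_16 B hN h j t x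

/-- LEMMA M' for two vertices of the binary model -/
theorem lemmaM'_bin [Nonempty P] [Nonempty Q] (A : Par k P) (B : Par k Q) (hN : N ≤ k) (h : ℕ)
    (u : ℕ → (V k × ℕ) × ℕ → Q × V k → V k → ℝ) (v : ℕ → (V k × ℕ) × ℕ → P × V k → V k → ℝ)
    (hu1 : ∀ t g y c, |u t g y c| ≤ 1) (hv1 : ∀ t g x c, |v t g x c| ≤ 1)
    (hu0 : ∀ g y c, u 0 g y c = 0) (hv0 : ∀ g x c, v 0 g x c = 0)
    {η ε m : ℝ} (hη : 0 < η) (hη1 : η ≤ 1 / 4) (hε : 0 < ε) (hε1 : ε ≤ 1)
    (hnear : 32 ≤ η * 2 ^ h)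
    (hu : TS.HF N (nY (N := N) A B h) (cX B N h) (rX N h) u η ε)
    (hv : TS.HF N (nX (N := N) A B h) (cX A N h) (rX N h) v η ε)
    (hmu : TS.moves (FP.unif (Om2 k N P Q)) (fun o => o.2.1) N (nY A B h) u ≤ m)
    (hmv : TS.moves (FP.unif (Om2 k N P Q)) (fun o => o.1) N (nX A B h) v ≤ m) :
    (FP.unif (Om2 k N P Q)).Pr (fun o => ∃ t ≤ N, 400 * η < |TS.TT (fun o => o.1) (fun o => o.2.1)
      (nX A B h) (nY A B h) (Jt A B) u v t o|) ≤
      10 ^ 8 * ε * m / η ^ 4 * (1 + Real.log (2 ^ (h + 4) / ε)) := by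
  have h2 : (0 : ℝ) < 2 ^ h := by positivity
  refine TS.lemmaM' (tower_bin (N := N) A B hN h) u v hu1 hv1 hu0 hv0 hη hη1 hε hε1
    (one_le_pow₀ (by norm_num)) (by positivity) ?_ hu hv hmu hmv
  rw [mul_inv_le_iff₀ h2]
  linarith

end Pool.Agent.M3.Bin
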