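import Pool.Agent.M3.Bin.Law
import Pool.Agent.M3.Indep

/-!
# M3/Bin/View (helper11): the finite probability space of two vertices, the fair digit

`Om2 k N P Q = (P × V k) × (Q × V k) × Fin (2^N)`, uniform.  `flipN e w` = `w` with the digit `e` flipped.
`fair_x`: the digit `e` is fair given everything which is a function of
`(pos (e+1) a w, w / 2^(e+1), p, y)` (view of the first vertex `x = (p, a)`).
-/

set_option autoImplicit false
set_option linter.unusedSectionVars false

namespace Pool.Agent.M3.Bin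

open Finset Pool.Agent.PWZ Pool.Agent.M3

variable {k N : ℕ} {P Q : Type} [Fintype P] [Fintype Q]

/-! ### flipping a digit -/

/-- flip the digit `e` of `w` -/
def flipN (e w : ℕ) : ℕ := if bit e w = 0 then w + 2 ^ e else w - 2 ^ e

theorem bit_lt (e w : ℕ) : bit e w = 0 ∨ bit e w = 1 := by
  unfold bit; omega

theorem two_pow_le_of_bit {e w : ℕ} (h : bit e w = 1) : 2 ^ e ≤ w := by
  by_contra hlt
  push Not at hlt
  unfold bit at h
  rw [Nat.div_eq_of_lt hlt] at h
  simp at h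

theorem flipN_div (e w : ℕ) : flipN e w / 2 ^ (e + 1) = w / 2 ^ (e + 1) := by
  have hpos : 0 < 2 ^ e := by positivity
  unfold flipN
  have h1 := Nat.div_add_mod w (2 ^ (e + 1))
  have h2 := mod_pow_succ w e
  have h3 : bit e w = w / 2 ^ e % 2 := rfl
  have h4 := Nat.mod_lt w hpos
  have hp : (2 : ℕ) ^ (e + 1) = 2 * 2 ^ e := by ring
  rw [← h3] at h2
  split_ifs with h
  · rw [h, zero_mul, add_zero] at h2
    rw [h2] at h1
    conv_lhs => rw [← h1]
    rw [show 2 ^ (e + 1) * (w / 2 ^ (e + 1)) + w % 2 ^ e + 2 ^ e =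
      (w % 2 ^ e + 2 ^ e) + 2 ^ (e + 1) * (w / 2 ^ (e + 1)) by ring,
      Nat.add_mul_div_left _ _ (by positivity), Nat.div_eq_of_lt (by omega), zero_add]
  · have h5 : bit e w = 1 := by rcases bit_lt e w with h6 | h6 <;> omega
    rw [h5, one_mul] at h2
    rw [h2] at h1
    have h6 : w - 2 ^ e = w % 2 ^ e + 2 ^ (e + 1) * (w / 2 ^ (e + 1)) := by omega
    rw [h6, Nat.add_mul_div_left _ _ (by positivity), Nat.div_eq_of_lt (by omega), zero_add]

theorem flipN_bit (e w : ℕ) : bit e (flipN e w) = 1 - bit e w := by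
  have hpos : 0 < 2 ^ e := by positivity
  unfold flipN
  split_ifs with h
  · rw [h]
    unfold bit at h ⊢
    rw [Nat.add_div_right _ hpos]
    omega
  · have h5 : bit e w = 1 := by rcases bit_lt e w with h6 | h6 <;> omega
    have h6 := two_pow_le_of_bit h5
    rw [h5]
    unfold bit at h5 ⊢
    obtain ⟨v, rfl⟩ := Nat.exists_eq_add_of_le h6
    rw [Nat.add_sub_cancel_left]
    rw [Nat.add_div_left _ hpos] at h5
    omega

theorem flipN_mod (e w : ℕ) : flipN e w % 2 ^ e = w % 2 ^ e := by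
  unfold flipN
  split_ifs with h
  · rw [Nat.add_mod_right]
  · have h5 : bit e w = 1 := by rcases bit_lt e w with h6 | h6 <;> omega
    obtain ⟨v, rfl⟩ := Nat.exists_eq_add_of_le (two_pow_le_of_bit h5)
    rw [Nat.add_sub_cancel_left, Nat.add_mod_left]

theorem flipN_of0 {e w : ℕ} (h : bit e w = 0) : flipN e w = w + 2 ^ e := by
  unfold flipN; rw [if_pos h]

theorem flipN_of1 {e w : ℕ} (h : bit e w = 1) : flipN e w = w - 2 ^ e := by
  unfold flipN; rw [if_neg (by omega)]

theorem flipN_flipN (e w : ℕ) : flipN e (flipN e w) = w := by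
  have hb := flipN_bit e w
  rcases bit_lt e w with h | h
  · rw [h] at hb
    rw [flipN_of1 hb, flipN_of0 h, Nat.add_sub_cancel]
  · have h0 := two_pow_le_of_bit h
    rw [h] at hb
    rw [flipN_of0 hb, flipN_of1 h, Nat.sub_add_cancel h0]

theorem flipN_lt {e w : ℕ} (he : e < N) (hw : w < 2 ^ N) : flipN e w < 2 ^ N := by
  have h1 : w / 2 ^ (e + 1) < 2 ^ (N - (e + 1)) := by
    rw [Nat.div_lt_iff_lt_mul (by positivity), ← pow_add, Nat.sub_add_cancel (by omega)]
    exact hw
  rw [← flipN_div e w, Nat.div_lt_iff_lt_mul (by positivity), ← pow_add,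
    Nat.sub_add_cancel (by omega)] at h1
  exact h1

/-! ### the probability space of two vertices -/

/-- two vertices and the noise -/
abbrev Om2 (k N : ℕ) (P Q : Type) := (P × V k) × (Q × V k) × Fin (2 ^ N)

/-- `EB` is the expectation of the uniform law -/
theorem EB_eq [Nonempty P] [Nonempty Q] (f : P × V k → Q × V k → ℕ → ℝ) :
    EB N P Q f = (FP.unif (Om2 k N P Q)).E (fun o => f o.1 o.2.1 (o.2.2 : ℕ)) := by
  rw [FP.unif_E]
  unfold EB
  rw [div_eq_inv_mul, Fintype.card_prod (P × V k) ((Q × V k) × Fin (2 ^ N)),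
    Fintype.card_prod (Q × V k) (Fin (2 ^ N)), Fintype.card_fin]
  have h1 : ∑ o : Om2 k N P Q, f o.1 o.2.1 (o.2.2 : ℕ) =
      ∑ x : P × V k, ∑ y : Q × V k, ∑ w ∈ range (2 ^ N), f x y w := by
    rw [Fintype.sum_prod_type]
    refine Finset.sum_congr rfl fun x _ => ?_
    rw [Fintype.sum_prod_type]
    refine Finset.sum_congr rfl fun y _ => ?_
    exact (Finset.sum_range fun w => f x y w).symm
  rw [h1]
  congr 1
  push_cast
  ring

/-- flip the digit `e` and keep the exact position `pos (e+1) a w` of the first vertex -/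
def flipX (e : ℕ) (he : e < N) (o : Om2 k N P Q) : Om2 k N P Q :=
  ((o.1.1, pos (e + 1) o.1.2 o.2.2 - ((flipN e o.2.2 % 2 ^ (e + 1) : ℕ) : V k)), o.2.1,
    ⟨flipN e o.2.2, flipN_lt he o.2.2.2⟩)

theorem flipX_pos (e : ℕ) (he : e < N) (o : Om2 k N P Q) :
    pos (e + 1) (flipX e he o).1.2 (flipX e he o).2.2 = pos (e + 1) o.1.2 o.2.2 := by
  show (pos (e + 1) o.1.2 o.2.2 - ((flipN e o.2.2 % 2 ^ (e + 1) : ℕ) : V k)) +
    ((flipN e o.2.2 % 2 ^ (e + 1) : ℕ) : V k) = _
  rw [sub_add_cancel]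

theorem flipX_flipX (e : ℕ) (he : e < N) (o : Om2 k N P Q) :
    flipX e he (flipX e he o) = o := by
  have h1 := flipX_pos e he o
  have h2 : ((flipX e he o).2.2 : ℕ) = flipN e o.2.2 := rfl
  obtain ⟨⟨p, a⟩, y, w⟩ := o
  have h3 : flipX e he (flipX e he ((p, a), y, w)) =
      ((p, pos (e + 1) (flipX e he ((p, a), y, w)).1.2 (flipX e he ((p, a), y, w)).2.2 -
        ((flipN e (flipX e he ((p, a), y, w)).2.2 % 2 ^ (e + 1) : ℕ) : V k)), y,
        ⟨flipN e (flipX e he ((p, a), y, w)).2.2, flipN_lt he (flipX e he ((p, a), y, w)).2.2.2⟩) :=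
    rfl
  rw [h3, h1]
  simp only [h2, flipN_flipN]
  congr 2
  unfold pos
  ring

/-- THE FAIR DIGIT in the view of the first vertex -/
theorem fair_x [Nonempty P] [Nonempty Q] {κ : Type*} (e : ℕ) (he : e < N)
    (Z : Om2 k N P Q → κ) (hZ : ∀ o o' : Om2 k N P Q, o.1.1 = o'.1.1 → o.2.1 = o'.2.1 →
      (o.2.2 : ℕ) / 2 ^ (e + 1) = (o'.2.2 : ℕ) / 2 ^ (e + 1) →
      pos (e + 1) o.1.2 o.2.2 = pos (e + 1) o'.1.2 o'.2.2 → Z o = Z o') (o0 : Om2 k N P Q) :
    (FP.unif (Om2 k N P Q)).ce Z (fun o => dg e o.2.2) o0 = 0 := by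
  unfold FP.ce
  rw [FP.unif_E]
  have h0 : ∑ o : Om2 k N P Q, ind (Z o = Z o0) * dg e o.2.2 = 0 := by
    have h1 : ∑ o : Om2 k N P Q, ind (Z o = Z o0) * dg e o.2.2 =
        ∑ o : Om2 k N P Q, ind (Z (flipX e he o) = Z o0) * dg e (flipX e he o).2.2 :=
      (Equiv.sum_comp (Function.Involutive.toPerm (flipX (P := P) (Q := Q) (k := k) e he)
        (flipX_flipX e he)) (fun o => ind (Z o = Z o0) * dg e o.2.2)).symm
    have h2 : ∀ o : Om2 k N P Q, ind (Z (flipX e he o) = Z o0) * dg e (flipX e he o).2.2 =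
        -(ind (Z o = Z o0) * dg e o.2.2) := by
      intro o
      have e1 : Z (flipX e he o) = Z o :=
        hZ _ _ rfl rfl (flipN_div e o.2.2) (flipX_pos e he o)
      have e2 : dg e (flipX e he o).2.2 = - dg e o.2.2 := by
        have e3 : ((flipX e he o).2.2 : ℕ) = flipN e o.2.2 := rfl
        rw [e3]
        unfold dg
        rw [flipN_bit]
        rcases bit_lt e o.2.2 with h | h <;> rw [h] <;> norm_num
      rw [e1, e2]
      ring
    rw [Finset.sum_congr rfl fun o _ => h2 o, Finset.sum_neg_distrib] at h1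
    linarith
  rw [h0]
  simp

/-- the vertex `y` is independent of `(x, w)` -/
theorem indep_y [Nonempty P] [Nonempty Q] :
    (FP.unif (Om2 k N P Q)).Indep (fun o => (o.1, o.2.2)) (fun o => o.2.1) := by
  let e : Om2 k N P Q ≃ ((P × V k) × Fin (2 ^ N)) × (Q × V k) :=
    { toFun := fun o => ((o.1, o.2.2), o.2.1)
      invFun := fun t => (t.1.1, t.2, t.1.2)
      left_inv := fun o => rfl
      right_inv := fun t => rfl }
  exact FP.unif_indep e

end Pool.Agent.M3.Bin
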